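import Pool.Agent.H48.KV.SDef
import Pool.Agent.H57.LI.Defs
import Pool.Agent.H63.MC.CDef

/-!
# T3 (MP_b39724_nt): Malle's conjecture for `A_4` in degree 4, full asymptotic. Definitions

`K` contains a primitive cube root of unity, `S` is a finite set of primes of `K` which contains the primes over 2 and 3.
* `mS S = 8 ∏_{v ∈ S} v`: the modulus.
* `Cub K`: a cyclic cubic extension of `K` in `QBar` with a generator `τ` of its Galois group. `OvS c S P`: `P` lies over `S`. `Spc c l`: `l` splits.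
* `V2 F`: the group `Fˣ / squares`, as a vector space over `ZMod 2`; `v2 a` the class of `a`.
* `oL c S`: the parities of the orders outside `S`. `VA c`: the classes of square norm. `VL c S`: the classes whose Kummer character is trivial
  on all decomposition groups over `S`. `Ig c S`: the space of the possible parities. `AT`, `IT`: the parts supported over `T`.
* `AdmC c S f`: admissible finite sets of primes (one `P` for the pair `τ P, τ² P`). `gv c P`: the indicator of `{τ P, τ² P}` (`0` if `τ P = P`).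
  `nrI`: the norm of an element of `Ig`.
* `QC c S θ`: `θ` is an additive quadratic ray class character of modulus `mS S` of `c.F`, trivial on the ideals of `K`.
* `Ch K`, `Fib`, `LocInv`: the characters of order 3, the lifts, functions of the local types. `CoreSharp K`: the interface of chapter H88/WS.
-/

set_option autoImplicit false

open scoped NumberField Classical
open IsDedekindDomain H38.ML H63.MA

noncomputable section

namespace H48.T3

open H48.KV

/-- the sign `(-1)^a` -/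
def sg (a : ZMod 2) : ℝ := if a = 0 then 1 else -1

/-- `Fˣ` modulo squares -/
def V2 (F : Type) [Field F] : Type := Additive (Fˣ ⧸ (powMonoidHom 2 : Fˣ →* Fˣ).range)

instance (F : Type) [Field F] : AddCommGroup (V2 F) :=
  inferInstanceAs (AddCommGroup (Additive (Fˣ ⧸ (powMonoidHom 2 : Fˣ →* Fˣ).range)))

/-- the class of `a` -/
def v2 {F : Type} [Field F] (a : Fˣ) : V2 F := Additive.ofMul (QuotientGroup.mk a)

theorem v2_mul {F : Type} [Field F] (a b : Fˣ) : v2 (a * b) = v2 a + v2 b := rfl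

theorem v2_surj {F : Type} [Field F] (x : V2 F) : ∃ a : Fˣ, v2 a = x := by
  obtain ⟨a, ha⟩ := QuotientGroup.mk_surjective (Additive.toMul x)
  exact ⟨a, congrArg Additive.ofMul ha⟩

theorem v2_eq {F : Type} [Field F] {a b : Fˣ} : v2 a = v2 b ↔ ∃ c : Fˣ, a = b * c ^ 2 := by
  have h1 : v2 a = v2 b ↔ (QuotientGroup.mk a : Fˣ ⧸ (powMonoidHom 2 : Fˣ →* Fˣ).range) =
      QuotientGroup.mk b := ⟨fun h => congrArg Additive.toMul h, fun h => congrArg Additive.ofMul h⟩
  rw [h1, eq_comm, QuotientGroup.eq]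
  constructor
  · rintro ⟨c, hc⟩
    refine ⟨c, ?_⟩
    have h2 : c ^ 2 = b⁻¹ * a := hc
    rw [h2, mul_inv_cancel_left]
  · rintro ⟨c, hc⟩
    refine ⟨c, ?_⟩
    change c ^ 2 = b⁻¹ * a
    rw [hc, inv_mul_cancel_left]

theorem v2_two {F : Type} [Field F] (x : V2 F) : 2 • x = 0 := by
  obtain ⟨a, rfl⟩ := v2_surj x
  rw [two_nsmul, ← v2_mul]
  have h : v2 (a * a) = v2 (1 : Fˣ) := v2_eq.2 ⟨a, by rw [one_mul, sq]⟩
  rw [h]
  rfl

instance (F : Type) [Field F] : Module (ZMod 2) (V2 F) := AddCommGroup.zmodModule v2_two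

/-- a cyclic cubic extension of `K` in `QBar` with a generator of its Galois group -/
structure Cub (K : IntermediateField ℚ QBar) where
  F : IntermediateField K QBar
  deg : Module.finrank K F = 3
  gal : IsGalois K F
  τ : F ≃ₐ[K] F
  τ1 : τ ≠ 1

variable {K : IntermediateField ℚ QBar} [NumberField K]

instance (c : Cub K) : FiniteDimensional K c.F :=
  Module.finite_of_finrank_pos (by rw [c.deg]; norm_num)

instance (c : Cub K) : NumberField c.F := NumberField.of_module_finite K c.F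

instance (c : Cub K) : IsGalois K c.F := c.gal

/-- the modulus -/
def mS (S : Finset (Pl K)) : Ideal (𝓞 K) := Ideal.span {8} * ∏ v ∈ S, v.asIdeal

/-- `P` lies over `S` -/
def OvS (c : Cub K) (S : Finset (Pl K)) (P : Pl c.F) : Prop := ∃ l ∈ S, Over P l

/-- `l` splits in `c.F` -/
def Spc (c : Cub K) (l : Pl K) : Prop := ∃ P : Pl c.F, Over P l ∧ tp c.τ P ≠ P

/-- admissible sets of primes of `c.F` -/
def AdmC (c : Cub K) (S : Finset (Pl K)) (f : Finset (Pl c.F)) : Prop :=
  ∀ P ∈ f, ¬ OvS c S P ∧ tp c.τ P ≠ P ∧ tp c.τ P ∉ f ∧ tp c.τ (tp c.τ P) ∉ f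

/-- the indicator of `{τ P, τ² P}` if `τ P ≠ P` and `P` is not over `S` -/
def gv (c : Cub K) (S : Finset (Pl K)) (P : Pl c.F) : Pl c.F → ZMod 2 := fun R =>
  if ¬ OvS c S P ∧ tp c.τ P ≠ P ∧ (R = tp c.τ P ∨ R = tp c.τ (tp c.τ P)) then 1 else 0

/-- the parities of the orders outside `S` -/
def oF (c : Cub K) (S : Finset (Pl K)) (a : c.Fˣ) : Pl c.F → ZMod 2 := fun P =>
  if OvS c S P then 0 else (ord P a : ZMod 2)

/-- the possible parities -/
def Ig (c : Cub K) (S : Finset (Pl K)) : Submodule (ZMod 2) (Pl c.F → ZMod 2) where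
  carrier := {g | (Function.support g).Finite ∧ (∀ P, OvS c S P → g P = 0) ∧
    ∀ P, g P + g (tp c.τ P) + g (tp c.τ (tp c.τ P)) = 0}
  add_mem' := by
    intro g g' hg hg'
    refine ⟨(hg.1.union hg'.1).subset (Function.support_add g g'), fun P hP => ?_, fun P => ?_⟩
    · rw [Pi.add_apply, hg.2.1 P hP, hg'.2.1 P hP, add_zero]
    · have h1 := hg.2.2 P
      have h2 := hg'.2.2 P
      simp only [Pi.add_apply]
      calc _ = (g P + g (tp c.τ P) + g (tp c.τ (tp c.τ P))) +
          (g' P + g' (tp c.τ P) + g' (tp c.τ (tp c.τ P))) := by ring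
        _ = 0 := by rw [h1, h2, add_zero]
  zero_mem' := ⟨by simp, fun _ _ => rfl, fun _ => by simp⟩
  smul_mem' := by
    intro r g hg
    refine ⟨hg.1.subset (Function.support_const_smul_subset r g), fun P hP => ?_, fun P => ?_⟩
    · rw [Pi.smul_apply, hg.2.1 P hP, smul_zero]
    · simp only [Pi.smul_apply, ← smul_add]
      rw [hg.2.2 P, smul_zero]

/-- the Kummer character of `a` is trivial on all decomposition groups over `S` -/
def LTr (c : Cub K) (S : Finset (Pl K)) (a : c.Fˣ) : Prop :=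
  ∀ (𝔓 : Ideal (𝓞 QBar)), 𝔓.IsPrime → (∃ v ∈ S, 𝔓.under (𝓞 K) = v.asIdeal) →
    ∀ σ : Gal(QBar/c.F), (∀ x : 𝓞 QBar, (σ.restrictScalars K : Gal(QBar/K)) • x ∈ 𝔓 ↔ x ∈ 𝔓) →
      kk 2 (-1 : c.F) a σ = 0

/-- the norm of a family of parities -/
def nrI (c : Cub K) (g : Pl c.F → ZMod 2) : ℝ :=
  ∏ᶠ P ∈ {P : Pl c.F | g P = 0 ∧ g (tp c.τ P) = 1}, (nm P : ℝ)

/-- `θ` is an additive quadratic ray class character of modulus `mS S` of `c.F` which is trivial on the ideals of `K` -/
structure QC (c : Cub K) (S : Finset (Pl K)) (θ : Pl c.F → ZMod 2) : Prop where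
  ray : IsRay 2 (H57.LI.md (mS S) c.F) θ
  tri : ∀ P : Pl c.F, θ P + θ (tp c.τ P) + θ (tp c.τ (tp c.τ P)) = 0

/-- the surjective characters of order 3 of finite type -/
def Ch (K : IntermediateField ℚ QBar) [NumberField K] :
    Set (Gal(QBar/K) →* Multiplicative (ZMod 3)) :=
  {χ | FT χ ∧ Function.Surjective χ}

/-- the surjective lifts `φ` of `χ` with `ds φ = d` for which the product of the norms of the primes outside `S` at which `φ` is ramified
with inertia group mapped to `V` is at most `Y` -/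
def Fib {G : Type} [Group G] (k : KV G) (Q : DP K QBar) (S : Finset (Pl K))
    (ds : (Gal(QBar/K) →* G) → ℕ) (χ : Gal(QBar/K) →* Multiplicative (ZMod 3)) (d : ℕ) (Y : ℝ) :
    Set (Gal(QBar/K) →* G) :=
  {φ | FT φ ∧ Function.Surjective φ ∧ k.pi.comp φ = χ ∧ ds φ = d ∧
    ∀ q : Finset (Pl K), (∀ l ∈ q, l ∈ TV k Q S φ) → nr q ≤ Y}

/-- `ds φ` depends only on the restrictions of `φ` to the decomposition groups at the primes of `S`, up to conjugation at every prime -/
def LocInv {G : Type} [Group G] (Q : DP K QBar) (S : Finset (Pl K))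
    (ds : (Gal(QBar/K) →* G) → ℕ) : Prop :=
  ∀ φ φ' : Gal(QBar/K) →* G, Function.Surjective φ → FT φ → Function.Surjective φ' → FT φ' →
    (∀ v ∈ S, ∃ δ : G, ∀ σ ∈ dec (K := K) (Q.P v), φ σ = δ * φ' σ * δ⁻¹) → ds φ = ds φ'

/-- (W1#), chapter H88/WS: the core theorem of W1 with a logarithmic loss smaller than `(log R)^2` -/
def CoreSharp (K : IntermediateField ℚ QBar) [NumberField K] : Prop :=
  ∀ (M : ℕ) (C₀ : ℝ), M ≠ 0 → 6 ∣ M → ∃ C δ : ℝ, 0 < δ ∧ ∀ R : ℝ, 1 ≤ R →
    ∀ S : Finset (𝓞 K × 𝓞 K × QBar),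
      (∀ x ∈ S, H38.WM.Dat K M C₀ R x.1 x.2.1 x.2.2) →
      (∀ u v a b, (u, v, a) ∈ S → (u, v, b) ∈ S →
        (∃ c ∈ H38.WM.Fd K u v, a = b * c ^ 2) → a = b) →
      (S.card : ℝ) ≤ C * R * (1 + Real.log R) ^ (2 - δ)

end H48.T3
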