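import Pool.Agent.H36.QA.ADefs
import Pool.Agent.H48.T3.Defs

/-!
# [H48 T3 TCX] small facts for the assembly of T3
-/

set_option autoImplicit false

open NumberField H38.ML H63.MA

noncomputable section

namespace H48.T3

theorem tc_i (K : Type) [Field K] [NumberField K] (i : K) (hi : i ^ 2 = -1) :
    IsTotallyComplex K := by
  refine ⟨fun w => ?_⟩
  rw [← InfinitePlace.not_isReal_iff_isComplex]
  intro hw
  have h1 := congrArg (InfinitePlace.embedding_of_isReal hw) hi
  rw [map_pow, map_neg, map_one] at h1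
  nlinarith [sq_nonneg (InfinitePlace.embedding_of_isReal hw i)]

theorem mS_ne {K : IntermediateField ℚ QBar} [NumberField K] (S : Finset (Pl K)) : mS S ≠ ⊥ := by
  unfold mS
  rw [← Ideal.zero_eq_bot]
  refine mul_ne_zero ?_ (Finset.prod_ne_zero_iff.2 fun v _ => v.ne_bot)
  rw [Ideal.zero_eq_bot, Ne, Ideal.span_singleton_eq_bot]
  norm_num

theorem i_of_12 {K : Type} [Field K] {ζ : K} (hζ : IsPrimitiveRoot ζ 12) :
    IsPrimitiveRoot (ζ ^ 4) 3 ∧ (ζ ^ 3) ^ 2 = -1 := by
  refine ⟨hζ.pow (by norm_num) (by norm_num), ?_⟩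
  have h : IsPrimitiveRoot (ζ ^ 6) 2 := hζ.pow (by norm_num) (by norm_num)
  rw [← pow_mul]
  exact h.eq_neg_one_of_two_right

end H48.T3
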