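import Pool.Agent.H48.T3.TOv

/-!
# [H48 T3 TIN] the cardinality of `IT`, 80-120 lines. File Pool/Agent/H48/T3/TIn.lean

`g ∈ IT c S T` (`mem_IT`): finite support, `g P = 0` for `P` over `S` and for `P` not over `T`, `g P + g (τ P) + g (τ² P) = 0`. For `P` over `l ∈ T`, `l ∉ S`: if `¬ Spc c l` then `τ P = P` (`ov_card`), so `3 g P = g P = 0`. If `Spc c l` choose a prime `P_l` over `l`: the primes over `l` are `P_l, τ P_l, τ² P_l`, all different, and `g` is
determined by `g (P_l)`, `g (τ P_l)`, which can be chosen arbitrarily. So `g ↦ (l ↦ (g (P_l), g (τ P_l)))` is a bijection from `IT c S T` onto the functions from `{l ∈ T \ S : Spc c l}` to `ZMod 2 × ZMod 2` (inverse: `g R = x_l`, `y_l`, `x_l + y_l`, for `R = P_l, τ P_l, τ² P_l`; the third condition holds at all three primes of the orbit). `Nat.card_fun`.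
Every prime `R` lies over exactly one `l` (`exists_below`); primes in the same orbit of `τ` lie over the same `l` (`tp_over`).
-/

set_option autoImplicit false

open scoped NumberField Classical
open IsDedekindDomain H38.ML H63.MA

noncomputable section

namespace H48.T3

open H48.KV

variable {K : IntermediateField ℚ QBar} [NumberField K]

section aux

variable {X Y : Type}

private def tinA (t : X → X) (π : X → Y) (U : Finset Y) : Set (X → ZMod 2) :=
  {g | (∀ x, π x ∉ U → g x = 0) ∧ ∀ x, g x + g (t x) + g (t (t x)) = 0}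

private def tinB (t : X → X) (σ : Y → X) (π : X → Y) (U : Finset Y)
    (h : U → ZMod 2 × ZMod 2) (x : X) : ZMod 2 :=
  if hx : π x ∈ U then
    (if x = σ (π x) then (h ⟨π x, hx⟩).1 else
      if x = t (σ (π x)) then (h ⟨π x, hx⟩).2 else (h ⟨π x, hx⟩).1 + (h ⟨π x, hx⟩).2)
  else 0

private theorem tin_z (a b : ZMod 2) (h : a + b + 0 = 0) : a = b := by
  revert a b; decide

private theorem tin_bij (t : X → X) (π : X → Y) (σ : Y → X) (h3 : ∀ x, t (t (t x)) = x)
    (hπ : ∀ x, π (t x) = π x) (hσ : ∀ y, π (σ y) = y)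
    (htr : ∀ x, x = σ (π x) ∨ x = t (σ (π x)) ∨ x = t (t (σ (π x)))) (U : Finset Y)
    (hU : ∀ y ∈ U, t (σ y) ≠ σ y) :
    Function.Bijective (fun (g : tinA t π U) (l : U) => ((g.1 (σ l), g.1 (t (σ l))) : ZMod 2 × ZMod 2)) := by
  constructor
  · rintro ⟨g, hg⟩ ⟨g', hg'⟩ hgg
    apply Subtype.ext
    funext x
    change g x = g' x
    by_cases hx : π x ∈ U
    · have h1 := congrFun hgg ⟨π x, hx⟩
      simp only [Prod.mk.injEq] at h1
      obtain ⟨h1, h2⟩ := h1
      have h4 := hg.2 (σ (π x))
      have h5 := hg'.2 (σ (π x))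
      rcases htr x with h | h | h
      · rw [h, h1]
      · rw [h, h2]
      · rw [h]
        rw [h1, h2] at h4
        exact add_left_cancel (h4.trans h5.symm)
    · rw [hg.1 x hx, hg'.1 x hx]
  · intro h
    have e1 : ∀ y (hy : y ∈ U), tinB t σ π U h (σ y) = (h ⟨y, hy⟩).1 := by
      intro y hy
      unfold tinB
      have : π (σ y) ∈ U := by rw [hσ]; exact hy
      rw [dif_pos this, if_pos (by rw [hσ])]
      congr 3
      exact hσ y
    have e2 : ∀ y (hy : y ∈ U), tinB t σ π U h (t (σ y)) = (h ⟨y, hy⟩).2 := by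
      intro y hy
      unfold tinB
      have hp : π (t (σ y)) = y := by rw [hπ, hσ]
      have : π (t (σ y)) ∈ U := by rw [hp]; exact hy
      rw [dif_pos this, if_neg (by rw [hp]; exact hU y hy), if_pos (by rw [hp])]
      congr 3
    have e3 : ∀ y (hy : y ∈ U), tinB t σ π U h (t (t (σ y))) = (h ⟨y, hy⟩).1 + (h ⟨y, hy⟩).2 := by
      intro y hy
      unfold tinB
      have hp : π (t (t (σ y))) = y := by rw [hπ, hπ, hσ]
      have : π (t (t (σ y))) ∈ U := by rw [hp]; exact hy
      rw [dif_pos this, if_neg, if_neg]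
      · have hq : (⟨π (t (t (σ y))), this⟩ : U) = ⟨y, hy⟩ := Subtype.ext hp
        rw [hq]
      · rw [hp]
        intro h6
        have h7 := congrArg (fun z => t (t z)) h6
        simp only [h3] at h7
        exact hU y hy h7
      · rw [hp]
        intro h6
        have h7 := congrArg t h6
        rw [h3] at h7
        exact hU y hy h7.symm
    refine ⟨⟨tinB t σ π U h, ?_, ?_⟩, ?_⟩
    · intro x hx
      unfold tinB
      rw [dif_neg hx]
    · intro x
      by_cases hx : π x ∈ U
      · have a1 := e1 _ hx
        have a2 := e2 _ hx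
        have a3 := e3 _ hx
        have hz : ∀ a b : ZMod 2, a + b + (a + b) = 0 ∧ b + (a + b) + a = 0 ∧ a + b + a + b = 0 := by
          decide
        rcases htr x with h6 | h6 | h6
        · rw [← h6] at a1 a2 a3
          rw [a1, a2, a3]
          exact (hz _ _).1
        · have a4 : t x = t (t (σ (π x))) := congrArg t h6
          have a5 : t (t x) = σ (π x) := by rw [a4, h3]
          rw [← h6] at a2
          rw [a5, a4, a1, a2, a3]
          exact (hz _ _).2.1
        · have a4 : t x = σ (π x) := by
            have := congrArg t h6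
            rw [h3] at this
            exact this
          rw [← h6] at a3
          rw [a4, a1, a2, a3]
          exact (hz _ _).2.2
      · have b1 : ∀ z, π z = π x → tinB t σ π U h z = 0 := by
          intro z hz
          unfold tinB
          rw [dif_neg (by rw [hz]; exact hx)]
        rw [b1 x rfl, b1 (t x) (hπ x), b1 (t (t x)) (by rw [hπ, hπ])]
        rfl
    · funext l
      exact Prod.ext (e1 l.1 l.2) (e2 l.1 l.2)

end aux

theorem tin (c : Cub K) (S T : Finset (Pl K)) : Finite (IT c S T) ∧
    Nat.card (IT c S T) = 4 ^ (T.filter fun l => l ∉ S ∧ Spc c l).card := by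
  choose π hπO using fun P : Pl c.F => exists_below (K := K) P
  choose σ hσO using fun l : Pl K => exists_over (L := c.F) l
  have hun : ∀ (P : Pl c.F) (l : Pl K), Over P l → π P = l := fun P l h => below_unique (hπO P) h
  have hπ : ∀ P, π (tp c.τ P) = π P := fun P => hun _ _ ((tp_over c.τ P _).2 (hπO P))
  have hσ : ∀ l, π (σ l) = l := fun l => hun _ _ (hσO l)
  have htr : ∀ P, P = σ (π P) ∨ P = tp c.τ (σ (π P)) ∨ P = tp c.τ (tp c.τ (σ (π P))) := fun P =>
    cb_tr c (σ (π P)) P (π P) (hσO _) (hπO P)
  have hov : ∀ (R : Finset (Pl K)) (P : Pl c.F), OvS c R P ↔ π P ∈ R := by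
    intro R P
    constructor
    · rintro ⟨l, hl, h⟩
      rw [hun P l h]
      exact hl
    · intro h
      exact ⟨π P, h, hπO P⟩
  have hcube := cb_pcube c
  have hsp : ∀ l, Spc c l → tp c.τ (σ l) ≠ σ l := by
    rintro l ⟨P, hP, hne⟩ he
    apply hne
    have hl := hun P l hP
    rcases htr P with h | h | h
    · rw [h, hl, he]
    · rw [h, hl, he, he]
    · rw [h, hl, he, he, he]
  set U : Finset (Pl K) := T.filter fun l => l ∉ S ∧ Spc c l with hUdef
  have hU : ∀ y ∈ U, tp c.τ (σ y) ≠ σ y := by
    intro y hy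
    exact hsp y (Finset.mem_filter.1 hy).2.2
  have hset : ((IT c S T : Submodule (ZMod 2) (Pl c.F → ZMod 2)) : Set (Pl c.F → ZMod 2)) =
      tinA (tp c.τ) π U := by
    ext g
    rw [SetLike.mem_coe, mem_IT]
    constructor
    · rintro ⟨⟨h1, h2, h3⟩, h4⟩
      refine ⟨fun x hx => ?_, h3⟩
      by_cases hT : π x ∈ T
      · by_cases hS : π x ∈ S
        · exact h2 x ((hov S x).2 hS)
        · have hns : ¬ Spc c (π x) := fun h => hx (Finset.mem_filter.2 ⟨hT, hS, h⟩)
          have he : tp c.τ x = x := by
            by_contra hne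
            exact hns ⟨x, hπO x, hne⟩
          have h5 := h3 x
          rw [he, he] at h5
          generalize g x = a at h5
          revert a
          decide
      · exact h4 x (fun h => hT ((hov T x).1 h))
    · rintro ⟨h1, h2⟩
      refine ⟨⟨?_, fun P hP => h1 P ?_, h2⟩, fun P hP => h1 P ?_⟩
      · refine ((U.biUnion fun l => {σ l, tp c.τ (σ l), tp c.τ (tp c.τ (σ l))} :
          Finset (Pl c.F)).finite_toSet).subset ?_
        intro x hx
        have hxU : π x ∈ U := by
          by_contra h
          exact hx (h1 x h)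
        rw [Finset.mem_coe, Finset.mem_biUnion]
        refine ⟨π x, hxU, ?_⟩
        rw [Finset.mem_insert, Finset.mem_insert, Finset.mem_singleton]
        exact htr x
      · intro h
        exact (Finset.mem_filter.1 h).2.1 ((hov S P).1 hP)
      · intro h
        exact hP ((hov T P).2 (Finset.mem_filter.1 h).1)
  have hbij := tin_bij (tp c.τ) π σ hcube hπ hσ htr U hU
  have hfin : Finite (tinA (tp c.τ) π U) := Finite.of_injective _ hbij.1
  have hcard : Nat.card (tinA (tp c.τ) π U) = 4 ^ U.card := by
    rw [Nat.card_eq_of_bijective _ hbij, Nat.card_fun, Nat.card_prod, Nat.card_zmod,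
      Nat.card_eq_fintype_card, Fintype.card_coe]
  have he : (IT c S T : Type) = (tinA (tp c.τ) π U : Type) := congrArg Set.Elem hset
  rw [he]
  exact ⟨hfin, hcard⟩

end H48.T3
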