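import Pool.Agent.H36.QA.WI1
import Pool.Agent.H38.ML.Spec

/-!
# [H48 T3 BET] `ind(A_4) = 2`, `beta_K(A_4) = 3` for every `K` with a primitive cube root of unity
-/

set_option autoImplicit false

open H38.ML

namespace H48.T3

theorem ind_A4 (g : Equiv.Perm (Fin 4)) (hg : g ∈ alternatingGroup (Fin 4)) (h1 : g ≠ 1) :
    Spec.ind g = 2 :=
  H36.QA.ind_of_supp g h1 (Equiv.Perm.mem_alternatingGroup.1 hg)
    (by simpa using Finset.card_le_univ g.support)

/-- a double transposition -/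
def bd : Equiv.Perm (Fin 4) := Equiv.swap 0 1 * Equiv.swap 2 3

/-- a 3-cycle -/
def bc : Equiv.Perm (Fin 4) := Equiv.swap 0 1 * Equiv.swap 1 2

theorem bd_mem : bd ∈ alternatingGroup (Fin 4) := by
  rw [Equiv.Perm.mem_alternatingGroup]; decide

theorem bc_mem : bc ∈ alternatingGroup (Fin 4) := by
  rw [Equiv.Perm.mem_alternatingGroup]; decide

theorem indG_A4 : Spec.indG (alternatingGroup (Fin 4)) = 2 := by
  have h : {k | ∃ g ∈ alternatingGroup (Fin 4), g ≠ 1 ∧ Spec.ind g = k} = {2} := by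
    ext k
    simp only [Set.mem_ofPred_eq, Set.mem_singleton_iff]
    constructor
    · rintro ⟨g, hg, h1, rfl⟩
      exact ind_A4 g hg h1
    · rintro rfl
      exact ⟨bc, bc_mem, by decide, ind_A4 bc bc_mem (by decide)⟩
  unfold Spec.indG
  rw [h]
  exact csInf_singleton 2

/-- conjugacy by an even permutation -/
def Cj (g h : Equiv.Perm (Fin 4)) : Prop :=
  ∃ x : Equiv.Perm (Fin 4), Equiv.Perm.sign x = 1 ∧ x * g = h * x

instance (g h : Equiv.Perm (Fin 4)) : Decidable (Cj g h) := by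
  unfold Cj; infer_instance

theorem cj_cases : ∀ g : Equiv.Perm (Fin 4), Equiv.Perm.sign g = 1 → g ≠ 1 →
    (g ^ 2 = 1 ∧ Cj bd g) ∨ (g ^ 3 = 1 ∧ (Cj bc g ∨ Cj bc⁻¹ g)) := by
  decide

theorem cj_no : ¬ Cj bc bc⁻¹ := by decide

theorem cj_symm {g h : Equiv.Perm (Fin 4)} (H : Cj g h) : Cj h g := by
  obtain ⟨x, hx, h1⟩ := H
  refine ⟨x⁻¹, by rw [Equiv.Perm.sign_inv, hx], ?_⟩
  rw [inv_mul_eq_iff_eq_mul, ← mul_assoc, h1, mul_inv_cancel_right]

theorem cj_trans {f g h : Equiv.Perm (Fin 4)} (H : Cj f g) (H' : Cj g h) : Cj f h := by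
  obtain ⟨x, hx, h1⟩ := H
  obtain ⟨y, hy, h2⟩ := H'
  refine ⟨y * x, by rw [map_mul, hx, hy, one_mul], ?_⟩
  rw [mul_assoc, h1, ← mul_assoc, h2, mul_assoc]

open Classical in
/-- the class of an element -/
noncomputable def fA (g : Equiv.Perm (Fin 4)) : Fin 3 :=
  if Cj bd g then 0 else if Cj bc g then 1 else 2

theorem fA_congr {g h : Equiv.Perm (Fin 4)} (H : Cj g h) : fA g = fA h := by
  have h1 : Cj bd g ↔ Cj bd h := ⟨fun h => cj_trans h H, fun h => cj_trans h (cj_symm H)⟩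
  have h2 : Cj bc g ↔ Cj bc h := ⟨fun h => cj_trans h H, fun h => cj_trans h (cj_symm H)⟩
  unfold fA
  rw [if_congr h1 rfl (if_congr h2 rfl rfl)]

theorem fA_inj {g h : Equiv.Perm (Fin 4)} (hg : Equiv.Perm.sign g = 1) (hg1 : g ≠ 1)
    (hh : Equiv.Perm.sign h = 1) (hh1 : h ≠ 1) (H : fA g = fA h) : Cj g h := by
  have key : ∀ g : Equiv.Perm (Fin 4), Equiv.Perm.sign g = 1 → g ≠ 1 →
      ¬ Cj bd g → ¬ Cj bc g → Cj bc⁻¹ g := by
    intro g h1 h2 h3 h4
    rcases cj_cases g h1 h2 with h | ⟨-, h | h⟩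
    · exact absurd h.2 h3
    · exact absurd h h4
    · exact h
  unfold fA at H
  by_cases h1 : Cj bd g
  · by_cases h2 : Cj bd h
    · exact cj_trans (cj_symm h1) h2
    · rw [if_pos h1, if_neg h2] at H
      split_ifs at H <;> exact absurd H (by decide)
  · by_cases h2 : Cj bd h
    · rw [if_neg h1, if_pos h2] at H
      split_ifs at H <;> exact absurd H (by decide)
    · rw [if_neg h1, if_neg h2] at H
      by_cases h3 : Cj bc g
      · by_cases h4 : Cj bc h
        · exact cj_trans (cj_symm h3) h4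
        · rw [if_pos h3, if_neg h4] at H
          exact absurd H (by decide)
      · by_cases h4 : Cj bc h
        · rw [if_neg h3, if_pos h4] at H
          exact absurd H (by decide)
        · exact cj_trans (cj_symm (key g hg hg1 h1 h3)) (key h hh hh1 h2 h4)

theorem kconj_iff {K Ω : Type} [Field K] [Field Ω] [CharZero Ω] [Algebra K Ω] {ω : K}
    (hω : IsPrimitiveRoot ω 3) (g h : alternatingGroup (Fin 4)) (hg : g ≠ 1) :
    Spec.KConj K Ω (alternatingGroup (Fin 4)) g h ↔ Cj g h := by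
  have hg' : (g : Equiv.Perm (Fin 4)) ≠ 1 := fun h => hg (Subtype.ext h)
  have hc : Nat.card (alternatingGroup (Fin 4)) = 12 := by
    have := nat_card_alternatingGroup (α := Fin 4)
    rw [this, Nat.card_eq_fintype_card, Fintype.card_fin]
    rfl
  constructor
  · rintro ⟨σ, a, x, h1, h2⟩
    rw [hc] at h1
    have hΩ : IsPrimitiveRoot (algebraMap K Ω ω) 3 :=
      hω.map_of_injective (algebraMap K Ω).injective
    have h3 : algebraMap K Ω ω = algebraMap K Ω ω ^ a := by
      have := h1 (algebraMap K Ω ω) (by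
        rw [show (12 : ℕ) = 3 * 4 from rfl, pow_mul, hΩ.pow_eq_one, one_pow])
      rwa [AlgEquiv.commutes] at this
    have h4 : (-1 : Ω) = (-1) ^ a := by
      have := h1 (-1) (by norm_num)
      rwa [map_neg, map_one] at this
    have h5 : a % 3 = 1 := by
      have h6 : algebraMap K Ω ω ^ (a % 3) = algebraMap K Ω ω ^ 1 := by
        rw [pow_one]
        conv_rhs => rw [h3, ← Nat.div_add_mod a 3, pow_add, pow_mul, hΩ.pow_eq_one, one_pow,
          one_mul]
      exact hΩ.pow_inj (Nat.mod_lt _ (by norm_num)) (by norm_num) h6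
    have h6 : a % 2 = 1 := by
      rcases Nat.mod_two_eq_zero_or_one a with h | h
      · exfalso
        rw [Even.neg_one_pow (Nat.even_iff.2 h)] at h4
        have : (2 : Ω) = 0 := by linear_combination -h4
        exact two_ne_zero this
      · exact h
    have h7 : (g : Equiv.Perm (Fin 4)) ^ a = g := by
      rcases cj_cases g (Equiv.Perm.mem_alternatingGroup.1 g.2) hg' with h | h
      · rw [← Nat.div_add_mod a 2, pow_add, pow_mul, h.1, one_pow, one_mul, h6, pow_one]
      · rw [← Nat.div_add_mod a 3, pow_add, pow_mul, h.1, one_pow, one_mul, h5, pow_one]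
    refine ⟨x, Equiv.Perm.mem_alternatingGroup.1 x.2, ?_⟩
    have h8 := congrArg (Subtype.val : alternatingGroup (Fin 4) → Equiv.Perm (Fin 4)) h2
    rw [Subgroup.coe_mul, Subgroup.coe_mul, Subgroup.coe_pow, Subgroup.coe_inv, h7] at h8
    rw [h8, inv_mul_cancel_right]
  · rintro ⟨x, hx, h1⟩
    refine ⟨1, 1, ⟨x, Equiv.Perm.mem_alternatingGroup.2 hx⟩, fun ζ _ => by rw [pow_one]; rfl, ?_⟩
    apply Subtype.ext
    rw [Subgroup.coe_mul, Subgroup.coe_mul, Subgroup.coe_pow, Subgroup.coe_inv, pow_one]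
    exact (mul_inv_eq_of_eq_mul h1).symm

theorem beta_A4 {K Ω : Type} [Field K] [Field Ω] [CharZero Ω] [Algebra K Ω] {ω : K}
    (hω : IsPrimitiveRoot ω 3) : Spec.betaAll K Ω (alternatingGroup (Fin 4)) = 3 := by
  let T := {g : alternatingGroup (Fin 4) //
    g ≠ 1 ∧ Spec.ind (g : Equiv.Perm (Fin 4)) = Spec.indG (alternatingGroup (Fin 4))}
  let R : T → T → Prop := fun g h => Spec.KConj K Ω (alternatingGroup (Fin 4)) g.1 h.1
  have hne : ∀ g : T, ((g.1 : alternatingGroup (Fin 4)) : Equiv.Perm (Fin 4)) ≠ 1 :=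
    fun g h => g.2.1 (Subtype.ext h)
  have hsg : ∀ g : T, Equiv.Perm.sign ((g.1 : alternatingGroup (Fin 4)) : Equiv.Perm (Fin 4)) = 1 :=
    fun g => Equiv.Perm.mem_alternatingGroup.1 g.1.2
  have hmk : ∀ g : Equiv.Perm (Fin 4), (hg : g ∈ alternatingGroup (Fin 4)) → g ≠ 1 →
      ∃ t : T, ((t.1 : alternatingGroup (Fin 4)) : Equiv.Perm (Fin 4)) = g := by
    intro g hg h1
    exact ⟨⟨⟨g, hg⟩, fun h => h1 (congrArg Subtype.val h), by
      rw [indG_A4]; exact ind_A4 g hg h1⟩, rfl⟩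
  let F : Quot R → Fin 3 := Quot.lift (fun g => fA (g.1 : Equiv.Perm (Fin 4)))
    fun g h hgh => fA_congr ((kconj_iff hω g.1 h.1 g.2.1).1 hgh)
  have hF : Function.Bijective F := by
    constructor
    · intro a b
      obtain ⟨g, rfl⟩ := Quot.exists_rep a
      obtain ⟨h, rfl⟩ := Quot.exists_rep b
      intro hab
      exact Quot.sound ((kconj_iff hω g.1 h.1 g.2.1).2
        (fA_inj (hsg g) (hne g) (hsg h) (hne h) hab))
    · intro j
      have h0 : ¬ Cj bd bc := by decide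
      have h1 : ¬ Cj bd bc⁻¹ := by decide
      have hr : ∀ g, Cj g g := fun g => ⟨1, by simp, by simp⟩
      fin_cases j
      · obtain ⟨t, ht⟩ := hmk bd bd_mem (by decide)
        refine ⟨Quot.mk _ t, ?_⟩
        change fA _ = 0
        rw [ht, fA, if_pos (hr bd)]
      · obtain ⟨t, ht⟩ := hmk bc bc_mem (by decide)
        refine ⟨Quot.mk _ t, ?_⟩
        change fA _ = 1
        rw [ht, fA, if_neg h0, if_pos (hr bc)]
      · obtain ⟨t, ht⟩ := hmk bc⁻¹ (inv_mem bc_mem) (by decide)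
        refine ⟨Quot.mk _ t, ?_⟩
        change fA _ = 2
        rw [ht, fA, if_neg h1, if_neg cj_no]
  change Nat.card (Quot R) = 3
  rw [Nat.card_congr (Equiv.ofBijective F hF), Nat.card_eq_fintype_card, Fintype.card_fin]

end H48.T3
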