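import Pool.Agent.H38.EN.Fin
import Pool.Agent.H48.T3.Bet
import Pool.Agent.H48.T3.Tcx
import Pool.Agent.H88.WS.Cor
import Pool.Agent.H37.DG.Asm
import Pool.Agent.H57.LI.Fin
import Pool.Agent.H1.LS4.Li1
import Pool.Agent.H1.LS4.Cor

/-!
# T3: Malle's conjecture for quartic `A_4`-fields over every number field containing `ζ_12` (assembly)
-/

set_option autoImplicit false

open NumberField H38.ML H63.MA

noncomputable section

namespace H48.T3

/-- `CoreSharp` for every number field with a primitive cube root of unity -/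
theorem coreSharp (K : IntermediateField ℚ QBar) [NumberField K] (ζ : K)
    (hζ : IsPrimitiveRoot ζ 3) : CoreSharp K :=
  H88.WS.core_sharp_deg K ζ hζ (H37.DG.deg2 K (H88.WS.com0 K))

/-- the large sieve statements (LI1), (LI2) -/
theorem li12 (K : IntermediateField ℚ QBar) [NumberField K] (hi : MOne 2 K)
    (S : Finset (Pl K)) : H57.LI.LI1 K QBar (mS S) ∧ H57.LI.LI2 K QBar (mS S) := by
  obtain ⟨i, hi⟩ := hi
  have h1 : H36.QA.TC K (Module.finrank ℚ K) := ⟨tc_i K i hi, rfl⟩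
  have h2 : 0 < Module.finrank ℚ K := Module.finrank_pos
  have h3 := H1.LS4.li1 (Ω := QBar) h2 h1 (mS S) (mS_ne S)
  exact ⟨h3, H57.LI.li2 K QBar (mS S) (H1.LS4.corr h2 h1 (mS S) (mS_ne S)) h3⟩

theorem t3_main (K : IntermediateField ℚ QBar) [NumberField K] (ζ : K)
    (hζ : IsPrimitiveRoot ζ 12) :
    Spec.indG (alternatingGroup (Fin 4)) = 2 ∧
    Spec.betaAll K QBar (alternatingGroup (Fin 4)) = 3 ∧
    (∀ B : ℝ, Spec.nK K QBar (alternatingGroup (Fin 4)) B ≠ ⊤) ∧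
    ∃ C : ℝ, 0 < C ∧ Filter.Tendsto
      (fun B : ℝ => ((Spec.nK K QBar (alternatingGroup (Fin 4)) B).toNat : ℝ) /
        (B ^ (1 / (2 : ℝ)) * Real.log B ^ 2)) Filter.atTop (nhds C) := by
  obtain ⟨h1, h2⟩ := i_of_12 hζ
  have hi : MOne 2 K := ⟨ζ ^ 3, h2⟩
  obtain ⟨C, hC, k, hk, hlim⟩ := H38.EN.amain h1 hi (coreSharp K (ζ ^ 4) h1)
    (fun S => (li12 K hi S).1) (fun S => (li12 K hi S).2)
  refine ⟨indG_A4, beta_A4 h1, fun B h => ENat.natCast_ne_top (k B) ((hk B).symm.trans h), C, hC,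
    hlim.congr fun B => ?_⟩
  have h : (Spec.nK K QBar (alternatingGroup (Fin 4)) B).toNat = k B :=
    (congrArg ENat.toNat (hk B)).trans (ENat.toNat_natCast _)
  rw [h]

end H48.T3
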