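import Pool.Agent.H48.KV.GrpB

/-!
# [H48 T3 GRD] the case `ker pi = V`, 80-130 lines, pure group theory. File Pool/Agent/H48/T3/GrD.lean

`k : KV G`, `hk : ∀ g, k.pi g = 1 → g ∈ k.V` (with `k.piV`: `ker pi = V`; so `G` is isomorphic to `A_4`).
* `sec_ex`: choose `g` with `k.pi g = ofAdd 1` (`k.sj`). `k.pi (g ^ 3) = 1`, so `g ^ 3 ∈ V`, and `g (g ^ 3) g⁻¹ = g ^ 3`, so `g ^ 3 = 1` by `kv_fix`. The homomorphism `ofAdd n ↦ g ^ n` (`zpowersHom`, `ZMod.lift`, or `MonoidHom` by hand with `ZMod.val`: `g ^ (a + b).val = g ^ (a.val + b.val)` because `g ^ 3 = 1`).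
* `hk_eqv`: `φ σ (φ' σ)⁻¹ ∈ V` iff `k.pi` of it is `1` (`hk`, `k.piV`).
* `hk_surj`: let `R` = range of `φ`, `x = φ σ ∈ V`, `x ≠ 1`, `g ∈ R` with `k.pi g ≠ 1`. Then `x, g x g⁻¹, g² x g⁻²` are in `R`, they are the three elements `≠ 1` of `V`: every `y ∈ V`, `y ≠ 1`, is one of them (compare `lam` values by `kv_one`, `kv_w`; see the proof of `kv_surj` in GrpB.lean, where this is done). So `V ≤ R`; for `y : G` choose `r ∈ R` with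
  `k.pi r = k.pi y`, then `y r⁻¹ ∈ V ≤ R`.
* `hk_free`: `z = δ'⁻¹ δ ∈ V` commutes with all `φ σ`; choose `σ` with `k.pi (φ σ) ≠ 1`: `(φ σ) z (φ σ)⁻¹ = z`, so `z = 1` by `kv_fix`.
* `hk_not`: the range of `σ ↦ δ (s (χ σ)) δ⁻¹` does not contain `k.w`: `k.pi (δ (s x) δ⁻¹) = x` (`k.piV`), so if it is `k.w` then `x = 1` (`k.piV`, `k.wV`) and the element is `1`; but `k.w ≠ 1` (`k.w1`).
-/

set_option autoImplicit false

noncomputable section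

namespace H48.T3

open H48.KV

variable {G : Type} [Group G] (k : KV G)

theorem sec_ex (hk : ∀ g, k.pi g = 1 → g ∈ k.V) :
    ∃ s : Multiplicative (ZMod 3) →* G, ∀ x, k.pi (s x) = x := by
  obtain ⟨g, hg⟩ := k.sj (Multiplicative.ofAdd 1)
  have hg1 : k.pi g ≠ 1 := by
    rw [hg]
    decide
  have hg3 : g ^ 3 = 1 := by
    apply kv_fix k hg1
    · apply hk
      rw [map_pow, hg]
      decide
    · group
  have hval : ∀ a b : ZMod 3, g ^ (a + b).val = g ^ a.val * g ^ b.val := by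
    intro a b
    rw [← pow_add, ZMod.val_add, ← pow_eq_pow_mod _ hg3]
  refine ⟨MonoidHom.mk' (fun x => g ^ (Multiplicative.toAdd x).val) ?_, ?_⟩
  · intro a b
    exact hval _ _
  · intro x
    show k.pi (g ^ (Multiplicative.toAdd x).val) = x
    rw [map_pow, hg]
    revert x
    decide

theorem hk_eqv (hk : ∀ g, k.pi g = 1 → g ∈ k.V) {H : Type} [Group H] (φ φ' : H →* G) :
    Eqv k φ φ' ↔ k.pi.comp φ = k.pi.comp φ' := by
  constructor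
  · intro h
    ext1 σ
    exact eqv_pi k h σ
  · intro h σ
    apply hk
    have h1 : k.pi (φ σ) = k.pi (φ' σ) := DFunLike.congr_fun h σ
    rw [map_mul, map_inv, h1, mul_inv_cancel]

theorem hk_surj (hk : ∀ g, k.pi g = 1 → g ∈ k.V) {H : Type} [Group H] (φ : H →* G)
    (hs : Function.Surjective (k.pi.comp φ)) {σ : H} (h1 : φ σ ∈ k.V) (h2 : φ σ ≠ 1) :
    Function.Surjective φ := by
  have hdec : ∀ g : G, ∃ v ∈ k.V, ∃ τ, g = v * φ τ := by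
    intro g
    obtain ⟨τ, hτ⟩ := hs (k.pi g)
    refine ⟨g * (φ τ)⁻¹, hk _ ?_, τ, ?_⟩
    · rw [MonoidHom.comp_apply] at hτ
      rw [map_mul, map_inv, hτ, mul_inv_cancel]
    · group
  have hV : ∀ x ∈ k.V, ∃ τ, φ τ = x := by
    intro x hx
    by_cases hx1 : x = 1
    · exact ⟨1, by rw [map_one, hx1]⟩
    obtain ⟨g₁, hg₁⟩ := kv_psi k hx hx1
    obtain ⟨g₀, hg₀⟩ := kv_psi k h1 h2
    obtain ⟨v, hv, τ, hτ⟩ := hdec (g₁⁻¹ * g₀)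
    have e1 : x = (g₁⁻¹ * g₀) * φ σ * (g₁⁻¹ * g₀)⁻¹ := by
      calc x = g₁⁻¹ * (g₁ * x * g₁⁻¹) * g₁ := by group
        _ = g₁⁻¹ * (g₀ * φ σ * g₀⁻¹) * g₁ := by rw [hg₁, hg₀]
        _ = (g₁⁻¹ * g₀) * φ σ * (g₁⁻¹ * g₀)⁻¹ := by group
    have hm : φ τ * φ σ * (φ τ)⁻¹ ∈ k.V := k.nV.conj_mem _ h1 _
    refine ⟨τ * σ * τ⁻¹, ?_⟩
    rw [map_mul, map_mul, map_inv, e1, hτ]
    have e2 : v * φ τ * φ σ * (v * φ τ)⁻¹ = v * (φ τ * φ σ * (φ τ)⁻¹) * v⁻¹ := by group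
    rw [e2, kv_comm k hv hm]
    group
  intro g
  obtain ⟨v, hv, τ, hτ⟩ := hdec g
  obtain ⟨τ', hτ'⟩ := hV v hv
  exact ⟨τ' * τ, by rw [map_mul, hτ', hτ]⟩

theorem hk_free {H : Type} [Group H] (φ : H →* G) (hs : Function.Surjective (k.pi.comp φ))
    {δ δ' : G} (hδ : δ ∈ k.V) (hδ' : δ' ∈ k.V)
    (h : ∀ σ, δ * φ σ * δ⁻¹ = δ' * φ σ * δ'⁻¹) : δ = δ' := by
  obtain ⟨σ, hσ⟩ := hs (Multiplicative.ofAdd 1)
  have hg1 : k.pi (φ σ) ≠ 1 := by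
    rw [MonoidHom.comp_apply] at hσ
    rw [hσ]
    decide
  have h1 := h σ
  have h2 : φ σ * (δ'⁻¹ * δ) * (φ σ)⁻¹ = δ'⁻¹ * δ := by
    calc φ σ * (δ'⁻¹ * δ) * (φ σ)⁻¹ = δ'⁻¹ * (δ' * φ σ * δ'⁻¹) * δ * (φ σ)⁻¹ := by group
      _ = δ'⁻¹ * (δ * φ σ * δ⁻¹) * δ * (φ σ)⁻¹ := by rw [h1]
      _ = δ'⁻¹ * δ := by group
  have h3 := kv_fix k hg1 (k.V.mul_mem (k.V.inv_mem hδ') hδ) h2
  calc δ = δ' * (δ'⁻¹ * δ) := by group
    _ = δ' := by rw [h3, mul_one]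

theorem hk_not {H : Type} [Group H] (s : Multiplicative (ZMod 3) →* G)
    (hs : ∀ x, k.pi (s x) = x) (χ : H →* Multiplicative (ZMod 3)) {δ : G} (hδ : δ ∈ k.V) :
    ¬ Function.Surjective ((MulAut.conj δ).toMonoidHom.comp (s.comp χ)) := by
  intro hsur
  obtain ⟨σ, hσ⟩ := hsur k.w
  have h1 : δ * s (χ σ) * δ⁻¹ = k.w := hσ
  have h2 := congrArg k.pi h1
  rw [map_mul, map_mul, map_inv, k.piV δ hδ, k.piV k.w k.wV, hs, one_mul, inv_one, mul_one] at h2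
  rw [h2, map_one, mul_one, mul_inv_cancel] at h1
  exact k.w1 h1.symm

end H48.T3
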