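import Pool.Agent.H48.T3.Defs
import Pool.Agent.H48.KV.KumC
import Pool.Agent.H48.KV.LocA

/-!
# [H48 T3 KLA] three lemmas of KV with a weaker hypothesis, 80-130 lines (copies). File Pool/Agent/H48/T3/KLa.lean

The lemmas `kc_loc`, `kc_glo` (Pool/Agent/H48/KV/KumC.lean) and `loc_odd` (Pool/Agent/H48/KV/LocA.lean) have the hypothesis `hs : Function.Surjective φ₀`, used only in the form (every `x : G` is `φ₀ g`) for the conjugation `x c x⁻¹` of elements `c ∈ V`. This conjugation only depends on `k.pi x` (`kv_act`), so it is enough that `k.pi ∘ φ₀` is surjective: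
choose `g` with `k.pi (φ₀ g) = k.pi x`. Copy the proofs with this change.
-/

set_option autoImplicit false

open scoped NumberField Classical Pointwise
open IsDedekindDomain H38.ML H63.MA

noncomputable section

namespace H48.T3

open H48.KV

private theorem loc_trans {K : Type} [Field K] [NumberField K] {Ω : Type} [Field Ω] [Algebra K Ω]
    [IsAlgClosure K Ω] (P P' : Ideal (𝓞 Ω)) (hP : P.IsPrime) (hP' : P'.IsPrime)
    (h : P.under (𝓞 K) = P'.under (𝓞 K)) : ∃ g : Gal(Ω/K), P' = g • P := by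
  have : IsGalois K Ω := IsAlgClosure.isGalois K Ω
  let _ : TopologicalSpace (𝓞 Ω) := ⊥
  have : DiscreteTopology (𝓞 Ω) := ⟨rfl⟩
  have : ContinuousSMul Gal(Ω/K) (𝓞 Ω) := by
    rw [continuousSMul_iff_stabilizer_isOpen]
    intro x
    have h1 := stabilizer_isOpen_of_isIntegral (K := K) (L := Ω) (x : Ω)
    have h2 : (MulAction.stabilizer Gal(Ω/K) x : Set Gal(Ω/K)) =
        (MulAction.stabilizer Gal(Ω/K) (x : Ω) : Set Gal(Ω/K)) := by
      ext g
      simp only [SetLike.mem_coe, MulAction.mem_stabilizer_iff]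
      constructor
      · intro hg
        exact congrArg (fun z : 𝓞 Ω => (z : Ω)) hg
      · intro hg
        exact NumberField.RingOfIntegers.ext hg
    rw [h2]
    exact h1
  have : Algebra.IsInvariant (𝓞 K) (𝓞 Ω) Gal(Ω/K) := ⟨fun b hb => by
    have h1 : (b : Ω) ∈ (⊥ : IntermediateField K Ω) := by
      rw [← InfiniteGalois.fixedField_bot (k := K) (K := Ω), IntermediateField.mem_fixedField_iff]
      intro g _
      exact congrArg (fun z : 𝓞 Ω => (z : Ω)) (hb g)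
    obtain ⟨a, ha⟩ := IntermediateField.mem_bot.1 h1
    have h2 : IsIntegral ℤ a := by
      have h3 : IsIntegral ℤ (algebraMap K Ω a) := by
        rw [ha]
        exact b.2
      exact (isIntegral_algebraMap_iff (algebraMap K Ω).injective).1 h3
    refine ⟨⟨a, h2⟩, NumberField.RingOfIntegers.ext ?_⟩
    exact ha⟩
  exact Algebra.IsInvariant.exists_smul_of_under_eq_of_profinite (A := 𝓞 K) (G := Gal(Ω/K)) P P' h

private theorem loc_inr {K : Type} [Field K] [NumberField K] {Ω : Type} [Field Ω] [Algebra K Ω]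
    (P : Ideal (𝓞 Ω)) (g τ : Gal(Ω/K)) (h : τ ∈ (g • P).inertia Gal(Ω/K)) :
    g⁻¹ * τ * g ∈ P.inertia Gal(Ω/K) := by
  intro x
  have h1 := h (g • x)
  have h2 : (g⁻¹ * τ * g) • x - x = g⁻¹ • (τ • (g • x) - g • x) := by
    rw [smul_sub, inv_smul_smul, mul_smul, mul_smul]
  change (g⁻¹ * τ * g) • x - x ∈ P
  rw [h2]
  have h3 : τ • (g • x) - g • x ∈ g • P := h1
  rwa [Ideal.mem_pointwise_smul_iff_inv_smul_mem] at h3

private theorem loc_inr' {K : Type} [Field K] [NumberField K] {Ω : Type} [Field Ω] [Algebra K Ω]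
    (P : Ideal (𝓞 Ω)) (g τ : Gal(Ω/K)) (h : τ ∈ P.inertia Gal(Ω/K)) :
    g * τ * g⁻¹ ∈ (g • P).inertia Gal(Ω/K) := by
  intro x
  have h1 := h (g⁻¹ • x)
  change (g * τ * g⁻¹) • x - x ∈ g • P
  rw [Ideal.mem_pointwise_smul_iff_inv_smul_mem]
  have h2 : g⁻¹ • ((g * τ * g⁻¹) • x - x) = τ • (g⁻¹ • x) - g⁻¹ • x := by
    rw [smul_sub, mul_smul, mul_smul, inv_smul_smul]
  rw [h2]
  exact h1

variable {K : IntermediateField ℚ QBar} [NumberField K]

variable {G : Type} [Group G] {k : KV G}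
  {φ₀ : Gal(QBar/K) →* G} {F : IntermediateField K QBar} [NumberField F] {γ : Gal(QBar/K)}
  {τ : F ≃ₐ[K] F}

omit [NumberField F] [NumberField K] in
private theorem loc_clo : IsAlgClosure F QBar :=
  { isAlgClosed := inferInstance
    isAlgebraic := by
      have h0 : Algebra.IsAlgebraic K QBar := inferInstance
      exact Algebra.IsAlgebraic.tower_top (K := K) F }

private theorem loc_above (P : Pl F) (l : Pl K) (hPl : Over P l) (h2 : ¬ Above 2 l) :
    ¬ Above 2 P := by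
  intro h4
  apply h2
  have h5 : ((2 : ℕ) : 𝓞 F) ∈ P.asIdeal := h4
  change ((2 : ℕ) : 𝓞 K) ∈ l.asIdeal
  rw [← hPl, Ideal.mem_comap, map_natCast]
  exact h5

theorem kc_loc' (hs : Function.Surjective (k.pi.comp φ₀)) (h : FD k φ₀ F γ τ) {φ φ' : Gal(QBar/K) →* G}
    (hφ : Eqv k φ φ₀) (hφ' : Eqv k φ' φ₀) {a : Fˣ} (ha : Kc k F φ φ' a)
    (D : Subgroup Gal(QBar/K))
    (h0 : ∀ (g : Gal(QBar/K)) (σ : Gal(QBar/F)), g⁻¹ * σ.restrictScalars K * g ∈ D →
      kk 2 (-1 : F) a σ = 0) :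
    ∃ δ ∈ k.V, ∀ σ ∈ D, φ σ = δ * φ' σ * δ⁻¹ := by
  have he : Eqv k φ φ' := eqv_trans k hφ (eqv_symm k hφ')
  have hmain : ∀ d : D, k.pi ((φ.comp D.subtype) d) = 1 →
      (φ.comp D.subtype) d = (φ'.comp D.subtype) d := by
    rintro ⟨d, hd⟩ hp
    simp only [MonoidHom.comp_apply, Subgroup.subtype_apply] at hp ⊢
    have hfix : d ∈ F.fixingSubgroup := by
      rw [h.fix, ← eqv_pi k hφ]
      exact hp
    obtain ⟨σ, hσ⟩ : ∃ σ : Gal(QBar/F), (σ.restrictScalars K : Gal(QBar/K)) = d := by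
      refine ⟨IntermediateField.fixingSubgroupEquiv F ⟨d, hfix⟩, ?_⟩
      ext x
      rfl
    have hc : φ d * (φ' d)⁻¹ = 1 := by
      apply k.sep _ (he d)
      intro x
      obtain ⟨u, hux⟩ := hs (k.pi x)
      rw [kv_act k (show k.pi x = k.pi (φ₀ u) from hux.symm) (he d)]
      obtain ⟨σ', hσ'⟩ := kc_conj_ex h u⁻¹ σ
      have h1 := kc_equi h hφ hφ' u⁻¹ σ
      have h2 := ha σ'
      rw [h0 u⁻¹⁻¹ σ' (by rw [hσ', hσ]; simpa [mul_assoc] using hd), hσ', h1, hσ, map_inv,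
        inv_inv] at h2
      exact h2.symm
    exact mul_inv_eq_one.1 hc
  obtain ⟨δ, hδ, h1⟩ := kv_conj k (φ.comp D.subtype) (φ'.comp D.subtype) (fun d => he d) hmain
  exact ⟨δ, hδ, fun σ hσ => h1 ⟨σ, hσ⟩⟩

theorem kc_glo' (hs : Function.Surjective (k.pi.comp φ₀)) (h : FD k φ₀ F γ τ) {φ φ' : Gal(QBar/K) →* G}
    (hφ : Eqv k φ φ₀) (hφ' : Eqv k φ' φ₀) {b : Fˣ} (ha : Kc k F φ φ' (b ^ 2)) :
    ∃ δ ∈ k.V, φ = (MulAut.conj δ).toMonoidHom.comp φ' := by
  have hac : IsAlgClosure F QBar :=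
    { isAlgClosed := inferInstance
      isAlgebraic := Algebra.IsAlgebraic.tower_top (K := K) F }
  have hm1 : IsPrimitiveRoot (-1 : F) 2 := IsPrimitiveRoot.neg_one 0 (by norm_num)
  obtain ⟨δ, hδ, h1⟩ := kc_loc' hs h hφ hφ' ha ⊤
    (fun g σ _ => (kk_eq_zero_iff Nat.prime_two hm1 (b ^ 2)).2 ⟨b, rfl⟩ σ)
  refine ⟨δ, hδ, MonoidHom.ext fun σ => ?_⟩
  exact h1 σ (Subgroup.mem_top σ)

theorem loc_odd' (hs : Function.Surjective (k.pi.comp φ₀)) (h : FD k φ₀ F γ τ) {φ φ' : Gal(QBar/K) →* G}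
    (hφ : Eqv k φ φ₀) (hφ' : Eqv k φ' φ₀) {a : Fˣ} (ha : Kc k F φ φ' a) (Q : DP K QBar)
    (l : Pl K) (h2 : ¬ Above 2 l) (hI : ∀ σ ∈ (Q.P l).inertia Gal(QBar/K), φ' σ = 1)
    (hr : ∃ σ ∈ (Q.P l).inertia Gal(QBar/K), φ σ ≠ 1) : ∃ P : Pl F, Over P l ∧ Odd (ord P a) := by
  obtain ⟨σ, hσ, hne⟩ := hr
  have hcl : IsAlgClosure F QBar := loc_clo
  have hV : φ σ ∈ k.V := by
    have h3 := eqv_trans k hφ (eqv_symm k hφ') σ
    rw [hI σ hσ, inv_one, mul_one] at h3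
    exact h3
  have hfix : σ ∈ F.fixingSubgroup := ((fd_eqv h hφ).fix σ).2 (k.piV _ hV)
  let σ' : Gal(QBar/F) := F.fixingSubgroupEquiv ⟨σ, hfix⟩
  have hσ' : σ'.restrictScalars K = σ := by
    ext x
    rfl
  obtain ⟨x, hx⟩ : ∃ x : G, k.lam (x * φ σ * x⁻¹) ≠ 0 := by
    by_contra hcon
    push Not at hcon
    exact hne (k.sep _ hV hcon)
  obtain ⟨g, hgx⟩ := hs (k.pi x)
  rw [kv_act k (show k.pi x = k.pi (φ₀ g) from hgx.symm) hV] at hx
  obtain ⟨s, hs'⟩ := kc_conj_ex h g⁻¹ σ'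
  have h9 := kc_equi h hφ hφ' g⁻¹ σ'
  rw [← hs', hσ', hI σ hσ, inv_one, mul_one, map_inv, inv_inv] at h9
  rw [hσ', inv_inv] at hs'
  have h10 : kk 2 (-1 : F) a s ≠ 0 := by
    rw [ha s, h9]
    exact hx
  have hQp := Q.prime l
  have hB : (g • Q.P l).IsPrime := by
    infer_instance
  have hBK : (g • Q.P l).under (𝓞 K) = l.asIdeal := by
    rw [Ideal.under_smul]
    exact Q.under l
  have hBF : ((g • Q.P l).under (𝓞 F)).comap (algebraMap (𝓞 K) (𝓞 F)) = l.asIdeal := by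
    rw [← hBK]
    ext x
    exact Iff.rfl
  let P : Pl F :=
    { asIdeal := (g • Q.P l).under (𝓞 F)
      isPrime := Ideal.IsPrime.under _ _
      ne_bot := by
        intro h0
        apply l.ne_bot
        rw [← hBF, h0]
        exact Ideal.comap_bot_of_injective _ (FaithfulSMul.algebraMap_injective (𝓞 K) (𝓞 F)) }
  have hPl : Over P l := hBF
  obtain ⟨π, hπ⟩ := exists_unif P
  have hab : ¬ Above 2 P := loc_above P l hPl h2
  have hprim : IsPrimitiveRoot (-1 : F) 2 := IsPrimitiveRoot.neg_one (R := F) 0 (by norm_num)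
  obtain ⟨L', hL'⟩ := H63.BU.uord_at QBar Nat.prime_two hprim hab hπ (g • Q.P l) hB rfl
  have h11 : s ∈ L'.P.inertia Gal(QBar/F) := by
    rw [hL']
    have h12 := loc_inr' (Q.P l) g σ hσ
    rw [← hs'] at h12
    intro x
    exact h12 x
  have h13 := ld_kk Nat.prime_two hprim hab hπ L' s h11 a
  refine ⟨P, hPl, ?_⟩
  rw [← Int.not_even_iff_odd]
  intro hev
  have h14 : ((ord P a : ℤ) : ZMod 2) = 0 :=
    (ZMod.intCast_zmod_eq_zero_iff_dvd _ 2).2 (even_iff_two_dvd.1 hev)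
  rw [h14, zero_mul] at h13
  exact h10 h13

end H48.T3
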