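import Pool.Agent.H48.T3.Defs
import Pool.Agent.H48.KV.KumD

/-!
# [H48 T3 KLB] every class of square norm occurs, version for `φ₀` with `k.pi ∘ φ₀` surjective, 60-120 lines (a copy). File Pool/Agent/H48/T3/KLb.lean

Copy of the proof of `kc_exist` in Pool/Agent/H48/KV/KumD.lean. The hypothesis `hs : Function.Surjective φ₀` is used there only to find, for an element `x` of `Multiplicative (ZMod 3)` (or of `Gal(M/K)`), an automorphism `g` with `k.pi (φ₀ g) = x`; here this is `hs : Function.Surjective (k.pi.comp φ₀)`. (`factor φ₀ hft` gives `M`, `e : Gal(M/K) →* G` injective,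
not surjective any more; only the values `k.pi (e g)` matter.)
-/

set_option autoImplicit false

open scoped NumberField Classical
open IsDedekindDomain H38.ML H63.MA

noncomputable section

namespace H48.T3

open H48.KV

variable {K : IntermediateField ℚ QBar} [NumberField K]

variable {G : Type} [Group G] {k : KV G}
  {φ₀ : Gal(QBar/K) →* G} {F : IntermediateField K QBar} [NumberField F] {γ : Gal(QBar/K)}
  {τ : F ≃ₐ[K] F}

theorem kc_exist' (hft : FT φ₀) (hs : Function.Surjective (k.pi.comp φ₀)) (h : FD k φ₀ F γ τ)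
    (b : Fˣ) (hb : IsSquare (Algebra.norm K (b : F))) :
    ∃ φ : Gal(QBar/K) →* G, φ ∈ LV k φ₀ ∧ Kc k F φ φ₀ b := by
  classical
  have hgalK : IsGalois K QBar := IsAlgClosure.isGalois K QBar
  have halg : Algebra.IsAlgebraic F QBar := Algebra.IsAlgebraic.tower_top (K := K) F
  have hcl : IsAlgClosure F QBar := ⟨IsAlgClosure.isAlgClosed K, halg⟩
  have pr2 : IsPrimitiveRoot (-1 : F) 2 := IsPrimitiveRoot.neg_one 0 (by norm_num)
  have pr2K : IsPrimitiveRoot (-1 : K) 2 := IsPrimitiveRoot.neg_one 0 (by norm_num)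
  obtain ⟨M, hMf, hMg, e, he, hres⟩ := factor φ₀ hft
  have hMn : Normal K M := hMg.to_normal
  -- `F` is contained in `M`
  have hFM : F ≤ M := by
    intro x hx
    rw [← InfiniteGalois.fixedField_fixingSubgroup M, IntermediateField.mem_fixedField_iff]
    intro σ hσ
    have h1 : res M σ = 1 := by
      apply AlgEquiv.ext
      intro y
      apply Subtype.ext
      rw [kx_res]
      exact (IntermediateField.mem_fixingSubgroup_iff _ _).1 hσ _ y.2
    have h2 : φ₀ σ = 1 := by rw [← hres, h1, map_one]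
    have h3 : σ ∈ F.fixingSubgroup := by rw [h.fix, h2, map_one]
    exact (IntermediateField.mem_fixingSubgroup_iff _ _).1 h3 x hx
  -- the set of the three types
  let act : MulAction Gal(M/K) (Multiplicative (ZMod 3)) := MulAction.compHom _ (k.pi.comp e)
  have hact : ∀ (g : Gal(M/K)) (x : Multiplicative (ZMod 3)), g • x = k.pi (e g) * x := fun g x => rfl
  let cV : CommGroup k.V := { (inferInstance : Group k.V) with
    mul_comm := fun x y => Subtype.ext (kv_comm k x.2 y.2) }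
  obtain ⟨j, hj⟩ : ∃ j : k.V →* G, ∀ t, j t = (t : G) := ⟨k.V.subtype, fun t => rfl⟩
  have hjV : ∀ t, j t ∈ k.V := fun t => by rw [hj]; exact t.2
  have hA : ∀ t : k.V, t ^ 2 = 1 := by
    intro t
    apply Subtype.ext
    exact kv_sq k t.2
  choose sec hsec using k.sj
  have hlift : ∀ x : Multiplicative (ZMod 3), ∃ σ : Gal(QBar/K), k.pi (φ₀ σ) = x := by
    intro x
    obtain ⟨σ, hσ⟩ := hs x
    exact ⟨σ, hσ⟩
  choose lf hlf using hlift
  obtain ⟨a, ha⟩ : ∃ a : Multiplicative (ZMod 3) → k.V, ∀ x, (a x : G) = sec x * k.w * (sec x)⁻¹ :=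
    ⟨fun x => ⟨sec x * k.w * (sec x)⁻¹, k.nV.conj_mem _ k.wV _⟩, fun x => rfl⟩
  obtain ⟨α, hα⟩ : ∃ α : Multiplicative (ZMod 3) → M, ∀ x, (α x : QBar) = lf x ((b : F) : QBar) :=
    ⟨fun x => res M (lf x) ⟨((b : F) : QBar), hFM (b : F).2⟩, fun x => kx_res M _ _⟩
  have hα0 : ∀ x, α x ≠ 0 := by
    intro x h0
    have h1 := hα x
    rw [h0] at h1
    have h2 : ((b : F) : QBar) = 0 := by
      apply (lf x).injective
      rw [← h1, map_zero]
      rfl
    exact b.ne_zero (Subtype.ext h2)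
  have hαM : ∀ (g : Gal(M/K)) x, α (g • x) = g (α x) := by
    intro g x
    obtain ⟨σ, rfl⟩ := AlgEquiv.restrictNormalHom_surjective (F := K) (K₁ := M) QBar g
    apply Subtype.ext
    have h1 : ((AlgEquiv.restrictNormalHom M σ (α x) : M) : QBar) = σ (α x : QBar) :=
      kx_res M σ (α x)
    rw [h1, hα, hα]
    refine kd_agree (σ' := σ * lf x) h ?_ (b : F)
    rw [hlf, hact, map_mul, map_mul, hlf]
    have h2 : e (AlgEquiv.restrictNormalHom M σ) = φ₀ σ := hres σ
    rw [h2]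
  have haM : ∀ (g : Gal(M/K)) x, j (a (g • x)) = e g * j (a x) * (e g)⁻¹ := by
    intro g x
    rw [hj, hj, ha, ha]
    have h1 : e g * (sec x * k.w * (sec x)⁻¹) * (e g)⁻¹ = (e g * sec x) * k.w * (e g * sec x)⁻¹ := by
      group
    rw [h1]
    refine kv_act k ?_ k.wV
    rw [hsec, hact, map_mul, hsec]
  obtain ⟨O⟩ := exists_kumOut M e j 2 (by norm_num) (-1) pr2K hA a α hα0 hαM haM
  have hval : ∀ σ, O.ρ σ * (φ₀ σ)⁻¹ = j (∏ x, a (res M σ • x) ^ O.κ σ x) := by
    intro σ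
    rw [O.hρ, hres, mul_inv_cancel_right]
  refine ⟨O.ρ, ⟨O.ft, fun σ => by rw [hval]; exact hjV _⟩, ?_⟩
  intro σ
  obtain ⟨σ', hσ'⟩ : ∃ σ' : Gal(QBar/K), σ' = σ.restrictScalars K := ⟨_, rfl⟩
  have hpi : k.pi (φ₀ σ') = 1 := by rw [hσ']; exact fd_pi h σ
  have hfix : ∀ x : Multiplicative (ZMod 3), res M σ' • x = x := by
    intro x
    rw [hact, hres, hpi, one_mul]
  rw [← hσ', hval, kd_lam k _ _ j hjV]
  simp only [hfix]
  -- the exponents
  have hcl0 := fun (c : Fˣ) (x : Multiplicative (ZMod 3)) (hc : ((c : F) : QBar) = (α x : QBar)) =>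
    kk_of_root Nat.prime_two pr2 c (O.β x) (by rw [O.hβ x, ← hc]; rfl) σ (O.κ σ' x : ℤ) (by
      have h1 := O.hκ σ' x
      rw [hfix] at h1
      have h2 : σ (O.β x) = σ' (O.β x) := by rw [hσ']; rfl
      rw [h2, h1, zpow_natCast, map_neg, map_neg, map_one, map_one])
  have s1 : k.pi (φ₀ γ) ≠ 1 := h.ga
  obtain ⟨s, hs'⟩ : ∃ s, s = k.pi (φ₀ γ) := ⟨_, rfl⟩
  rw [← hs'] at s1
  have huniv : ∀ s : Multiplicative (ZMod 3), s ≠ 1 → (Finset.univ : Finset (Multiplicative (ZMod 3))) =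
      {1, s, s ^ 2} ∧ s ≠ s ^ 2 ∧ 1 ≠ s ^ 2 := by decide
  obtain ⟨hu, hs2, hs3⟩ := huniv s s1
  have hl : ∀ (x : Multiplicative (ZMod 3)) (g : G), k.pi g = x →
      k.lam (j (a x)) = k.lam (g * k.w * g⁻¹) := by
    intro x g hg
    rw [hj, ha, kv_act k (g := sec x) (h := g) (by rw [hsec, hg]) k.wV]
  have l0 : k.lam (j (a 1)) = 0 := by
    rw [hl 1 1 (map_one _), one_mul, inv_one, mul_one, k.lw]
  have hone := kv_one k (g := φ₀ γ) h.ga k.wV k.w1
  have h01 : (0 : ZMod 2) ≠ 1 := by decide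
  have l12 : k.lam (φ₀ γ * k.w * (φ₀ γ)⁻¹) = 1 ∧ k.lam (φ₀ γ ^ 2 * k.w * (φ₀ γ ^ 2)⁻¹) = 1 := by
    rcases hone with ⟨_, h1, h2⟩ | ⟨h1, _⟩ | ⟨h1, _⟩
    · exact ⟨h1, h2⟩
    · rw [k.lw] at h1
      exact (h01 h1).elim
    · rw [k.lw] at h1
      exact (h01 h1).elim
  have l1 : k.lam (j (a s)) = 1 := by
    rw [hl s (φ₀ γ) hs'.symm, l12.1]
  have l2 : k.lam (j (a (s ^ 2))) = 1 := by
    rw [hl (s ^ 2) (φ₀ γ ^ 2) (by rw [map_pow, hs']), l12.2]
  have k1 := hcl0 (tu τ b) s (by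
    rw [hα]
    have h1 : lf s ((b : F) : QBar) = γ ((b : F) : QBar) :=
      kd_agree h (by rw [hlf, hs']) (b : F)
    rw [h1, h.res]
    rfl)
  have k2 := hcl0 (tu τ (tu τ b)) (s ^ 2) (by
    rw [hα]
    have h1 : lf (s ^ 2) ((b : F) : QBar) = (γ * γ) ((b : F) : QBar) :=
      kd_agree h (by rw [hlf, map_mul, map_mul, hs', pow_two]) (b : F)
    rw [h1, AlgEquiv.mul_apply, h.res, h.res]
    rfl)
  rw [hu, Finset.sum_insert (by
      rw [Finset.mem_insert, Finset.mem_singleton, not_or]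
      exact ⟨s1.symm, hs3⟩), Finset.sum_insert (by
      rw [Finset.mem_singleton]
      exact hs2), Finset.sum_singleton, l0, l1, l2, mul_zero, zero_add, mul_one, mul_one]
  rw [Int.cast_natCast] at k1 k2
  rw [← k1, ← k2]
  obtain ⟨c, hc⟩ := fd_sq1 h b hb
  have e1 : kk 2 (-1 : F) (b * tu τ b * tu τ (tu τ b)) σ = 0 := by
    rw [hc, pow_two, kk_mul_arg Nat.prime_two pr2]
    exact CharTwo.add_self_eq_zero _
  rw [kk_mul_arg Nat.prime_two pr2, kk_mul_arg Nat.prime_two pr2, add_assoc] at e1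
  exact CharTwo.add_eq_zero.1 e1

end H48.T3
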