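import Pool.Agent.H48.T3.KDf
import Pool.Agent.H48.T3.GrD
import Pool.Agent.H48.T3.KLa
import Pool.Agent.H48.T3.KLb
import Pool.Agent.H48.KV.FinB

/-!
# [H48 T3 CLS] the Kummer class of a lift, 100-160 lines. File Pool/Agent/H48/T3/Cls.lean

* `cub_ex`: `φ₁ = s ∘ χ`... `fd_ex` needs a surjective homomorphism to `G`; copy its proof (Pool/Agent/H48/KV/FldA.lean) for `χ` in the place of `k.pi ∘ φ₀`: `c.F = FX χ` = fixed field of `ker χ`, `finrank = 3`, Galois; `τ` = the restriction of a `γ` with `χ γ ≠ 1` (`τ ≠ 1`).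
* `std_ex`: `s` from `sec_ex` (GrD.lean). `FD`: `deg`, `gal` from `c`; `fix`: `c.F = FX χ = fixedField χ.ker`, `H38.ML.fixing_fixedField` (`FT χ`), `k.pi (s (χ σ)) = χ σ`; `γ`: `c.τ` is the restriction of some `γ` (`AlgEquiv.restrictNormalHom_surjective`), `χ γ ≠ 1` because `c.τ ≠ 1`.
* `cl_ex`: `φ₀ = s ∘ χ` has finite type (`H38.ML.ft_comp`), `k.pi ∘ φ₀ = χ` is surjective, `Eqv k φ φ₀` for `φ ∈ LW` (`hk_eqv`), so `LW k χ = LV k φ₀`. `cl φ = v2 a` with `a` from `kc_ex` (KV/KumA.lean) for `(φ, φ₀)` (any value outside `LW`).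
  `kc`: `kc_uni` and `kc_sqr` (`v2_eq`). `va`: `kc_nrm`, `mem_VA`. `eq`: if `cl φ = cl φ'`: `Kc φ φ₀ a`, `Kc φ' φ₀ (a c²)`, so `Kc φ φ' (a * a c²)` (`kc_symm`, `kc_mul`) = a square, `kc_glo'` (KLa.lean). Conversely `kc_cj`: `Kc (δ φ' δ⁻¹) φ' 1`, `kc_mul`: `Kc (δ φ' δ⁻¹) φ₀ (1 * a')`. `sj`: `kc_exist'` (KLb.lean).
  `su`: if `cl φ = 0 = v2 1`: `Kc φ₀ φ₀ 1`, so `cl φ₀ = 0` and `φ = δ φ₀ δ⁻¹` by `eq`: not surjective (`hk_not`). If `cl φ ≠ 0`: some `σ` with `k.pi (φ σ) = 1` has `φ σ ≠ 1`: otherwise `φ σ = φ₀ σ = 1` for all `σ : Gal(QBar/F)`, so `Kc φ φ₀ 1` (`lam 1 = 0`, `kk` of `1` is `0`) and `cl φ = 0`. Then `hk_surj` (`φ σ ∈ V` by `hk`).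
* `cl_cnt`: for `x ∈ VA` the `φ ∈ LW` with `cl φ = x` are the `δ φ₁ δ⁻¹`, `δ ∈ V` (`sj`, `eq`; `LW` is stable under conjugation by `V`: `k.piV`, `FT`), four different ones (`hk_free`, `kv_card`). Sum over `x ∈ X`.
-/

set_option autoImplicit false

open scoped NumberField Classical
open IsDedekindDomain H38.ML H63.MA

noncomputable section

namespace H48.T3

open H48.KV

variable {K : IntermediateField ℚ QBar} [NumberField K]

variable {G : Type} [Group G] {k : KV G}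

theorem cub_ex (χ : Gal(QBar/K) →* Multiplicative (ZMod 3)) (hχ : χ ∈ Ch K) :
    ∃ c : Cub K, c.F = FX χ := by
  obtain ⟨M, hfd, hgal, e, he, hρ⟩ := factor χ hχ.1
  have hsurj : Function.Surjective e := by
    intro x
    obtain ⟨σ, hσ⟩ := hχ.2 x
    exact ⟨res M σ, by rw [hρ, hσ]⟩
  have hcard : Nat.card Gal(M/K) = 3 := by
    rw [Nat.card_congr (Equiv.ofBijective e ⟨he, hsurj⟩), Nat.card_eq_fintype_card]
    rfl
  have hker : M.fixingSubgroup = χ.ker := by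
    rw [← IntermediateField.restrictNormalHom_ker M]
    ext σ
    have h0 : σ ∈ (AlgEquiv.restrictNormalHom (F := K) (K₁ := QBar) M).ker ↔ res M σ = 1 := Iff.rfl
    rw [h0, MonoidHom.mem_ker, ← hρ σ]
    constructor
    · intro h
      rw [h, map_one]
    · intro h
      exact he (by rw [h, map_one])
  have hM : M = FX χ := by
    have h2 : IntermediateField.fixedField M.fixingSubgroup = M :=
      InfiniteGalois.fixedField_fixingSubgroup M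
    rw [FX, ← hker, h2]
  have hne1 : (Multiplicative.ofAdd (1 : ZMod 3)) ≠ 1 := by decide
  obtain ⟨t, ht⟩ := hsurj (Multiplicative.ofAdd (1 : ZMod 3))
  refine ⟨⟨M, by rw [← IsGalois.card_aut_eq_finrank, hcard], hgal, t, ?_⟩, hM⟩
  intro h
  apply hne1
  rw [← ht, h, map_one]

theorem std_ex (hk : ∀ g, k.pi g = 1 → g ∈ k.V) (χ : Gal(QBar/K) →* Multiplicative (ZMod 3))
    (hχ : χ ∈ Ch K) (c : Cub K) (hc : c.F = FX χ) : ∃ s γ, Std k χ c s γ := by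
  obtain ⟨s, hs⟩ := sec_ex k hk
  obtain ⟨γ, hγ⟩ := AlgEquiv.restrictNormalHom_surjective (F := K) (K₁ := c.F) QBar c.τ
  obtain ⟨E, hE, hle⟩ := hχ.1
  have hfix : c.F.fixingSubgroup = χ.ker := by
    rw [hc]
    exact (fixing_fixedField χ.ker E hle).1
  have hf : ∀ σ : Gal(QBar/K), σ ∈ c.F.fixingSubgroup ↔ k.pi ((s.comp χ) σ) = 1 := by
    intro σ
    rw [hfix, MonoidHom.mem_ker, MonoidHom.comp_apply, hs]
  have hr : ∀ x : c.F, γ (x : QBar) = ((c.τ x : c.F) : QBar) := by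
    intro x
    rw [← hγ]
    exact (AlgEquiv.restrictNormal_commutes γ c.F x).symm
  refine ⟨s, γ, ⟨hk, hs, hχ, ⟨c.deg, c.gal, hf, ?_, hr⟩⟩⟩
  intro h
  have h1 := (hf γ).2 h
  rw [IntermediateField.mem_fixingSubgroup_iff] at h1
  apply c.τ1
  ext x
  have h2 := hr x
  rw [h1 (x : QBar) x.2] at h2
  exact h2.symm

private theorem lw_conj {χ : Gal(QBar/K) →* Multiplicative (ZMod 3)} {φ : Gal(QBar/K) →* G}
    (h : φ ∈ LW k χ) {δ : G} (hδ : δ ∈ k.V) : (MulAut.conj δ).toMonoidHom.comp φ ∈ LW k χ := by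
  refine ⟨ft_comp _ φ h.1, ?_⟩
  ext σ : 1
  rw [← h.2]
  change k.pi (δ * φ σ * δ⁻¹) = k.pi (φ σ)
  rw [map_mul, map_mul, map_inv, k.piV δ hδ, one_mul, inv_one, mul_one]

theorem cl_ex {χ : Gal(QBar/K) →* Multiplicative (ZMod 3)} {c : Cub K}
    {s : Multiplicative (ZMod 3) →* G} {γ : Gal(QBar/K)} (H : Std k χ c s γ) :
    ∃ cl : (Gal(QBar/K) →* G) → V2 c.F, ClD k χ c s cl := by
  have hac := alg_cl c.F
  have hm1 := neg_one_prim c.F
  have hpi0 : k.pi.comp (s.comp χ) = χ := by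
    ext σ : 1
    exact H.hs (χ σ)
  have hs0 : Function.Surjective (k.pi.comp (s.comp χ)) := by
    rw [hpi0]
    exact H.ch.2
  have hft : FT (s.comp χ) := ft_comp s χ H.ch.1
  have h0W : s.comp χ ∈ LW k χ := ⟨hft, hpi0⟩
  have hE : ∀ φ ∈ LW k χ, Eqv k φ (s.comp χ) := fun φ hφ =>
    (hk_eqv k H.hk φ (s.comp χ)).2 (by rw [hφ.2, hpi0])
  have hE0 : Eqv k (s.comp χ) (s.comp χ) := eqv_refl k _
  have hex : ∀ φ ∈ LW k χ, ∃ a : c.Fˣ, Kc k c.F φ (s.comp χ) a := fun φ hφ =>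
    kc_ex H.fd ⟨hφ.1, hE φ hφ⟩ ⟨hft, hE0⟩
  choose! A hA using hex
  have hkc : ∀ φ ∈ LW k χ, ∀ a : c.Fˣ, Kc k c.F φ (s.comp χ) a ↔ v2 a = v2 (A φ) := by
    intro φ hφ a
    constructor
    · intro h
      exact v2_eq.2 (kc_uni h (hA φ hφ))
    · intro h
      obtain ⟨d, rfl⟩ := v2_eq.1 h
      exact (kc_sqr d).2 (hA φ hφ)
  have hone : ∀ σ : Gal(QBar/c.F), kk 2 (-1 : c.F) (1 : c.Fˣ) σ = 0 := fun σ =>
    (kk_eq_zero_iff Nat.prime_two hm1 1).2 ⟨1, by rw [one_pow]⟩ σ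
  have heq : ∀ φ ∈ LW k χ, ∀ φ' ∈ LW k χ,
      v2 (A φ) = v2 (A φ') ↔ ∃ δ ∈ k.V, φ = (MulAut.conj δ).toMonoidHom.comp φ' := by
    intro φ hφ φ' hφ'
    constructor
    · intro h
      obtain ⟨d, hd⟩ := v2_eq.1 h
      have h1 := kc_mul H.fd (hE φ hφ) hE0 (hE φ' hφ') (hA φ hφ)
        (kc_symm H.fd (hE φ' hφ') hE0 (hA φ' hφ'))
      have h2 : A φ * A φ' = (A φ' * d) ^ 2 := by
        rw [hd, mul_pow, pow_two (A φ'), mul_right_comm]
      rw [h2] at h1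
      exact kc_glo' hs0 H.fd (hE φ hφ) (hE φ' hφ') h1
    · rintro ⟨δ, hδ, rfl⟩
      have h1 := kc_cj H.fd (hE φ' hφ') hδ
      have h2 := kc_mul H.fd (hE _ hφ) (hE φ' hφ') hE0 h1 (hA φ' hφ')
      rw [one_mul] at h2
      exact ((hkc _ hφ _).1 h2).symm
  have hcl0 : v2 (A (s.comp χ)) = 0 := by
    have h1 : Kc k c.F (s.comp χ) (s.comp χ) 1 := by
      intro σ
      rw [hone, mul_inv_cancel, kv_lam_one]
    exact ((hkc _ h0W 1).1 h1).symm
  refine ⟨fun φ => v2 (A φ), ⟨hkc, ?_, heq, ?_, ?_⟩⟩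
  · intro φ hφ
    exact (mem_VA c (A φ)).2 (kc_nrm H.fd (hE φ hφ) hE0 (hA φ hφ))
  · rintro x ⟨a, rfl, ha⟩
    obtain ⟨φ, hφ, hK⟩ := kc_exist' hft hs0 H.fd a ha
    have hφW : φ ∈ LW k χ := ⟨hφ.1, by rw [(hk_eqv k H.hk φ (s.comp χ)).1 hφ.2, hpi0]⟩
    exact ⟨φ, hφW, ((hkc φ hφW a).1 hK).symm⟩
  · intro φ hφ
    constructor
    · intro hsj h0
      have h1 : v2 (A φ) = v2 (A (s.comp χ)) := by
        rw [hcl0]
        exact h0
      obtain ⟨δ, hδ, h2⟩ := (heq φ hφ _ h0W).1 h1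
      rw [h2] at hsj
      exact hk_not k s H.hs χ hδ hsj
    · intro h0
      by_contra hns
      apply h0
      have hall : ∀ σ, k.pi (φ σ) = 1 → φ σ = 1 := by
        intro σ h1
        by_contra h2
        exact hns (hk_surj k H.hk φ (by rw [hφ.2]; exact H.ch.2) (H.hk _ h1) h2)
      have h1 : Kc k c.F φ (s.comp χ) 1 := by
        intro σ
        have h3 : k.pi ((s.comp χ) (σ.restrictScalars K)) = 1 := fd_pi H.fd σ
        have h2 : φ (σ.restrictScalars K) = 1 := by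
          apply hall
          rw [eqv_pi k (hE φ hφ), h3]
        have h4 : (s.comp χ) (σ.restrictScalars K) = 1 := by
          have h5 : χ (σ.restrictScalars K) = 1 := by
            rw [← h3]
            exact (H.hs _).symm
          rw [MonoidHom.comp_apply, h5, map_one]
        rw [hone, h2, h4, inv_one, mul_one, kv_lam_one]
      exact ((hkc φ hφ 1).1 h1).symm

theorem cl_cnt {χ : Gal(QBar/K) →* Multiplicative (ZMod 3)} {c : Cub K}
    {s : Multiplicative (ZMod 3) →* G} {γ : Gal(QBar/K)} (H : Std k χ c s γ)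
    {cl : (Gal(QBar/K) →* G) → V2 c.F} (hcl : ClD k χ c s cl) (X : Set (V2 c.F))
    (hX : X ⊆ VA c) (hf : X.Finite) : {φ | φ ∈ LW k χ ∧ cl φ ∈ X}.Finite ∧
      {φ | φ ∈ LW k χ ∧ cl φ ∈ X}.ncard = 4 * X.ncard := by
  have hex : ∀ x : X, ∃ φ ∈ LW k χ, cl φ = x := fun x => hcl.sj x (hX x.2)
  choose ψ hψ hψx using hex
  have hcj : ∀ (x : X) (δ : k.V),
      cl ((MulAut.conj (δ : G)).toMonoidHom.comp (ψ x)) = x := by
    intro x δ
    rw [← hψx x]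
    exact (hcl.eq _ (lw_conj (hψ x) δ.2) _ (hψ x)).2 ⟨δ, δ.2, rfl⟩
  obtain ⟨f, hfd⟩ : ∃ f : X × k.V → {φ | φ ∈ LW k χ ∧ cl φ ∈ X}, ∀ p,
      (f p : Gal(QBar/K) →* G) = (MulAut.conj (p.2 : G)).toMonoidHom.comp (ψ p.1) :=
    ⟨fun p => ⟨(MulAut.conj (p.2 : G)).toMonoidHom.comp (ψ p.1),
      lw_conj (hψ p.1) p.2.2, by rw [hcj]; exact p.1.2⟩, fun _ => rfl⟩
  have hinj : Function.Injective f := by
    rintro ⟨x, δ⟩ ⟨x', δ'⟩ h
    have h1 : (MulAut.conj (δ : G)).toMonoidHom.comp (ψ x) =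
        (MulAut.conj (δ' : G)).toMonoidHom.comp (ψ x') := by
      have h2 := congrArg Subtype.val h
      rw [hfd, hfd] at h2
      exact h2
    have h3 : x = x' := by
      apply Subtype.ext
      rw [← hcj x δ, h1, hcj]
    subst h3
    have h4 : δ = δ' := by
      apply Subtype.ext
      refine hk_free k (ψ x) (by rw [(hψ x).2]; exact H.ch.2) δ.2 δ'.2 fun σ => ?_
      exact congrArg (fun u : Gal(QBar/K) →* G => u σ) h1
    rw [h4]
  have hsur : Function.Surjective f := by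
    rintro ⟨φ, hφ, hφX⟩
    obtain ⟨δ, hδ, h1⟩ := (hcl.eq φ hφ _ (hψ ⟨cl φ, hφX⟩)).1 (hψx ⟨cl φ, hφX⟩).symm
    refine ⟨(⟨cl φ, hφX⟩, ⟨δ, hδ⟩), Subtype.ext ?_⟩
    rw [hfd]
    exact h1.symm
  have hXf : Finite X := hf
  have hVf : Finite k.V := Nat.finite_of_card_ne_zero (by rw [kv_card k]; norm_num)
  have hfin : Finite {φ | φ ∈ LW k χ ∧ cl φ ∈ X} := Finite.of_surjective f hsur
  refine ⟨hfin, ?_⟩
  have h1 : Nat.card {φ | φ ∈ LW k χ ∧ cl φ ∈ X} = Nat.card (X × k.V) :=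
    (Nat.card_eq_of_bijective f ⟨hinj, hsur⟩).symm
  rw [Nat.card_prod, kv_card k] at h1
  rw [← Nat.card_coe_set_eq, ← Nat.card_coe_set_eq, h1, mul_comm]

end H48.T3
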