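import Pool.Agent.H48.T3.TyB
import Pool.Agent.H63.MC.CHa

/-!
# [H48 T3 TYC] finitely many local types, 80-120 lines. File Pool/Agent/H48/T3/TyC.lean

* `ty_fin`: `exists_RD_of K Nat.prime_three (mone_odd ..) hω S` (H38/BB/RdOf.lean) gives `D : RD K 3 ω` with `S ⊆ D.S0`; `LDs D.toRD0 QBar` exists (see the uses of `hw_types`, for instance `lds_of` in H38/AS/PDef.lean); `hw_types` (Pool/Agent/H63/MC/CHa.lean) for `W = Multiplicative (ZMod 3)` gives a finite set `R` of characters of finite type such that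
  every character of finite type is `Teq D.S0 Q` to one of them, so `Teq S Q`. For every `r ∈ R` for which some `χ ∈ Ch K` has `Teq S Q χ r` choose one such `χ_r` (`Teq` is an equivalence relation: `cfin_teq` or directly); `Xf` = the set of the `χ_r`.
* `ds_fin`: for every `χ' ∈ Xf`: `cub_ex`, `std_ex`, `cl_ex`; the surjective lifts of `χ'` fall into finitely many classes modulo `Lq` (`nty_rep`-argument, or: the `Quot` for `p = True` is finite because it injects into the finite `QA`: `nty_all` says `0 < Nat.card (Quot ..)`, so it is finite: `Nat.finite_of_card_ne_zero`), and `ds` is constant on every class (`LocInv`, `Lq` gives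
  `δ ∈ V`, in particular `δ : G`). Let `Df` be the finite set of the values. For any surjective `φ` of finite type put `χ = k.pi ∘ φ ∈ Ch K` (`k.sj`; `H38.ML.ft_comp`), `χ' ∈ Xf` with `Teq S Q χ χ'`, `apx`: a surjective lift `φ'` of `χ'` with `Lq φ φ'`, `ds φ = ds φ' ∈ Df`.
* `nty_bd`: the maximum over `Xf` of `nty χ' True`; `nty_inv`.
-/

set_option autoImplicit false

open scoped NumberField Classical
open IsDedekindDomain H38.ML H63.MA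

noncomputable section

namespace H48.T3

open H48.KV

variable {K : IntermediateField ℚ QBar} [NumberField K]

variable {G : Type} [Group G] {k : KV G} {ω : K}

theorem ty_fin (hω : IsPrimitiveRoot ω 3) (Q : DP K QBar) (S : Finset (Pl K)) :
    ∃ Xf : Finset (Gal(QBar/K) →* Multiplicative (ZMod 3)), (∀ χ ∈ Xf, χ ∈ Ch K) ∧
      ∀ χ ∈ Ch K, ∃ χ' ∈ Xf, Teq S Q χ χ' := by
  have h1 : MOne 3 K := mone_odd Nat.prime_three (by norm_num) K
  obtain ⟨D, hD⟩ := H38.BB.exists_RD_of K Nat.prime_three h1 hω S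
  obtain ⟨L, -⟩ := H38.AS.lds_of (Ω := QBar) Nat.prime_three hω D.toRD0 Q
  obtain ⟨R, -, hR⟩ := hw_types (W := Multiplicative (ZMod 3)) Nat.prime_three h1 hω D.toRD0 L Q (by
    intro w
    apply Multiplicative.toAdd.injective
    rw [toAdd_pow, toAdd_one, nsmul_eq_mul]
    rw [show ((3 : ℕ) : ZMod 3) = 0 from rfl, zero_mul])
  have h2 : ∀ r : Gal(QBar/K) →* Multiplicative (ZMod 3), ∃ χ' : Gal(QBar/K) →* Multiplicative (ZMod 3),
      (∃ χ ∈ Ch K, Teq S Q χ r) → χ' ∈ Ch K ∧ Teq S Q χ' r := by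
    intro r
    by_cases h : ∃ χ ∈ Ch K, Teq S Q χ r
    · obtain ⟨χ, h3, h4⟩ := h
      exact ⟨χ, fun _ => ⟨h3, h4⟩⟩
    · exact ⟨r, fun h' => absurd h' h⟩
  choose g hg using h2
  refine ⟨(R.filter fun r => ∃ χ ∈ Ch K, Teq S Q χ r).image g, ?_, ?_⟩
  · intro χ hχ
    obtain ⟨r, hr, rfl⟩ := Finset.mem_image.1 hχ
    exact (hg r (Finset.mem_filter.1 hr).2).1
  · intro χ hχ
    obtain ⟨r, hr, hT⟩ := hR χ hχ.1
    have hT' : Teq S Q χ r := fun v hv σ hσ => hT v (hD v hv) σ hσ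
    refine ⟨g r, Finset.mem_image_of_mem g (Finset.mem_filter.2 ⟨hr, χ, hχ, hT'⟩), fun v hv σ hσ => ?_⟩
    rw [hT' v hv σ hσ, (hg r ⟨χ, hχ, hT'⟩).2 v hv σ hσ]

private theorem tyc_fin (hi : MOne 2 K) (k : KV G) (hk : ∀ g, k.pi g = 1 → g ∈ k.V) (Q : DP K QBar)
    (S : Finset (Pl K)) (ds : (Gal(QBar/K) →* G) → ℕ) (hds : LocInv Q S ds)
    (χ : Gal(QBar/K) →* Multiplicative (ZMod 3)) (hχ : χ ∈ Ch K) :
    ∃ D : Finset ℕ, ∀ φ ∈ SL k χ, ds φ ∈ D := by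
  obtain ⟨c, hc⟩ := cub_ex χ hχ
  obtain ⟨s, γ, H⟩ := std_ex hk χ hχ c hc
  obtain ⟨cl, hcl⟩ := cl_ex H
  have h1 := (nty_all hi H hcl S Q).2
  unfold nty at h1
  have h2 := Nat.finite_of_card_ne_zero h1.ne'
  obtain ⟨F, hF⟩ : ∃ F : (Quot fun φ φ' : {φ : Gal(QBar/K) →* G // φ ∈ SL k χ ∧ True} =>
      Lq k S Q φ.1 φ'.1) → ℕ, ∀ φ : {φ : Gal(QBar/K) →* G // φ ∈ SL k χ ∧ True}, F (Quot.mk _ φ) = ds φ.1 := by
    refine ⟨Quot.lift (fun φ => ds φ.1) ?_, fun φ => rfl⟩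
    intro φ φ' h
    refine hds φ.1 φ'.1 φ.2.1.2.1 φ.2.1.1 φ'.2.1.2.1 φ'.2.1.1 fun v hv => ?_
    obtain ⟨δ, -, h3⟩ := h v hv
    exact ⟨δ, h3⟩
  have h3 : (Set.range F).Finite := Set.finite_range F
  refine ⟨h3.toFinset, fun φ hφ => ?_⟩
  rw [Set.Finite.mem_toFinset]
  exact ⟨Quot.mk _ ⟨φ, hφ, trivial⟩, hF _⟩

theorem ds_fin (hω : IsPrimitiveRoot ω 3) (hi : MOne 2 K) (k : KV G)
    (hk : ∀ g, k.pi g = 1 → g ∈ k.V) (Q : DP K QBar) (S : Finset (Pl K))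
    (ds : (Gal(QBar/K) →* G) → ℕ) (hds : LocInv Q S ds) :
    ∃ Df : Finset ℕ, ∀ φ : Gal(QBar/K) →* G, FT φ → Function.Surjective φ → ds φ ∈ Df := by
  obtain ⟨Xf, hX, hT⟩ := ty_fin hω Q S
  have h1 : ∀ χ : Gal(QBar/K) →* Multiplicative (ZMod 3), ∃ D : Finset ℕ, χ ∈ Ch K →
      ∀ φ ∈ SL k χ, ds φ ∈ D := by
    intro χ
    by_cases h : χ ∈ Ch K
    · obtain ⟨D, hD⟩ := tyc_fin hi k hk Q S ds hds χ h
      exact ⟨D, fun _ => hD⟩
    · exact ⟨∅, fun h' => absurd h' h⟩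
  choose D hD using h1
  refine ⟨Xf.biUnion D, fun φ hft hsu => ?_⟩
  have hχ : k.pi.comp φ ∈ Ch K := ⟨H38.ML.ft_comp _ _ hft, by
    rw [MonoidHom.coe_comp]
    exact k.sj.comp hsu⟩
  obtain ⟨χ', hχ', hTe⟩ := hT _ hχ
  obtain ⟨φ', h2, h3, h4, h5⟩ := apx hi k hk Q S _ χ' hχ (hX χ' hχ') hTe φ hft rfl
  have h6 : ds φ = ds φ' := hds φ φ' hsu hft h3 h2 fun v hv => by
    obtain ⟨δ, -, h7⟩ := h5 v hv
    exact ⟨δ, h7⟩
  rw [h6]
  exact Finset.mem_biUnion.2 ⟨χ', hχ', hD χ' (hX χ' hχ') φ' ⟨h2, h3, h4⟩⟩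

theorem nty_bd (hω : IsPrimitiveRoot ω 3) (hi : MOne 2 K) (k : KV G)
    (hk : ∀ g, k.pi g = 1 → g ∈ k.V) (Q : DP K QBar) (S : Finset (Pl K)) :
    ∃ C : ℕ, ∀ χ ∈ Ch K, nty k S Q χ (fun _ => True) ≤ C := by
  obtain ⟨Xf, hX, hT⟩ := ty_fin hω Q S
  refine ⟨Xf.sup fun χ' => nty k S Q χ' fun _ => True, fun χ hχ => ?_⟩
  obtain ⟨χ', hχ', hTe⟩ := hT χ hχ
  rw [nty_inv hi k hk Q S χ χ' hχ (hX χ' hχ') hTe (fun _ => True) fun _ _ _ _ _ _ _ => Iff.rfl]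
  exact Finset.le_sup (f := fun χ' => nty k S Q χ' fun _ => True) hχ'

end H48.T3
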