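import Pool.Agent.H48.T3.TOv

/-!
# [H48 T3 APA] sums over admissible sets as sums over sets of primes of `K`, 90-140 lines. File Pool/Agent/H48/T3/ApA.lean

For an admissible `f` (`AdmC c S f`) let `q` be the set of the primes of `K` below the `P ∈ f`. For `l ∈ q`: `l ∉ S`, `Spc c l`, and there is exactly one `P ∈ f` over `l` (two of them would be in the same orbit of `τ`, `cb_tr`, which is excluded by `AdmC`). `nr f = nr q` (`cb_deg`: `nm P = nm l`). Conversely, for a finite set `q` of primes `l ∉ S` with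
`Spc c l` and a choice of a prime `P_l` over `l` for every `l ∈ q` the set of the `P_l` is admissible (`τ P_l ≠ P_l` by `ov_card`; `τ P_l`, `τ² P_l` lie over `l` and are different from `P_l`, so not in the set). So
`∑_f ∏_{P ∈ f} e P = ∑_{q : all l ∉ S, Spc} ∑_{choices} ∏_{l ∈ q} e (P_l) = ∑_q ∏_{l ∈ q} ∑_{P over l} e P` (`Finset.prod_sum` or `Finset.prod_univ_sum` with `Finset.pi`; the finite set of the primes over `l` from `ov_card`, `finsum_mem_eq_finite_toFinset_sum`), and the `q ∈ AF K Y` which contain an `l ∈ S` or an `l` with `¬ Spc c l` contribute `0`.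
`mem_AF`: `n ∈ AF K Y ↔ nr n ≤ Y`.
-/

set_option autoImplicit false

open scoped NumberField Classical
open IsDedekindDomain H38.ML H63.MA

noncomputable section

namespace H48.T3

open H48.KV

variable {K : IntermediateField ℚ QBar} [NumberField K]

private theorem apa_uniq (c : Cub K) (S : Finset (Pl K)) {f : Finset (Pl c.F)}
    (hf : AdmC c S f) {P P' : Pl c.F} (hP : P ∈ f) (hP' : P' ∈ f) {l : Pl K} (h : Over P l)
    (h' : Over P' l) : P = P' := by
  rcases cb_tr c P P' l h h' with h1 | h1 | h1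
  · exact h1.symm
  · exact absurd (h1 ▸ hP') (hf P hP).2.2.1
  · exact absurd (h1 ▸ hP') (hf P hP).2.2.2

private theorem apa_below (c : Cub K) (P : Pl c.F) {l l' : Pl K} (h : Over P l)
    (h' : Over P l') : l = l' :=
  HeightOneSpectrum.ext (h.symm.trans h')

private theorem apa_fib (c : Cub K) : ∃ fib : Pl K → Finset (Pl c.F),
    ∀ l, (∀ P, P ∈ fib l ↔ Over P l) ∧ (Spc c l → ∀ P ∈ fib l, tp c.τ P ≠ P) := by
  choose fib h using ov_card c
  refine ⟨fib, fun l => ⟨(h l).1, fun hs => ?_⟩⟩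
  rcases (h l).2 with ⟨_, _, h3⟩ | ⟨h1, _, _⟩
  · exact h3
  · exact absurd hs h1

theorem apa (c : Cub K) (S : Finset (Pl K)) (e : Pl c.F → ℝ) (Y : ℝ) :
    ∑ f ∈ (AF c.F Y).filter (fun f => AdmC c S f), ∏ P ∈ f, e P =
      ∑ q ∈ AF K Y, ∏ l ∈ q, (if l ∉ S ∧ Spc c l then ∑ᶠ P ∈ {P : Pl c.F | Over P l}, e P
        else 0) := by
  obtain ⟨fib, hfib⟩ := apa_fib c
  obtain ⟨g, hg⟩ : ∃ g : Pl K → Finset (Pl c.F), ∀ l,
      g l = if l ∉ S ∧ Spc c l then fib l else ∅ := ⟨_, fun _ => rfl⟩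
  have hgm : ∀ l P, P ∈ g l ↔ (l ∉ S ∧ Spc c l) ∧ Over P l := by
    intro l P
    rw [hg l]
    split_ifs with h
    · rw [(hfib l).1 P]
      exact (and_iff_right h).symm
    · exact ⟨fun h1 => absurd h1 (Finset.notMem_empty P), fun h1 => absurd h1.1 h⟩
  have hR : ∀ q : Finset (Pl K), ∏ l ∈ q, (if l ∉ S ∧ Spc c l then
      ∑ᶠ P ∈ {P : Pl c.F | Over P l}, e P else 0) =
      ∑ p ∈ q.pi g, ∏ x ∈ q.attach, e (p x.1 x.2) := by
    intro q
    refine Eq.trans ?_ (Finset.prod_sum q g (fun _ P => e P))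
    refine Finset.prod_congr rfl fun l _ => ?_
    rw [hg l]
    split_ifs with h
    · have h1 : {P : Pl c.F | Over P l} = ((fib l : Finset (Pl c.F)) : Set (Pl c.F)) := by
        ext P
        rw [Finset.mem_coe, (hfib l).1 P]
        rfl
      rw [h1, finsum_mem_coe_finset]
    · rw [Finset.sum_empty]
  rw [Finset.sum_congr rfl fun q _ => hR q, Finset.sum_sigma']
  symm
  -- properties of the choice functions
  have hprop : ∀ (q : Finset (Pl K)) (p : ∀ l ∈ q, Pl c.F), p ∈ q.pi g → ∀ l (hl : l ∈ q),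
      l ∉ S ∧ Over (p l hl) l ∧ tp c.τ (p l hl) ≠ p l hl := by
    intro q p hp l hl
    have h1 := (hgm l (p l hl)).1 (Finset.mem_pi.1 hp l hl)
    exact ⟨h1.1.1, h1.2, (hfib l).2 h1.1.2 _ (((hfib l).1 _).2 h1.2)⟩
  have hinj : ∀ (q : Finset (Pl K)) (p : ∀ l ∈ q, Pl c.F), p ∈ q.pi g →
      Function.Injective (fun y : {l // l ∈ q} => p y.1 y.2) := by
    intro q p hp y y' h
    have h1 := (hprop q p hp y.1 y.2).2.1
    have h2 := (hprop q p hp y'.1 y'.2).2.1
    have h3 : p y.1 y.2 = p y'.1 y'.2 := h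
    rw [h3] at h1
    exact Subtype.ext (apa_below c _ h1 h2)
  refine Finset.sum_bij (fun x _ => x.1.attach.image (fun y => x.2 y.1 y.2)) ?_ ?_ ?_ ?_
  · rintro ⟨q, p⟩ hx
    obtain ⟨hq, hp⟩ := Finset.mem_sigma.1 hx
    have hq' : nr q ≤ Y := mem_AF.1 hq
    show q.attach.image (fun y => p y.1 y.2) ∈ _
    rw [Finset.mem_filter, mem_AF]
    refine ⟨?_, ?_⟩
    · refine le_trans (le_of_eq ?_) hq'
      unfold nr
      rw [Finset.prod_image fun y _ y' _ h => hinj q p hp h, ← Finset.prod_attach q]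
      refine Finset.prod_congr rfl fun y _ => ?_
      obtain ⟨_, h2, h3⟩ := hprop q p hp y.1 y.2
      rw [cb_deg c _ _ h2 h3]
    · intro P hP
      obtain ⟨y, _, rfl⟩ := Finset.mem_image.1 hP
      obtain ⟨h1, h2, h3⟩ := hprop q p hp y.1 y.2
      have hno : ∀ R : Pl c.F, R ≠ p y.1 y.2 → Over R y.1 →
          R ∉ q.attach.image (fun y => p y.1 y.2) := by
        intro R hR hRo hRm
        obtain ⟨y', _, hy'⟩ := Finset.mem_image.1 hRm
        have h4 := (hprop q p hp y'.1 y'.2).2.1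
        rw [hy'] at h4
        have h5 : y' = y := Subtype.ext (apa_below c _ h4 hRo)
        exact hR (by rw [← hy', h5])
      have ho1 : Over (tp c.τ (p y.1 y.2)) y.1 := (tp_over c.τ _ _).2 h2
      refine ⟨?_, h3, hno _ h3 ho1, hno _ ?_ ((tp_over c.τ _ _).2 ho1)⟩
      · rintro ⟨l, hl, hlo⟩
        rw [apa_below c _ h2 hlo] at h1
        exact h1 hl
      · intro h4
        have h5 := cb_pcube c (p y.1 y.2)
        rw [h4] at h5
        exact h3 h5
  · rintro ⟨q, p⟩ hx ⟨q', p'⟩ hx' h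
    obtain ⟨_, hp⟩ := Finset.mem_sigma.1 hx
    obtain ⟨_, hp'⟩ := Finset.mem_sigma.1 hx'
    have h0 : q.attach.image (fun y => p y.1 y.2) = q'.attach.image (fun y => p' y.1 y.2) := h
    have hsub : ∀ (q q' : Finset (Pl K)) (p : ∀ l ∈ q, Pl c.F) (p' : ∀ l ∈ q', Pl c.F),
        p ∈ q.pi g → p' ∈ q'.pi g →
        q.attach.image (fun y => p y.1 y.2) = q'.attach.image (fun y => p' y.1 y.2) →
        ∀ l (hl : l ∈ q), ∃ hl' : l ∈ q', p l hl = p' l hl' := by
      intro q q' p p' hp hp' h0 l hl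
      have h1 : p l hl ∈ q'.attach.image (fun y => p' y.1 y.2) := by
        rw [← h0]
        exact Finset.mem_image.2 ⟨⟨l, hl⟩, Finset.mem_attach _ _, rfl⟩
      obtain ⟨y, _, hy⟩ := Finset.mem_image.1 h1
      have h2 := (hprop q p hp l hl).2.1
      have h3 := (hprop q' p' hp' y.1 y.2).2.1
      rw [hy] at h3
      have h4 : l = y.1 := apa_below c _ h2 h3
      subst h4
      exact ⟨y.2, hy.symm⟩
    have hqq : q = q' := by
      ext l
      exact ⟨fun hl => (hsub q q' p p' hp hp' h0 l hl).1,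
        fun hl => (hsub q' q p' p hp' hp h0.symm l hl).1⟩
    subst hqq
    have hpp : p = p' := by
      funext l hl
      obtain ⟨_, h1⟩ := hsub q q p p' hp hp' h0 l hl
      exact h1
    rw [hpp]
  · intro f hf
    rw [Finset.mem_filter, mem_AF] at hf
    obtain ⟨hfY, hfa⟩ := hf
    choose bl hbl using fun P : Pl c.F => exists_below (K := K) P
    have hex : ∀ l ∈ f.image bl, ∃ P ∈ f, bl P = l := fun l hl => Finset.mem_image.1 hl
    choose p hpf hpb using hex
    have hpo : ∀ l (hl : l ∈ f.image bl), Over (p l hl) l := by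
      intro l hl
      have h1 := hbl (p l hl)
      rwa [hpb l hl] at h1
    have hpg : p ∈ (f.image bl).pi g := by
      rw [Finset.mem_pi]
      intro l hl
      rw [hgm]
      obtain ⟨h1, h2, _, _⟩ := hfa _ (hpf l hl)
      exact ⟨⟨fun h => h1 ⟨l, h, hpo l hl⟩, ⟨_, hpo l hl, h2⟩⟩, hpo l hl⟩
    have himg : (f.image bl).attach.image (fun y => p y.1 y.2) = f := by
      ext P
      constructor
      · intro h
        obtain ⟨y, _, rfl⟩ := Finset.mem_image.1 h
        exact hpf _ _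
      · intro h
        have h1 : bl P ∈ f.image bl := Finset.mem_image_of_mem bl h
        refine Finset.mem_image.2 ⟨⟨bl P, h1⟩, Finset.mem_attach _ _, ?_⟩
        exact apa_uniq c S hfa (hpf _ _) h (hpo _ _) (hbl P)
    refine ⟨⟨f.image bl, p⟩, ?_, himg⟩
    refine Finset.mem_sigma.2 ⟨?_, hpg⟩
    rw [mem_AF]
    refine le_trans (le_of_eq ?_) hfY
    unfold nr
    rw [Finset.prod_image fun P hP P' hP' h =>
      apa_uniq c S hfa hP hP' (hbl P) (by rw [h]; exact hbl P')]
    refine Finset.prod_congr rfl fun P hP => ?_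
    rw [cb_deg c P _ (hbl P) (hfa P hP).2.1]
  · rintro ⟨q, p⟩ hx
    obtain ⟨_, hp⟩ := Finset.mem_sigma.1 hx
    show ∏ x ∈ q.attach, e (p x.1 x.2) = ∏ P ∈ q.attach.image (fun y => p y.1 y.2), e P
    rw [Finset.prod_image fun y _ y' _ h => hinj q p hp h]

end H48.T3
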