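import Pool.Agent.H48.T3.LAa

/-!
# [H48 T3 LAB] linear algebra over `ZMod 2`: the counting formula with characters, 120-180 lines, pure linear algebra (uses LAa). File Pool/Agent/H48/T3/LAb.lean

Notation of LAa. `C = QI o A' I` is finite (`la_card`), so its dual has `#C` elements (`Module.Free`, `Basis`, or `Subspace.dual_finrank_eq`, `Module.card_eq_pow_finrank`), and
(1) `∑_{ψ ∈ Dual C} sg (ψ x) = #C` if `x = 0` and `0` otherwise (if `x ≠ 0` there is `ψ₀` with `ψ₀ x = 1` (`Module.exists_dual_forall_apply_eq_zero_iff`/`Module.forall_dual_apply_eq_zero_iff`), and `ψ ↦ ψ + ψ₀` changes the sign: `sg (a + 1) = - sg a`, `sg (a + b) = sg a * sg b`).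
Every `ψ ∈ Dual C` gives a functional on `I` which vanishes on `o (A')`, it extends to `W` (`LinearMap.exists_extend`, `ZMod 2` is a field: `Fact (Nat.Prime 2)`); choose the extension `0` for `ψ = 0`. `Ψ` = the set of the chosen extensions: `#Ψ = #C` (different on `I`), so
`#Ψ * #AT = #K0 * #IT * l` by `la_card`.
(2) For `h ∈ Hd`, `g ∈ G` the set `{a ∈ A : a - h ∈ A', o a = g}` is a coset of `K0` if `g - o h ∈ o (A')` and empty otherwise, so it has `#K0 [g - o h ∈ o (A')] = #K0 (1/#C) ∑_ψ sg (ψ (g - o h)) = (#K0 / #C) ∑_ψ sg (ψ (o h)) sg (ψ g)` elements. These sets are disjoint for different `(h, g)` (if `a - h, a - h' ∈ A'` then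
`h - h' ∈ A'`). Sum over `h, g`; `#K0 * (#IT * l) = #AT * #C`.
-/

set_option autoImplicit false

open scoped Classical

noncomputable section

namespace H48.T3

variable {V W : Type} [AddCommGroup V] [Module (ZMod 2) V] [AddCommGroup W] [Module (ZMod 2) W]

theorem z2_cases (a : ZMod 2) : a = 0 ∨ a = 1 := by
  fin_cases a
  · exact Or.inl rfl
  · exact Or.inr rfl

theorem sg_zero : sg 0 = 1 := if_pos rfl

theorem sg_one : sg 1 = -1 := if_neg (by exact one_ne_zero)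

theorem sg_add (a b : ZMod 2) : sg (a + b) = sg a * sg b := by
  rcases z2_cases a with rfl | rfl <;> rcases z2_cases b with rfl | rfl
  · rw [add_zero, sg_zero, one_mul]
  · rw [zero_add, sg_zero, one_mul]
  · rw [add_zero, sg_zero, mul_one]
  · rw [show (1 : ZMod 2) + 1 = 0 from rfl, sg_zero, sg_one]
    norm_num

private theorem sg_sub (a b : ZMod 2) : sg (a - b) = sg a * sg b := by
  rw [CharTwo.sub_eq_add, sg_add]

private theorem char_sum {C : Type} [AddCommGroup C] [Module (ZMod 2) C] [Finite C]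
    [Fintype (C →ₗ[ZMod 2] ZMod 2)] (x : C) :
    ∑ ψ : C →ₗ[ZMod 2] ZMod 2, sg (ψ x) = if x = 0 then (Nat.card C : ℝ) else 0 := by
  split_ifs with hx
  · subst hx
    simp only [map_zero, sg_zero, Finset.sum_const, Finset.card_univ, nsmul_eq_mul, mul_one]
    norm_cast
    rw [← Nat.card_eq_fintype_card,
      Module.natCard_eq_pow_finrank (K := ZMod 2) (V := C →ₗ[ZMod 2] ZMod 2),
      Module.natCard_eq_pow_finrank (K := ZMod 2) (V := C)]
    congr 1
    exact Subspace.dual_finrank_eq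
  · obtain ⟨ψ₀, hψ₀⟩ : ∃ ψ₀ : C →ₗ[ZMod 2] ZMod 2, ψ₀ x ≠ 0 := by
      by_contra hcon
      push Not at hcon
      exact hx ((Module.forall_dual_apply_eq_zero_iff (ZMod 2) x).1 hcon)
    have h1 : ψ₀ x = 1 := (z2_cases _).resolve_left hψ₀
    have h2 : ∑ ψ : C →ₗ[ZMod 2] ZMod 2, sg (ψ x) =
        ∑ ψ : C →ₗ[ZMod 2] ZMod 2, sg ((ψ + ψ₀) x) :=
      (Equiv.sum_comp (Equiv.addRight ψ₀) (fun ψ => sg (ψ x))).symm
    have h3 : ∀ ψ : C →ₗ[ZMod 2] ZMod 2, sg ((ψ + ψ₀) x) = - sg (ψ x) := by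
      intro ψ
      rw [LinearMap.add_apply, sg_add, h1, sg_one, mul_neg_one]
    simp only [h3, Finset.sum_neg_distrib] at h2
    linarith

/-- the fibre -/
private def Fb (o : V →ₗ[ZMod 2] W) (A A' : Submodule (ZMod 2) V) (x : V) (g : W) : Set V :=
  {a : V | a ∈ A ∧ a - x ∈ A' ∧ o a = g}

private theorem fb_fin {o : V →ₗ[ZMod 2] W} {A A' : Submodule (ZMod 2) V}
    (hK : Finite ↥(A' ⊓ LinearMap.ker o)) (x : V) (g : W) : (Fb o A A' x g).Finite := by
  have hKs : ((A' ⊓ LinearMap.ker o : Submodule (ZMod 2) V) : Set V).Finite := Set.toFinite _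
  rcases (Fb o A A' x g).eq_empty_or_nonempty with h0 | ⟨a0, h1, h2, h3⟩
  · rw [h0]; exact Set.finite_empty
  · refine (hKs.image (fun k => a0 + k)).subset ?_
    rintro a ⟨g1, g2, g3⟩
    refine ⟨a - a0, ⟨?_, ?_⟩, add_sub_cancel a0 a⟩
    · have : a - a0 = (a - x) - (a0 - x) := by abel
      rw [this]
      exact A'.sub_mem g2 h2
    · change o (a - a0) = 0
      rw [map_sub, g3, h3, sub_self]

private theorem fb_card {o : V →ₗ[ZMod 2] W} {A A' AT : Submodule (ZMod 2) V}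
    {I IT : Submodule (ZMod 2) W} (h : LAH o A A' AT I IT)
    [Finite (QI o A' I)] [Fintype (QI o A' I →ₗ[ZMod 2] ZMod 2)]
    (e : (QI o A' I →ₗ[ZMod 2] ZMod 2) → (W →ₗ[ZMod 2] ZMod 2))
    (he : ∀ ψ g (hg : g ∈ I), e ψ g = ψ (Submodule.Quotient.mk ⟨g, hg⟩))
    {x : V} (hx : x ∈ A) {g : W} (hg : g ∈ I) :
    ((Fb o A A' x g).ncard : ℝ) * Nat.card (QI o A' I) =
      Nat.card ↥(A' ⊓ LinearMap.ker o) * ∑ ψ, sg (e ψ (o x)) * sg (e ψ g) := by
  have hgx : g - o x ∈ I := I.sub_mem hg (h.oI x hx)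
  have h1 : ∀ ψ, sg (e ψ (o x)) * sg (e ψ g) =
      sg (ψ (Submodule.Quotient.mk ⟨g - o x, hgx⟩ : QI o A' I)) := by
    intro ψ
    rw [← he ψ (g - o x) hgx, map_sub, sg_sub, mul_comm]
  rw [Finset.sum_congr rfl (fun ψ _ => h1 ψ), char_sum]
  have h2 : (Submodule.Quotient.mk ⟨g - o x, hgx⟩ : QI o A' I) = 0 ↔ g - o x ∈ A'.map o := by
    rw [Submodule.Quotient.mk_eq_zero, Submodule.mem_comap]
    rfl
  by_cases h3 : g - o x ∈ A'.map o
  · rw [if_pos (h2.2 h3)]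
    obtain ⟨b, hb, hob⟩ := h3
    have h4 : Fb o A A' x g =
        (fun k => x + b + k) '' ((A' ⊓ LinearMap.ker o : Submodule (ZMod 2) V) : Set V) := by
      ext a
      constructor
      · rintro ⟨g1, g2, g3⟩
        refine ⟨a - (x + b), ⟨?_, ?_⟩, add_sub_cancel (x + b) a⟩
        · have : a - (x + b) = (a - x) - b := by abel
          change a - (x + b) ∈ A'
          rw [this]
          exact A'.sub_mem g2 hb
        · change o (a - (x + b)) = 0
          rw [map_sub, map_add, g3, hob]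
          abel
      · rintro ⟨k, ⟨k1, k2⟩, rfl⟩
        have k2' : o k = 0 := k2
        refine ⟨A.add_mem (A.add_mem hx (h.le' hb)) (h.le' k1), ?_, ?_⟩
        · have : x + b + k - x = b + k := by abel
          change x + b + k - x ∈ A'
          rw [this]
          exact A'.add_mem hb k1
        · change o (x + b + k) = g
          rw [map_add, map_add, hob, k2']
          abel
    rw [h4, Set.ncard_image_of_injective _ (add_right_injective (x + b))]
    rfl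
  · rw [if_neg (fun hh => h3 (h2.1 hh)), mul_zero]
    have h4 : Fb o A A' x g = ∅ := by
      rw [Set.eq_empty_iff_forall_notMem]
      rintro a ⟨g1, g2, g3⟩
      exact h3 ⟨a - x, g2, by rw [map_sub, g3]⟩
    rw [h4, Set.ncard_empty, Nat.cast_zero, zero_mul]

theorem la_main {o : V →ₗ[ZMod 2] W} {A A' AT : Submodule (ZMod 2) V}
    {I IT : Submodule (ZMod 2) W} (h : LAH o A A' AT I IT) :
    ∃ Ψ : Finset (W →ₗ[ZMod 2] ZMod 2), (0 : W →ₗ[ZMod 2] ZMod 2) ∈ Ψ ∧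
      (∀ ψ ∈ Ψ, ∀ a ∈ A', ψ (o a) = 0) ∧
      (∀ ψ ∈ Ψ, ∀ ψ' ∈ Ψ, (∀ g ∈ I, ψ g = ψ' g) → ψ = ψ') ∧
      Ψ.card * Nat.card AT = Nat.card ↥(A' ⊓ LinearMap.ker o) * Nat.card IT * Nat.card (QA A A') ∧
      ∀ (Hd : Finset V) (G : Finset W), (∀ x ∈ Hd, x ∈ A) →
        (∀ x ∈ Hd, ∀ x' ∈ Hd, x - x' ∈ A' → x = x') → (∀ g ∈ G, g ∈ I) →
        {a : V | a ∈ A ∧ (∃ x ∈ Hd, a - x ∈ A') ∧ o a ∈ G}.Finite ∧
        ({a : V | a ∈ A ∧ (∃ x ∈ Hd, a - x ∈ A') ∧ o a ∈ G}.ncard : ℝ) *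
            (Nat.card IT * Nat.card (QA A A') : ℕ) =
          Nat.card AT * ∑ ψ ∈ Ψ, (∑ x ∈ Hd, sg (ψ (o x))) * ∑ g ∈ G, sg (ψ g) := by
  obtain ⟨hQA, hQI, hK0, hcard⟩ := la_card h
  haveI := hQA
  haveI := hQI
  haveI := hK0
  haveI : Finite (QI o A' I →ₗ[ZMod 2] ZMod 2) :=
    Finite.of_injective (fun f => (f : QI o A' I → ZMod 2)) DFunLike.coe_injective
  haveI : Fintype (QI o A' I →ₗ[ZMod 2] ZMod 2) := Fintype.ofFinite _
  have hext : ∀ ψ : QI o A' I →ₗ[ZMod 2] ZMod 2, ∃ φ : W →ₗ[ZMod 2] ZMod 2,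
      (∀ g (hg : g ∈ I), φ g = ψ (Submodule.Quotient.mk ⟨g, hg⟩)) ∧ (ψ = 0 → φ = 0) := by
    intro ψ
    by_cases h0 : ψ = 0
    · exact ⟨0, fun g hg => by rw [h0]; rfl, fun _ => rfl⟩
    · obtain ⟨φ, hφ⟩ := LinearMap.exists_extend (ψ.comp (Submodule.mkQ _))
      refine ⟨φ, fun g hg => ?_, fun h => absurd h h0⟩
      have := LinearMap.congr_fun hφ ⟨g, hg⟩
      exact this
  choose e he he0 using hext
  have hinj : Function.Injective e := by
    intro ψ ψ' hψ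
    apply LinearMap.ext
    intro q
    obtain ⟨⟨g, hg⟩, rfl⟩ := Submodule.Quotient.mk_surjective _ q
    rw [← he ψ g hg, ← he ψ' g hg, hψ]
  have hvan : ∀ ψ, ∀ a ∈ A', e ψ (o a) = 0 := by
    intro ψ a ha
    rw [he ψ (o a) (h.oI a (h.le' ha))]
    have : (Submodule.Quotient.mk ⟨o a, h.oI a (h.le' ha)⟩ : QI o A' I) = 0 := by
      rw [Submodule.Quotient.mk_eq_zero, Submodule.mem_comap]
      exact Submodule.mem_map_of_mem ha
    rw [this, map_zero]
  have hcardΨ : (Finset.univ.image e).card = Nat.card (QI o A' I) := by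
    have h1 := char_sum (0 : QI o A' I)
    simp only [map_zero, sg_zero, Finset.sum_const, Finset.card_univ, nsmul_eq_mul, mul_one,
      if_true] at h1
    rw [Finset.card_image_of_injective _ hinj, Finset.card_univ]
    exact_mod_cast h1
  refine ⟨Finset.univ.image e, ?_, ?_, ?_, ?_, ?_⟩
  · exact Finset.mem_image.2 ⟨0, Finset.mem_univ _, he0 0 rfl⟩
  · intro ψ hψ a ha
    obtain ⟨ψ₁, -, rfl⟩ := Finset.mem_image.1 hψ
    exact hvan ψ₁ a ha
  · intro ψ hψ ψ' hψ' heq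
    obtain ⟨ψ₁, -, rfl⟩ := Finset.mem_image.1 hψ
    obtain ⟨ψ₂, -, rfl⟩ := Finset.mem_image.1 hψ'
    congr 1
    apply LinearMap.ext
    intro q
    obtain ⟨⟨g, hg⟩, rfl⟩ := Submodule.Quotient.mk_surjective _ q
    rw [← he ψ₁ g hg, ← he ψ₂ g hg, heq g hg]
  · rw [hcardΨ, hcard, mul_comm]
  · intro Hd G hHd hHd' hG
    have hS : {a : V | a ∈ A ∧ (∃ x ∈ Hd, a - x ∈ A') ∧ o a ∈ G} =
        ((Hd ×ˢ G).biUnion fun p => (fb_fin (A := A) hK0 p.1 p.2).toFinset : Finset V) := by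
      ext a
      rw [Finset.mem_coe, Finset.mem_biUnion]
      constructor
      · rintro ⟨h1, ⟨x, hx, hx'⟩, h3⟩
        exact ⟨(x, o a), Finset.mem_product.2 ⟨hx, h3⟩,
          (Set.Finite.mem_toFinset _).2 ⟨h1, hx', rfl⟩⟩
      · rintro ⟨⟨x, g⟩, hp, ha⟩
        obtain ⟨hx, hg⟩ := Finset.mem_product.1 hp
        obtain ⟨h1, h2, h3⟩ := (Set.Finite.mem_toFinset _).1 ha
        exact ⟨h1, ⟨x, hx, h2⟩, by rw [h3]; exact hg⟩
    rw [hS]
    refine ⟨Finset.finite_toSet _, ?_⟩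
    rw [Set.ncard_coe_finset, Finset.card_biUnion]
    · have h1 : ∀ p ∈ Hd ×ˢ G, ((fb_fin (A := A) hK0 p.1 p.2).toFinset.card : ℝ) *
          Nat.card (QI o A' I) = Nat.card ↥(A' ⊓ LinearMap.ker o) *
            ∑ ψ, sg (e ψ (o p.1)) * sg (e ψ p.2) := by
        rintro ⟨x, g⟩ hp
        obtain ⟨hx, hg⟩ := Finset.mem_product.1 hp
        rw [← fb_card h e he (hHd x hx) (hG g hg), Set.ncard_eq_toFinset_card _ (fb_fin hK0 x g)]
      have h2 : (∑ p ∈ Hd ×ˢ G, ((fb_fin (A := A) hK0 p.1 p.2).toFinset.card : ℝ)) *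
          Nat.card (QI o A' I) = Nat.card ↥(A' ⊓ LinearMap.ker o) *
            ∑ ψ, (∑ x ∈ Hd, sg (e ψ (o x))) * ∑ g ∈ G, sg (e ψ g) := by
        rw [Finset.sum_mul, Finset.sum_congr rfl h1, ← Finset.mul_sum, Finset.sum_comm]
        congr 1
        refine Finset.sum_congr rfl fun ψ _ => ?_
        rw [Finset.sum_mul_sum, Finset.sum_product]
      have h3 : (Nat.card ↥(A' ⊓ LinearMap.ker o) : ℝ) * (Nat.card IT * Nat.card (QA A A') : ℕ) =
          Nat.card AT * Nat.card (QI o A' I) := by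
        rw [← Nat.cast_mul, ← Nat.cast_mul, ← hcard, mul_assoc]
      have h4 : (Nat.card (QI o A' I) : ℝ) ≠ 0 := by
        exact_mod_cast Nat.card_pos.ne'
      rw [Finset.sum_image (fun a _ b _ hab => hinj hab)]
      apply mul_right_cancel₀ h4
      rw [Nat.cast_sum]
      calc _ = ((∑ p ∈ Hd ×ˢ G, ((fb_fin (A := A) hK0 p.1 p.2).toFinset.card : ℝ)) *
          Nat.card (QI o A' I)) * (Nat.card IT * Nat.card (QA A A') : ℕ) := by ring
        _ = (Nat.card ↥(A' ⊓ LinearMap.ker o) * (Nat.card IT * Nat.card (QA A A') : ℕ)) *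
            ∑ ψ, (∑ x ∈ Hd, sg (e ψ (o x))) * ∑ g ∈ G, sg (e ψ g) := by rw [h2]; ring
        _ = _ := by rw [h3]; ring
    · rintro ⟨x, g⟩ hp ⟨x', g'⟩ hp' hne
      rw [Function.onFun, Finset.disjoint_left]
      intro a ha ha'
      obtain ⟨h1, h2, h3⟩ := (Set.Finite.mem_toFinset _).1 ha
      obtain ⟨h1', h2', h3'⟩ := (Set.Finite.mem_toFinset _).1 ha'
      apply hne
      have hxx : x = x' := by
        apply hHd' x (Finset.mem_product.1 hp).1 x' (Finset.mem_product.1 hp').1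
        have : x - x' = (a - x') - (a - x) := by abel
        rw [this]
        exact A'.sub_mem h2' h2
      have hgg : g = g' := h3.symm.trans h3'
      rw [hxx, hgg]

end H48.T3
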