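import Pool.Agent.H48.T3.TOv
import Pool.Agent.H48.T3.LAb

/-!
# [H48 T3 GVI] the vectors `gv c S P` and admissible sets, 120-180 lines. File Pool/Agent/H48/T3/GvI.lean

`τ` acts on the primes by `tp c.τ`, `τ³ = 1` (`cb_pcube`), injective (`cb_inj`); `P` is over `S` iff `τ P` is (`tp_over`). `gv c S P` is the indicator of `{τ P, τ² P}` if `P` is not over `S` and `τ P ≠ P`, otherwise `0`.
* `gv_mem`: support finite; if `R` is over `S` then `R ≠ τ P, τ² P`; the sum over the orbit `{R, τ R, τ² R}` is `0` or `1 + 1` (if the orbit contains `P`, exactly two of its three different elements are in `{τ P, τ² P}`; if `τ R = R` then `R` is not in the orbit of `P`, the sum is `3 * 0`).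
* `gv_tri`: same orbit consideration.
* `gv_sum`: `f = {P : g P = 0, g (τ P) = 1}` (finite: `g (τ P) ≠ 0`, `cb_inj`). Admissible: `g (τ P) = 1`, so `τ P` is not over `S`, nor `P`; `τ P ≠ P`; `τ P ∉ f` (`g (τ P) ≠ 0`); `g (τ² P) = 1` by `Ig`, so `τ² P ∉ f`. `g R = (∑_{P ∈ f} gv P) R`: if `g R = 1`: then exactly one of `g (τ R)`, `g (τ² R)` is `1` (their sum is `1`), so exactly one of
  `τ² R` (if `g (τ² R) = 0`: `g (τ τ² R) = g R = 1`), `τ R` (if `g (τ R) = 0`: `g (τ² R) = 1`) is in `f`, and `R ∈ {τ P, τ² P}` for this `P` only; if `g R = 0`: if `R = τ P` or `τ² P` with `P ∈ f` then `g R = 1`, contradiction.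
* `gv_set`: for admissible `f` the set `{P : g P = 0, g (τ P) = 1}` for `g = ∑_{P ∈ f} gv P` is `f` (at most one `P ∈ f` in every orbit). So `nrI c g = nr f`.
* `gi_sum`: `Gs` = image of the admissible `f ∈ AF c.F Y` under `f ↦ ∑_{P ∈ f} gv P` (injective by `gv_set`); `sg (ψ (∑ gv P)) = ∏ sg (ψ (gv P))` (`sg_add`, LAb.lean; induction).
-/

set_option autoImplicit false

open scoped NumberField Classical
open IsDedekindDomain H38.ML H63.MA

noncomputable section

namespace H48.T3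

open H48.KV

variable {K : IntermediateField ℚ QBar} [NumberField K]

private theorem gi_t1 (c : Cub K) (P R : Pl c.F) : R = tp c.τ P ↔ P = tp c.τ (tp c.τ R) := by
  constructor
  · rintro rfl
    exact (cb_pcube c P).symm
  · rintro rfl
    exact (cb_pcube c R).symm

private theorem gi_t2 (c : Cub K) (P R : Pl c.F) : R = tp c.τ (tp c.τ P) ↔ P = tp c.τ R := by
  constructor
  · rintro rfl
    exact (cb_pcube c P).symm
  · rintro rfl
    exact (cb_pcube c R).symm

private theorem gi_ov (c : Cub K) (S : Finset (Pl K)) (P : Pl c.F) : OvS c S (tp c.τ P) ↔ OvS c S P := by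
  unfold OvS
  simp only [tp_over]

/-- the good primes -/
private def GoodP (c : Cub K) (S : Finset (Pl K)) (P : Pl c.F) : Prop := ¬ OvS c S P ∧ tp c.τ P ≠ P

private theorem gi_good (c : Cub K) (S : Finset (Pl K)) (P : Pl c.F) : GoodP c S (tp c.τ P) ↔ GoodP c S P := by
  unfold GoodP
  rw [gi_ov]
  refine and_congr_right fun _ => ?_
  exact not_congr (cb_inj c).eq_iff

private theorem gi_val (c : Cub K) (S : Finset (Pl K)) (P R : Pl c.F) :
    gv c S P R = if GoodP c S P then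
      ((if P = tp c.τ (tp c.τ R) then 1 else 0) + (if P = tp c.τ R then 1 else 0)) else 0 := by
  unfold gv
  by_cases h : GoodP c S P
  · rw [if_pos h]
    by_cases h1 : P = tp c.τ (tp c.τ R)
    · have h2 : P ≠ tp c.τ R := by
        intro h2
        apply h.2
        nth_rw 1 [h2]
        exact h1.symm
      rw [if_pos ⟨h.1, h.2, Or.inl ((gi_t1 c P R).2 h1)⟩, if_pos h1, if_neg h2, add_zero]
    · rw [if_neg h1, zero_add]
      by_cases h2 : P = tp c.τ R
      · rw [if_pos ⟨h.1, h.2, Or.inr ((gi_t2 c P R).2 h2)⟩, if_pos h2]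
      · rw [if_neg h2, if_neg]
        rintro ⟨_, _, h3⟩
        exact h3.elim (fun h4 => h1 ((gi_t1 c P R).1 h4)) fun h4 => h2 ((gi_t2 c P R).1 h4)
  · rw [if_neg h, if_neg]
    rintro ⟨h1, h2, _⟩
    exact h ⟨h1, h2⟩

private theorem gi_two (x : ZMod 2) : x + x = 0 := by
  rcases z2_cases x with rfl | rfl <;> decide

private theorem gi_six (a b d : ZMod 2) : (a + b) + (b + d) + (d + a) = 0 := by
  have h : (a + b) + (b + d) + (d + a) = (a + a) + (b + b) + (d + d) := by ring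
  rw [h, gi_two a, gi_two b, gi_two d]
  simp

theorem gv_mem (c : Cub K) (S : Finset (Pl K)) (P : Pl c.F) : gv c S P ∈ Ig c S := by
  refine ⟨?_, fun R hR => ?_, fun R => ?_⟩
  · refine (Set.toFinite {tp c.τ P, tp c.τ (tp c.τ P)}).subset fun R hR => ?_
    by_contra h
    apply hR
    unfold gv
    rw [if_neg]
    rintro ⟨_, _, h3⟩
    exact h h3
  · unfold gv
    rw [if_neg]
    rintro ⟨h1, _, h3⟩
    apply h1
    rcases h3 with rfl | rfl
    · rwa [gi_ov] at hR
    · rwa [gi_ov, gi_ov] at hR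
  · rw [gi_val, gi_val, gi_val, cb_pcube c R]
    by_cases h : GoodP c S P
    · simp only [if_pos h]
      have h6 := gi_six (if P = tp c.τ R then 1 else 0) (if P = tp c.τ (tp c.τ R) then 1 else 0) (if P = R then 1 else 0)
      linear_combination h6
    · simp only [if_neg h, add_zero]

theorem gv_tri (c : Cub K) (S : Finset (Pl K)) (P : Pl c.F) :
    gv c S P + gv c S (tp c.τ P) + gv c S (tp c.τ (tp c.τ P)) = 0 := by
  funext R
  rw [Pi.add_apply, Pi.add_apply, Pi.zero_apply, gi_val, gi_val, gi_val]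
  simp only [gi_good]
  by_cases h : GoodP c S P
  · simp only [if_pos h]
    have e1 : (tp c.τ P = tp c.τ (tp c.τ R)) ↔ P = tp c.τ R := (cb_inj c).eq_iff
    have e2 : (tp c.τ P = tp c.τ R) ↔ P = R := (cb_inj c).eq_iff
    have e3 : (tp c.τ (tp c.τ P) = tp c.τ (tp c.τ R)) ↔ P = R := (cb_inj c).eq_iff.trans (cb_inj c).eq_iff
    have e4 : (tp c.τ (tp c.τ P) = tp c.τ R) ↔ P = tp c.τ (tp c.τ R) := by
      rw [← (cb_inj c).eq_iff, cb_pcube]
    simp only [e1, e2, e3, e4]
    have h6 := gi_six (if P = tp c.τ R then 1 else 0) (if P = tp c.τ (tp c.τ R) then 1 else 0) (if P = R then 1 else 0)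
    linear_combination h6
  · simp only [if_neg h, add_zero]

private theorem gi_sumval (c : Cub K) (S : Finset (Pl K)) (f : Finset (Pl c.F)) (hf : ∀ P ∈ f, GoodP c S P)
    (R : Pl c.F) : (∑ P ∈ f, gv c S P) R =
      (if tp c.τ (tp c.τ R) ∈ f then 1 else 0) + (if tp c.τ R ∈ f then 1 else 0) := by
  rw [Finset.sum_apply, Finset.sum_congr rfl fun P hP => (gi_val c S P R).trans (if_pos (hf P hP)),
    Finset.sum_add_distrib, Finset.sum_ite_eq', Finset.sum_ite_eq']

theorem gv_sum (c : Cub K) (S : Finset (Pl K)) (g : Pl c.F → ZMod 2) (hg : g ∈ Ig c S) :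
    ∃ f : Finset (Pl c.F), AdmC c S f ∧ g = ∑ P ∈ f, gv c S P := by
  have hfin : {P : Pl c.F | g P = 0 ∧ g (tp c.τ P) = 1}.Finite := by
    refine (hg.1.preimage (f := tp c.τ) (cb_inj c).injOn).subset fun P hP => ?_
    have h1 : g (tp c.τ P) = 1 := hP.2
    exact Function.mem_support.2 (by rw [h1]; exact one_ne_zero)
  have hmem : ∀ P, P ∈ hfin.toFinset ↔ g P = 0 ∧ g (tp c.τ P) = 1 := fun P => hfin.mem_toFinset
  have hadm : AdmC c S hfin.toFinset := by
    intro P hP
    rw [hmem] at hP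
    refine ⟨fun ho => ?_, fun he => ?_, fun hm => ?_, fun hm => ?_⟩
    · have h1 := hg.2.1 (tp c.τ P) ((gi_ov c S P).2 ho)
      rw [hP.2] at h1
      exact one_ne_zero h1
    · have h1 := hP.2
      rw [he, hP.1] at h1
      exact zero_ne_one h1
    · rw [hmem, hP.2] at hm
      exact one_ne_zero hm.1
    · rw [hmem] at hm
      have h1 := hg.2.2 P
      rw [hP.1, hP.2, hm.1, add_zero, zero_add] at h1
      exact one_ne_zero h1
  refine ⟨hfin.toFinset, hadm, ?_⟩
  funext R
  rw [gi_sumval c S _ (fun P hP => ⟨(hadm P hP).1, (hadm P hP).2.1⟩) R]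
  simp only [hmem, cb_pcube]
  have h1 := hg.2.2 R
  rcases z2_cases (g R) with a | a <;> rcases z2_cases (g (tp c.τ R)) with b | b <;>
    rcases z2_cases (g (tp c.τ (tp c.τ R))) with d | d <;> rw [a, b, d] at h1 ⊢ <;> revert h1 <;> simp
  decide

theorem gv_set (c : Cub K) (S : Finset (Pl K)) (f : Finset (Pl c.F)) (hf : AdmC c S f)
    (P : Pl c.F) : P ∈ f ↔ (∑ R ∈ f, gv c S R) P = 0 ∧ (∑ R ∈ f, gv c S R) (tp c.τ P) = 1 := by
  rw [gi_sumval c S f (fun P hP => ⟨(hf P hP).1, (hf P hP).2.1⟩) P,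
    gi_sumval c S f (fun P hP => ⟨(hf P hP).1, (hf P hP).2.1⟩) (tp c.τ P), cb_pcube]
  constructor
  · intro hP
    have h := hf P hP
    rw [if_neg h.2.2.1, if_neg h.2.2.2, if_pos hP, add_zero, add_zero]
    exact ⟨rfl, rfl⟩
  · rintro ⟨h1, h2⟩
    by_cases h3 : tp c.τ (tp c.τ P) ∈ f
    · have h := hf _ h3
      rw [cb_pcube] at h
      rw [if_pos h3, if_neg h.2.2.2, add_zero] at h1
      exact absurd h1 one_ne_zero
    · rw [if_neg h3, add_zero] at h2
      by_contra h4
      rw [if_neg h4] at h2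
      exact zero_ne_one h2

theorem gv_nr (c : Cub K) (S : Finset (Pl K)) (f : Finset (Pl c.F)) (hf : AdmC c S f) :
    nrI c (∑ R ∈ f, gv c S R) = nr f := by
  unfold nrI nr
  have h : {P : Pl c.F | (∑ R ∈ f, gv c S R) P = 0 ∧ (∑ R ∈ f, gv c S R) (tp c.τ P) = 1} = (f : Set (Pl c.F)) := by
    ext P
    exact (gv_set c S f hf P).symm
  rw [h, finprod_mem_coe_finset]

private theorem gi_sgsum {ι : Type} (f : Finset ι) (a : ι → ZMod 2) : sg (∑ P ∈ f, a P) = ∏ P ∈ f, sg (a P) := by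
  induction f using Finset.induction_on with
  | empty => rw [Finset.sum_empty, Finset.prod_empty, sg_zero]
  | insert x s hx ih => rw [Finset.sum_insert hx, Finset.prod_insert hx, sg_add, ih]

theorem gi_sum (c : Cub K) (S : Finset (Pl K)) (Y : ℝ) : ∃ Gs : Finset (Pl c.F → ZMod 2),
    (∀ g, g ∈ Gs ↔ g ∈ Ig c S ∧ nrI c g ≤ Y) ∧
    ∀ ψ : (Pl c.F → ZMod 2) →ₗ[ZMod 2] ZMod 2,
      ∑ g ∈ Gs, sg (ψ g) =
        ∑ f ∈ (AF c.F Y).filter (fun f => AdmC c S f), ∏ P ∈ f, sg (ψ (gv c S P)) := by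
  refine ⟨((AF c.F Y).filter (fun f => AdmC c S f)).image fun f => ∑ P ∈ f, gv c S P, fun g => ?_, fun ψ => ?_⟩
  · rw [Finset.mem_image]
    constructor
    · rintro ⟨f, hf, rfl⟩
      rw [Finset.mem_filter, mem_AF] at hf
      refine ⟨Submodule.sum_mem _ fun P _ => gv_mem c S P, ?_⟩
      rw [gv_nr c S f hf.2]
      exact hf.1
    · rintro ⟨h1, h2⟩
      obtain ⟨f, hf, rfl⟩ := gv_sum c S g h1
      rw [gv_nr c S f hf] at h2
      exact ⟨f, Finset.mem_filter.2 ⟨mem_AF.2 h2, hf⟩, rfl⟩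
  · rw [Finset.sum_image]
    · refine Finset.sum_congr rfl fun f _ => ?_
      rw [map_sum, gi_sgsum]
    · intro f hf f' hf' h
      have h1 := (Finset.mem_filter.1 hf).2
      have h2 := (Finset.mem_filter.1 hf').2
      ext P
      rw [gv_set c S f h1 P, gv_set c S f' h2 P]
      have h3 : (∑ P ∈ f, gv c S P) = ∑ P ∈ f', gv c S P := h
      rw [h3]

end H48.T3
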