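import Pool.Agent.H48.T3.GvI

/-!
# [H48 T3 OGV] the parities of `τ x · τ² x`, 60-100 lines. File Pool/Agent/H48/T3/Ogv.lean

`of_mem`: `x = v2 a`, `norm a` a square; support finite (`finite_ord`), zero over `S` (definition of `oF`), third condition: `cb_sum` (`P` is over `S` iff `τ P` is: `tp_over`). Now let `a = τ x * τ² x`. `og_sq`: `a * τ a * τ² a = (x * τ x * τ² x)²` (`cb_ucube`), `cb_sq2`. `og_sum`: at `R` over `S` both sides are `0` (`gv P R = 0`: `gv_mem`). For `R` not over `S`: `ord R (τ x) = ord (τ⁻¹ R) x`, i.e. `tp_ord`: `ord (tp τ P) (tu τ x) = ord P x`; `τ⁻¹ R = τ² R` (`cb_pcube`), so `ord R (τ x) = ord (τ² R) x`, `ord R (τ² x) = ord (τ R) x`, and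
`oF c S a R = ord (τ² R) x + ord (τ R) x` modulo 2. Right side: `∑_{P ∈ E} (ord P x) gv P R`: if `τ R = R`: `gv P R = 0` for all `P` (if `R = τ P` or `τ² P` then `P = R` and `τ P = P`), and the left side is `2 ord R x = 0`. If `τ R ≠ R`: `gv P R = 1` iff `P = τ² R` or `P = τ R` (two different primes, not over `S`), and the terms outside `E` are `0`.
-/

set_option autoImplicit false

open scoped NumberField Classical
open IsDedekindDomain H38.ML H63.MA

noncomputable section

namespace H48.T3

open H48.KV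

variable {K : IntermediateField ℚ QBar} [NumberField K]

theorem og_sq (c : Cub K) (x : c.Fˣ) :
    IsSquare (Algebra.norm K ((tu c.τ x * tu c.τ (tu c.τ x) : c.Fˣ) : c.F)) := by
  refine cb_sq2 c _ (x * tu c.τ x * tu c.τ (tu c.τ x)) ?_
  rw [map_mul, map_mul, cb_ucube c x, sq]
  generalize tu c.τ (tu c.τ x) = z
  generalize tu c.τ x = y
  simp only [mul_comm, mul_left_comm, mul_assoc]

private theorem ov_tp (c : Cub K) (S : Finset (Pl K)) (P : Pl c.F) :
    OvS c S (tp c.τ P) ↔ OvS c S P := by
  unfold OvS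
  exact exists_congr fun l => and_congr_right fun _ => tp_over c.τ P l

private theorem ord_t1 (c : Cub K) (R : Pl c.F) (x : c.Fˣ) :
    ord R (tu c.τ x) = ord (tp c.τ (tp c.τ R)) x := by
  conv_lhs => rw [← cb_pcube c R]
  exact tp_ord c.τ _ x

private theorem ord_t2 (c : Cub K) (R : Pl c.F) (x : c.Fˣ) :
    ord R (tu c.τ (tu c.τ x)) = ord (tp c.τ R) x := by
  rw [ord_t1, ord_t1, cb_pcube c]

theorem og_sum (c : Cub K) (S : Finset (Pl K)) (x : c.Fˣ) (E : Finset (Pl c.F))
    (hE : ∀ P, P ∉ E → ord P x = 0) :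
    oF c S (tu c.τ x * tu c.τ (tu c.τ x)) = ∑ P ∈ E, (ord P x : ZMod 2) • gv c S P := by
  funext R
  rw [Finset.sum_apply]
  by_cases hR : OvS c S R
  · rw [oF, if_pos hR]
    symm
    refine Finset.sum_eq_zero fun P _ => ?_
    rw [Pi.smul_apply, gv, if_neg, smul_zero]
    rintro ⟨h1, _, h2 | h2⟩
    · exact h1 ((ov_tp c S P).1 (h2 ▸ hR))
    · exact h1 ((ov_tp c S P).1 ((ov_tp c S _).1 (h2 ▸ hR)))
  · rw [oF, if_neg hR, ord_mul, ord_t1, ord_t2, Int.cast_add]
    have hc := cb_pcube c R
    by_cases hf : tp c.τ R = R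
    · rw [hf, hf]
      rw [CharTwo.add_self_eq_zero]
      symm
      refine Finset.sum_eq_zero fun P _ => ?_
      rw [Pi.smul_apply, gv, if_neg, smul_zero]
      rintro ⟨_, h1, h2 | h2⟩
      · subst h2
        exact h1 (cb_inj c hf)
      · subst h2
        exact h1 (cb_inj c (cb_inj c hf))
    · have h2 : tp c.τ (tp c.τ R) ≠ tp c.τ R := fun h => hf (cb_inj c h)
      have h3 : tp c.τ (tp c.τ R) ≠ R := by
        intro h
        rw [h] at hc
        exact hf hc
      have key : ∀ P, ((ord P x : ZMod 2) • gv c S P) R =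
          (if P = tp c.τ (tp c.τ R) then (ord P x : ZMod 2) else 0) +
            (if P = tp c.τ R then (ord P x : ZMod 2) else 0) := by
        intro P
        rw [Pi.smul_apply, smul_eq_mul, gv]
        by_cases hP : P = tp c.τ (tp c.τ R)
        · subst hP
          rw [if_pos, if_pos rfl, if_neg h2, mul_one, add_zero]
          refine ⟨?_, ?_, Or.inl hc.symm⟩
          · rw [ov_tp, ov_tp]
            exact hR
          · rw [hc]
            exact fun h => h3 h.symm
        · by_cases hP2 : P = tp c.τ R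
          · subst hP2
            rw [if_pos, if_neg (Ne.symm h2), if_pos rfl, mul_one, zero_add]
            refine ⟨?_, h2, Or.inr hc.symm⟩
            rw [ov_tp]
            exact hR
          · rw [if_neg, if_neg hP, if_neg hP2, mul_zero, add_zero]
            rintro ⟨_, _, h4 | h4⟩
            · apply hP
              rw [h4, cb_pcube c P]
            · apply hP2
              rw [h4, cb_pcube c P]
      rw [Finset.sum_congr rfl fun P _ => key P, Finset.sum_add_distrib, Finset.sum_ite_eq',
        Finset.sum_ite_eq']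
      congr 1
      · split_ifs with h
        · rfl
        · rw [hE _ h, Int.cast_zero]
      · split_ifs with h
        · rfl
        · rw [hE _ h, Int.cast_zero]

/-- the parities of an element of square norm are in `Ig` -/
theorem of_mem (c : Cub K) (S : Finset (Pl K)) (x : V2 c.F) (hx : x ∈ VA c) :
    oL c S x ∈ Ig c S := by
  obtain ⟨a, rfl, ha⟩ := hx
  rw [oL_v2]
  refine ⟨?_, ?_, ?_⟩
  · refine (finite_ord a).subset fun P hP => ?_
    rw [Function.mem_support, oF] at hP
    intro h
    apply hP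
    split_ifs
    · rfl
    · rw [h, Int.cast_zero]
  · intro P hP
    rw [oF, if_pos hP]
  · intro P
    by_cases hP : OvS c S P
    · rw [oF, oF, oF, if_pos hP, if_pos ((ov_tp c S P).2 hP),
        if_pos ((ov_tp c S _).2 ((ov_tp c S P).2 hP)), add_zero, add_zero]
    · rw [oF, oF, oF, if_neg hP, if_neg (fun h => hP ((ov_tp c S P).1 h)),
        if_neg (fun h => hP ((ov_tp c S P).1 ((ov_tp c S _).1 h)))]
      have h := cb_sum c a ha P
      rw [← Int.cast_add, ← Int.cast_add]
      exact (ZMod.intCast_zmod_eq_zero_iff_dvd _ 2).2 (by exact_mod_cast h.two_dvd)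

end H48.T3
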