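import Pool.Agent.H48.T3.Cls
import Pool.Agent.H48.T3.GvI
import Pool.Agent.H48.T3.Ogv

/-!
# [H48 T3 CLR] the class and the ramification, 100-150 lines. File Pool/Agent/H48/T3/ClR.lean

`φ₀ = s ∘ χ`, `v2 a = cl φ`, `Kc φ φ₀ a` (`hcl.kc`), `oL c S (cl φ) P = ord P a` mod 2 for `P` not over `S` (`oL_v2`, `oF`). `l ∉ S`, so `l` is not above 2 (`h2`).
`cl_tv` (→): `l ∈ TV k Q S φ`: the inertia group `I` at `Q.P l` is mapped to `V` and some `φ σ ≠ 1`, `σ ∈ I`. `χ = k.pi ∘ φ = 1` on `I` (`k.piV`), so `φ₀ = 1` on `I`. `loc_odd'` (KLa.lean) gives `P` over `l` with `ord P a` odd; `P` is not over `S` (a prime lies over one prime of `K` only).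
(←): `P` over `l`, `ord P a` odd. If `φ = φ₀` on `I` then `ord P a` is even by `loc_even` (KV/LocA.lean): contradiction; so `φ σ ≠ φ₀ σ` for some `σ ∈ I`. It remains to see that `χ = 1` on `I` (then `φ (I) ⊆ V` by `H.hk`, `φ₀ = 1` on `I`). `c.τ P ≠ P`: otherwise `3 ord P a` is even by `cb_sum`. So `l` has three primes over it and `F/K` is unramified at `l`: let `σ ∈ I`;
its restriction to `F` is in the decomposition group of the prime `P₁ = Q.P l ∩ 𝓞 F` (`σ x - x ∈ Q.P l`), it is `1`, `τ` or `τ²`, and `τ P₁ ≠ P₁`, `τ² P₁ ≠ P₁` (`ov_card`), so it is `1` and `χ σ = 1` (`H.fd.fix`).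
`cl_nr`: let `g = oL c S (cl φ) ∈ Ig` (`of_mem`), `g = ∑_{P ∈ f} gv P`, `f` admissible (`gv_sum`), `nrI c g = nr f` (`gv_nr`). The set `T` of the primes below the `P ∈ f` is `TV k Q S φ` (`cl_tv`: `g R ≠ 0` iff `R ∈ {τ P, τ² P}` for a `P ∈ f`; `R`, `P` lie over the same prime) and `nr T = nr f` (different `P ∈ f` are in different orbits so over different
primes (`cb_tr`); `cb_deg`). If all `l ∈ q` are in `TV` then `q ⊆ T` and `nr q ≤ nr T` (`nr_mono`).
-/

set_option autoImplicit false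

open scoped NumberField Classical
open IsDedekindDomain H38.ML H63.MA

noncomputable section

namespace H48.T3

open H48.KV

variable {K : IntermediateField ℚ QBar} [NumberField K]

variable {G : Type} [Group G] {k : KV G}

private theorem z3 (a b : Multiplicative (ZMod 3)) (h : a ≠ 1) : b = 1 ∨ b = a ∨ b = a ^ 2 := by
  revert a b
  decide

omit [NumberField K] in
private theorem sg_res {φ₀ : Gal(QBar/K) →* G} {F : IntermediateField K QBar} {γ : Gal(QBar/K)}
    {τ : F ≃ₐ[K] F} (h : FD k φ₀ F γ τ) (σ : Gal(QBar/K)) :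
    k.pi (φ₀ σ) = 1 ∨ (∀ y : F, σ (y : QBar) = ((τ y : F) : QBar)) ∨
      (∀ y : F, σ (y : QBar) = ((τ (τ y) : F) : QBar)) := by
  rcases z3 _ (k.pi (φ₀ σ)) h.ga with h1 | h1 | h1
  · exact Or.inl h1
  · right; left
    intro y
    have h2 : γ⁻¹ * σ ∈ F.fixingSubgroup := by
      rw [h.fix, map_mul, map_mul, map_inv, map_inv, h1, inv_mul_cancel]
    have h3 : (γ⁻¹ * σ) (y : QBar) = y :=
      (IntermediateField.mem_fixingSubgroup_iff _ _).1 h2 _ y.2
    have h4 : γ ((γ⁻¹ * σ) (y : QBar)) = σ y := by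
      rw [← AlgEquiv.mul_apply, mul_inv_cancel_left]
    rw [← h4, h3, h.res]
  · right; right
    intro y
    have h2 : (γ ^ 2)⁻¹ * σ ∈ F.fixingSubgroup := by
      rw [h.fix, map_mul, map_mul, map_inv, map_inv, map_pow, map_pow, h1, inv_mul_cancel]
    have h3 : ((γ ^ 2)⁻¹ * σ) (y : QBar) = y :=
      (IntermediateField.mem_fixingSubgroup_iff _ _).1 h2 _ y.2
    have h4 : (γ ^ 2) (((γ ^ 2)⁻¹ * σ) (y : QBar)) = σ y := by
      rw [← AlgEquiv.mul_apply, mul_inv_cancel_left]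
    rw [← h4, h3, sq, AlgEquiv.mul_apply, h.res, h.res]

private theorem in_fix (c : Cub K) {φ₀ : Gal(QBar/K) →* G} {γ : Gal(QBar/K)}
    (h : FD k φ₀ c.F γ c.τ) (Q : DP K QBar) (l : Pl K) (P : Pl c.F) (hP : Over P l)
    (hne : tp c.τ P ≠ P) (σ : Gal(QBar/K)) (hσ : σ ∈ (Q.P l).inertia Gal(QBar/K)) :
    k.pi (φ₀ σ) = 1 := by
  have hQp := Q.prime l
  have hBF : ((Q.P l).under (𝓞 c.F)).comap (algebraMap (𝓞 K) (𝓞 c.F)) = l.asIdeal := by
    rw [← Q.under l]
    ext x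
    exact Iff.rfl
  let P₁ : Pl c.F :=
    { asIdeal := (Q.P l).under (𝓞 c.F)
      isPrime := Ideal.IsPrime.under _ _
      ne_bot := by
        intro h0
        apply l.ne_bot
        rw [← hBF, h0]
        exact Ideal.comap_bot_of_injective _ (FaithfulSMul.algebraMap_injective (𝓞 K) (𝓞 c.F)) }
  have hP₁ : Over P₁ l := hBF
  have hne1 : tp c.τ P₁ ≠ P₁ := by
    obtain ⟨f, hf, h1⟩ := ov_card c l
    rcases h1 with ⟨-, -, h1⟩ | ⟨h1, -, -⟩
    · exact h1 P₁ ((hf P₁).2 hP₁)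
    · exact absurd ⟨P, hP, hne⟩ h1
  have hne2 : tp c.τ (tp c.τ P₁) ≠ P₁ := by
    intro h2
    have h3 := cb_pcube c P₁
    rw [h2] at h3
    exact hne1 h3
  have key : ∀ x y : 𝓞 c.F, σ ((y : c.F) : QBar) = ((x : c.F) : QBar) →
      (x ∈ P₁.asIdeal ↔ y ∈ P₁.asIdeal) := by
    intro x y hxy
    have h2 : σ • (algebraMap (𝓞 c.F) (𝓞 QBar) y) = algebraMap (𝓞 c.F) (𝓞 QBar) x :=
      NumberField.RingOfIntegers.ext hxy
    have h3 : σ • (algebraMap (𝓞 c.F) (𝓞 QBar) y) - algebraMap (𝓞 c.F) (𝓞 QBar) y ∈ Q.P l :=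
      hσ (algebraMap (𝓞 c.F) (𝓞 QBar) y)
    rw [h2] at h3
    change algebraMap (𝓞 c.F) (𝓞 QBar) x ∈ Q.P l ↔ algebraMap (𝓞 c.F) (𝓞 QBar) y ∈ Q.P l
    constructor
    · intro hx
      have h4 := (Q.P l).sub_mem hx h3
      rwa [sub_sub_cancel] at h4
    · intro hy
      have h4 := (Q.P l).add_mem h3 hy
      rwa [sub_add_cancel] at h4
  rcases sg_res h σ with h1 | h1 | h1
  · exact h1
  · exfalso
    apply hne1
    apply HeightOneSpectrum.ext
    ext x
    rw [tp_mem]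
    refine (key x _ ?_).symm
    rw [h1]
    refine congrArg Subtype.val ?_
    change c.τ (c.τ.symm (x : c.F)) = x
    rw [AlgEquiv.apply_symm_apply]
  · exfalso
    apply hne2
    apply HeightOneSpectrum.ext
    ext x
    rw [tp_mem, tp_mem]
    refine (key x _ ?_).symm
    rw [h1]
    refine congrArg Subtype.val ?_
    change c.τ (c.τ (c.τ.symm (c.τ.symm (x : c.F)))) = x
    rw [AlgEquiv.apply_symm_apply, AlgEquiv.apply_symm_apply]

private theorem st_eqv {χ : Gal(QBar/K) →* Multiplicative (ZMod 3)} {c : Cub K}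
    {s : Multiplicative (ZMod 3) →* G} {γ : Gal(QBar/K)} (H : Std k χ c s γ)
    {φ : Gal(QBar/K) →* G} (hφ : φ ∈ LW k χ) : Eqv k φ (s.comp χ) := by
  rw [hk_eqv k H.hk, hφ.2]
  refine MonoidHom.ext fun σ => ?_
  exact (H.hs (χ σ)).symm

theorem cl_tv {χ : Gal(QBar/K) →* Multiplicative (ZMod 3)} {c : Cub K}
    {s : Multiplicative (ZMod 3) →* G} {γ : Gal(QBar/K)} (H : Std k χ c s γ)
    {cl : (Gal(QBar/K) →* G) → V2 c.F} (hcl : ClD k χ c s cl) (S : Finset (Pl K))
    (h2 : ∀ v : Pl K, Above 2 v → v ∈ S) (Q : DP K QBar) (φ : Gal(QBar/K) →* G)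
    (hφ : φ ∈ LW k χ) (l : Pl K) (hl : l ∉ S) :
    l ∈ TV k Q S φ ↔ ∃ P : Pl c.F, Over P l ∧ oL c S (cl φ) P ≠ 0 := by
  have hE : Eqv k φ (s.comp χ) := st_eqv H hφ
  have hs : Function.Surjective (k.pi.comp (s.comp χ)) := by
    intro x
    obtain ⟨σ, hσ⟩ := H.ch.2 x
    exact ⟨σ, by rw [MonoidHom.comp_apply, MonoidHom.comp_apply, H.hs, hσ]⟩
  obtain ⟨a, ha⟩ := v2_surj (cl φ)
  have hKc : Kc k c.F φ (s.comp χ) a := (hcl.kc φ hφ a).2 ha
  have hab : ¬ Above 2 l := fun h => hl (h2 l h)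
  have hord : ∀ P, Over P l → oL c S (cl φ) P = (ord P a : ZMod 2) := by
    intro P hP
    rw [← ha, oL_v2, oF, if_neg]
    rintro ⟨v, hv, hPv⟩
    rw [below_unique hPv hP] at hv
    exact hl hv
  have hpi : ∀ σ, k.pi (φ σ) = χ σ := fun σ => DFunLike.congr_fun hφ.2 σ
  have hφ₀ : ∀ σ, χ σ = 1 → (s.comp χ) σ = 1 := by
    intro σ hσ
    rw [MonoidHom.comp_apply, hσ, map_one]
  constructor
  · rintro ⟨-, hr, hV⟩
    obtain ⟨P, hP, hodd⟩ := loc_odd' hs H.fd hE (eqv_refl k _) hKc Q l hab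
      (fun σ hσ => hφ₀ σ (by rw [← hpi]; exact k.piV _ (hV σ hσ))) hr
    refine ⟨P, hP, ?_⟩
    rw [hord P hP]
    intro h0
    have h3 := (ZMod.intCast_zmod_eq_zero_iff_dvd _ 2).1 h0
    exact (Int.not_even_iff_odd.2 hodd) (even_iff_two_dvd.2 (by exact_mod_cast h3))
  · rintro ⟨P, hP, hne⟩
    rw [hord P hP] at hne
    have hodd : ¬ Even (ord P a) := by
      intro he
      exact hne ((ZMod.intCast_zmod_eq_zero_iff_dvd _ 2).2 (by exact_mod_cast he.two_dvd))
    have hnm : IsSquare (Algebra.norm K (a : c.F)) := by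
      rw [← mem_VA, ha]
      exact hcl.va φ hφ
    have hτ : tp c.τ P ≠ P := by
      intro h3
      have h4 := cb_sum c a hnm P
      rw [h3, h3] at h4
      rcases Int.even_or_odd (ord P a) with h5 | h5
      · exact hodd h5
      · exact (Int.not_even_iff_odd.2 ((h5.add_odd h5).add_odd h5)) h4
    have hin : ∀ σ ∈ (Q.P l).inertia Gal(QBar/K), χ σ = 1 := by
      intro σ hσ
      have h3 := in_fix c H.fd Q l P hP hτ σ hσ
      rw [MonoidHom.comp_apply, H.hs] at h3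
      exact h3
    refine ⟨hl, ?_, fun σ hσ => H.hk _ (by rw [hpi, hin σ hσ])⟩
    by_contra hcon
    push Not at hcon
    exact hodd (loc_even H.fd hE (eqv_refl k _) hKc Q P l hP hab
      (fun σ hσ => by rw [hcon σ hσ, hφ₀ σ (hin σ hσ)]))

theorem cl_nr {χ : Gal(QBar/K) →* Multiplicative (ZMod 3)} {c : Cub K}
    {s : Multiplicative (ZMod 3) →* G} {γ : Gal(QBar/K)} (H : Std k χ c s γ)
    {cl : (Gal(QBar/K) →* G) → V2 c.F} (hcl : ClD k χ c s cl) (S : Finset (Pl K))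
    (h2 : ∀ v : Pl K, Above 2 v → v ∈ S) (Q : DP K QBar) (φ : Gal(QBar/K) →* G)
    (hφ : φ ∈ LW k χ) (Y : ℝ) :
    (∀ q : Finset (Pl K), (∀ l ∈ q, l ∈ TV k Q S φ) → nr q ≤ Y) ↔
      nrI c (oL c S (cl φ)) ≤ Y := by
  have hI := of_mem c S _ (hcl.va φ hφ)
  obtain ⟨f, hf, hg⟩ := gv_sum c S (oL c S (cl φ)) hI
  have hnr : nrI c (oL c S (cl φ)) = nr f := by rw [hg, gv_nr c S f hf]
  choose b hb using fun P : Pl c.F => exists_below (K := K) P
  have hset : ∀ P, P ∈ f ↔ oL c S (cl φ) P = 0 ∧ oL c S (cl φ) (tp c.τ P) = 1 := by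
    intro P
    have h3 := gv_set c S f hf P
    rw [← hg] at h3
    exact h3
  have hT : ∀ l, l ∈ f.image b ↔ l ∈ TV k Q S φ := by
    intro l
    constructor
    · intro h
      obtain ⟨P, hP, rfl⟩ := Finset.mem_image.1 h
      have hl : b P ∉ S := fun h => (hf P hP).1 ⟨b P, h, hb P⟩
      rw [cl_tv H hcl S h2 Q φ hφ (b P) hl]
      refine ⟨tp c.τ P, (tp_over c.τ P _).2 (hb P), ?_⟩
      rw [((hset P).1 hP).2]
      exact one_ne_zero
    · intro h
      have hl : l ∉ S := h.1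
      obtain ⟨R, hR, hne⟩ := (cl_tv H hcl S h2 Q φ hφ l hl).1 h
      have hRl : ∃ P ∈ f, Over P l := by
        have h3 := hI.2.2 R
        have h1 : oL c S (cl φ) R = 1 := (z2_cases _).resolve_left hne
        rw [h1] at h3
        rcases z2_cases (oL c S (cl φ) (tp c.τ R)) with h4 | h4
        · refine ⟨tp c.τ R, (hset _).2 ⟨h4, ?_⟩, (tp_over c.τ R l).2 hR⟩
          rcases z2_cases (oL c S (cl φ) (tp c.τ (tp c.τ R))) with h5 | h5
          · rw [h4, h5] at h3
            exact absurd h3 (by decide)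
          · exact h5
        · refine ⟨tp c.τ (tp c.τ R), (hset _).2 ⟨?_, by rw [cb_pcube, h1]⟩,
            (tp_over c.τ _ l).2 ((tp_over c.τ R l).2 hR)⟩
          rcases z2_cases (oL c S (cl φ) (tp c.τ (tp c.τ R))) with h5 | h5
          · exact h5
          · rw [h4, h5] at h3
            exact absurd h3 (by decide)
      obtain ⟨P, hP, hPl⟩ := hRl
      exact Finset.mem_image.2 ⟨P, hP, below_unique (hb P) hPl⟩
  have hTnr : nr (f.image b) = nr f := by
    unfold nr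
    rw [Finset.prod_image]
    · refine Finset.prod_congr rfl fun P hP => ?_
      rw [cb_deg c P (b P) (hb P) (hf P hP).2.1]
    · intro P hP P' hP' he
      have he' : b P = b P' := he
      have hov : Over P' (b P) := by
        rw [he']
        exact hb P'
      rcases cb_tr c P P' (b P) (hb P) hov with h | h | h
      · exact h.symm
      · rw [h] at hP'
        exact absurd hP' (hf P hP).2.2.1
      · rw [h] at hP'
        exact absurd hP' (hf P hP).2.2.2
  rw [hnr]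
  constructor
  · intro h
    rw [← hTnr]
    exact h _ (fun l hl => (hT l).1 hl)
  · intro h q hq
    refine le_trans (nr_mono fun l hl => (hT l).2 (hq l hl)) ?_
    rw [hTnr]
    exact h

end H48.T3
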