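import Pool.Agent.H48.T3.K1c
import Pool.Agent.H48.T3.ClR
import Pool.Agent.H48.T3.ApA

/-!
# [H48 T3 UBN] upper bound for the lifts of one `χ`, 50-80 lines. File Pool/Agent/H48/T3/UbN.lean

`cl` from `cl_ex`. `Fib ⊆ {φ ∈ LW : cl φ ∈ X}`, `X = {x ∈ VA : oL c S x ∈ Gs}`, `Gs` from `gi_sum c S Y` (`cl_nr`, `of_mem`). `#X ≤ #Gs * #(VA ⊓ ker oL)`: every fibre of `oL` on `VA` is empty or a coset of `VA ⊓ ker oL` (`k1_card`). `cl_cnt`: `{φ ∈ LW : cl φ ∈ X}` has `4 #X` elements. `#Gs` = number of the admissible `f ∈ AF c.F Y` (`gi_sum` with `ψ = 0`, `sg 0 = 1`)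
`= ∑_{q ∈ AF K Y} ∏_{l ∈ q} (3 or 0) ≤ ∑_{q ∈ AF K Y} 3 ^ #q` (`apa` with `e = 1`; `ov_card`: three primes over a split `l`; `finsum_mem` of `1` = number of elements).
-/

set_option autoImplicit false

open scoped NumberField Classical
open IsDedekindDomain H38.ML H63.MA

noncomputable section

namespace H48.T3

open H48.KV

variable {K : IntermediateField ℚ QBar} [NumberField K]

variable {G : Type} [Group G] {k : KV G}

private theorem ubn_fib {R M N : Type*} [Ring R] [AddCommGroup M] [AddCommGroup N] [Module R M]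
    [Module R N] (f : M →ₗ[R] N) (W : Submodule R M) (hf : Finite ↥(W ⊓ LinearMap.ker f)) (g : N) :
    {x | x ∈ W ∧ f x = g}.Finite ∧ {x | x ∈ W ∧ f x = g}.ncard ≤ Nat.card ↥(W ⊓ LinearMap.ker f) := by
  have hU : ((W ⊓ LinearMap.ker f : Submodule R M) : Set M).Finite := hf
  rcases Set.eq_empty_or_nonempty {x | x ∈ W ∧ f x = g} with h | ⟨x0, hx0, hg0⟩
  · rw [h]
    exact ⟨Set.finite_empty, by simp⟩
  · have hsub : {x | x ∈ W ∧ f x = g} ⊆
        (fun u => x0 + u) '' ((W ⊓ LinearMap.ker f : Submodule R M) : Set M) := by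
      rintro x ⟨hx, hgx⟩
      refine ⟨x - x0, ⟨W.sub_mem hx hx0, ?_⟩, add_sub_cancel _ _⟩
      show x - x0 ∈ LinearMap.ker f
      rw [LinearMap.mem_ker, map_sub, hgx, hg0, sub_self]
    refine ⟨(hU.image _).subset hsub, ?_⟩
    refine (Set.ncard_le_ncard hsub (hU.image _)).trans ?_
    refine (Set.ncard_image_le hU).trans ?_
    exact le_of_eq rfl

theorem ub_new (hi : MOne 2 K) {χ : Gal(QBar/K) →* Multiplicative (ZMod 3)} {c : Cub K}
    {s : Multiplicative (ZMod 3) →* G} {γ : Gal(QBar/K)} (H : Std k χ c s γ)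
    (S : Finset (Pl K)) (h2 : ∀ v : Pl K, Above 2 v → v ∈ S) (Q : DP K QBar)
    (ds : (Gal(QBar/K) →* G) → ℕ) (d : ℕ) (Y : ℝ) :
    (Fib k Q S ds χ d Y).Finite ∧ ((Fib k Q S ds χ d Y).ncard : ℝ) ≤
      4 * (8 ^ S.card * selc K c.F) * ∑ q ∈ AF K Y, (3 : ℝ) ^ q.card := by
  obtain ⟨cl, hcl⟩ := cl_ex H
  obtain ⟨Gs, hG1, hG2⟩ := gi_sum c S Y
  obtain ⟨hfin, hcard⟩ := k1_card hi c S
  set U := VA c ⊓ LinearMap.ker (oL c S) with hU
  set X : Set (V2 c.F) := {x | x ∈ VA c ∧ oL c S x ∈ Gs} with hX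
  have hXU : X ⊆ ⋃ g ∈ Gs, {x | x ∈ VA c ∧ oL c S x = g} := by
    rintro x ⟨hx, hx2⟩
    simp only [Set.mem_iUnion]
    exact ⟨_, hx2, hx, rfl⟩
  have hXf' : (⋃ g ∈ Gs, {x | x ∈ VA c ∧ oL c S x = g}).Finite :=
    Set.Finite.biUnion Gs.finite_toSet fun g _ => (ubn_fib (oL c S) (VA c) hfin g).1
  have hXf : X.Finite := hXf'.subset hXU
  have hXc : X.ncard ≤ Gs.card * (8 ^ S.card * selc K c.F) := by
    refine (Set.ncard_le_ncard hXU hXf').trans ?_
    refine (Finset.set_ncard_biUnion_le Gs _).trans ?_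
    refine (Finset.sum_le_card_nsmul Gs _ (8 ^ S.card * selc K c.F) fun g _ => ?_).trans ?_
    · exact (ubn_fib (oL c S) (VA c) hfin g).2.trans hcard
    · rw [smul_eq_mul]
  obtain ⟨hLf, hLc⟩ := cl_cnt H hcl X (fun x hx => hx.1) hXf
  have hsub : Fib k Q S ds χ d Y ⊆ {φ | φ ∈ LW k χ ∧ cl φ ∈ X} := by
    rintro φ ⟨h1, h3, h4, h5, h6⟩
    have hL : φ ∈ LW k χ := ⟨h1, h4⟩
    refine ⟨hL, hcl.va φ hL, ?_⟩
    rw [hG1]
    exact ⟨of_mem c S _ (hcl.va φ hL), (cl_nr H hcl S h2 Q φ hL Y).1 h6⟩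
  refine ⟨hLf.subset hsub, ?_⟩
  have h1 : (Fib k Q S ds χ d Y).ncard ≤ 4 * (Gs.card * (8 ^ S.card * selc K c.F)) := by
    refine (Set.ncard_le_ncard hsub hLf).trans ?_
    rw [hLc]
    exact Nat.mul_le_mul_left 4 hXc
  have h3 : (Gs.card : ℝ) ≤ ∑ q ∈ AF K Y, (3 : ℝ) ^ q.card := by
    have e1 := hG2 0
    have e2 := apa c S (fun _ => (1 : ℝ)) Y
    have e3 : (Gs.card : ℝ) = ∑ q ∈ AF K Y, ∏ l ∈ q,
        (if l ∉ S ∧ Spc c l then ∑ᶠ P ∈ {P : Pl c.F | Over P l}, (1 : ℝ) else 0) := by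
      rw [← e2]
      have e4 : ∀ x : Pl c.F → ZMod 2, sg ((0 : (Pl c.F → ZMod 2) →ₗ[ZMod 2] ZMod 2) x) = 1 := by
        intro x
        rw [LinearMap.zero_apply]
        unfold sg
        rw [if_pos rfl]
      simp only [e4] at e1
      rw [← e1]
      simp
    rw [e3]
    refine Finset.sum_le_sum fun q _ => ?_
    rw [← Finset.prod_const]
    refine Finset.prod_le_prod (fun l _ => ?_) fun l _ => ?_
    · split_ifs
      · exact finsum_nonneg fun P => finsum_nonneg fun _ => zero_le_one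
      · exact le_rfl
    · split_ifs
      · obtain ⟨f, hf1, hf2⟩ := ov_card c l
        have h4 : {P : Pl c.F | Over P l} = (f : Set (Pl c.F)) := by
          ext P
          exact (hf1 P).symm
        rw [h4, finsum_mem_coe_finset, Finset.sum_const, nsmul_eq_mul, mul_one]
        rcases hf2 with ⟨_, h5, _⟩ | ⟨_, h5, _⟩
        · rw [h5]
          norm_num
        · rw [h5]
          norm_num
      · norm_num
  have h4 : ((Fib k Q S ds χ d Y).ncard : ℝ) ≤ 4 * ((Gs.card : ℝ) * (8 ^ S.card * selc K c.F)) := by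
    exact_mod_cast h1
  calc ((Fib k Q S ds χ d Y).ncard : ℝ) ≤ 4 * ((Gs.card : ℝ) * (8 ^ S.card * selc K c.F)) := h4
    _ = 4 * (8 ^ S.card * selc K c.F) * Gs.card := by ring
    _ ≤ _ := mul_le_mul_of_nonneg_left h3 (by positivity)

end H48.T3
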