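import Pool.Agent.H48.T3.ApA
import Pool.Agent.H57.LI.Defs

/-!
# [H48 T3 APB] from `QC` to the pairs `AP` of H57/LI, 110-160 lines. File Pool/Agent/H48/T3/ApB.lean

`F = c.F`, `𝔪 = mS S ≠ 0`, `md 𝔪 F = 𝔪 𝓞_F`. `ray_rc Nat.prime_two` (H63/MA/RayC.lean) for `hθ.ray` gives `χ : RC F (md 𝔪 F)` with `χ P = ep 2 (θ P) = (-1)^{θ P}` for `P` not dividing the modulus, and `χ.Non` if `θ ≠ 0`. The `AP` is `⟨c.F, _, c.gal, c.deg, χ, ..⟩`.
* `quad`: `χ` is multiplicative, every nonzero ideal prime to the modulus is a product of primes prime to it (induction `UniqueFactorizationMonoid.induction_on_prime` or `Ideal.. prod of normalizedFactors`) with `χ P = ±1`.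
* `triv`: for a prime `l` of `K` not dividing `𝔪`: `l 𝓞_F` is `P`, `P³` or `P τP τ²P` (Galois, `[F : K] = 3`; `ov_card`, `cb_tr`; or: `∏ P^{e}` with the same `e` for all `P` over `l` and `e · #{P} · f = 3`); `θ` is `0` at the fixed primes (`hθ.tri`: `3 θ P = θ P = 0`), so `χ (l 𝓞_F) = 1` in all cases (in the split case `θ P + θ (τP) + θ (τ²P) = 0` by `hθ.tri`; if `τ P = P` then
  `χ P = 1`). Then induction on `J`.
* injective: `θ P` is determined by `χ P` for `P` not dividing the modulus, and `θ P = 0` for the others (`hθ.ray.zero`). (Two `AP`s with the same field `c.F`: `AP.mk.injEq`, `heq_eq_eq`.)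
* the sum: `apa` with `e P = sg (θ P)`. `q ↦ idl q = ∏ v` (`idl_inj`, `idl_norm`, AFin.lean) is a bijection from `AF K Y` onto the squarefree ideals in `IN K Y`; `lq (idl q) = ∏_{l ∈ q} lp l` (`normalizedFactors` of a product of different primes); the nonsquarefree ideals contribute `0`. `lp l`: the primes of `F` over `l` are `l.primesOver`, there are 3 of them iff `Spc c l` (`ov_card`); for `l ∉ S`
  not dividing `𝔪` (`8 ∉ l`: if `8 ∈ l` then `l` is above 2 and in `S` by `h2`) `(χ P).re = sg (θ P)` (`ep 2 0 = 1`, `ep 2 1 = -1`); for `l ∈ S`: `P` divides the modulus, `χ P = 0` (`zero_of`), so `lp l = 0`.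
-/

set_option autoImplicit false

open scoped NumberField Classical
open IsDedekindDomain H38.ML H63.MA

noncomputable section

namespace H48.T3

open H48.KV

variable {K : IntermediateField ℚ QBar} [NumberField K]

private theorem apb_ep1 : ep 2 1 = -1 := by
  have h1 : ep 2 (1 : ZMod 2) = Complex.exp (Real.pi * Complex.I) := by
    unfold ep
    congr 1
    have h2 : (1 : ZMod 2).val = 1 := rfl
    rw [h2]
    push_cast
    ring
  rw [h1, Complex.exp_pi_mul_I]

private theorem apb_zm (a : ZMod 2) : a = 0 ∨ a = 1 := by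
  revert a
  decide

private theorem apb_sg (a : ZMod 2) : (ep 2 a).re = sg a := by
  rcases apb_zm a with rfl | rfl
  · rw [ep_zero]
    simp [sg]
  · rw [apb_ep1]
    simp [sg]

private theorem apb_pm (a : ZMod 2) : ep 2 a = 1 ∨ ep 2 a = -1 := by
  rcases apb_zm a with rfl | rfl
  · exact Or.inl (ep_zero 2)
  · exact Or.inr apb_ep1

private theorem apb_inj {a b : ZMod 2} (h : ep 2 a = ep 2 b) : a = b := by
  have h1 : (1 : ℂ) ≠ -1 := by
    intro h2
    have h3 := congrArg Complex.re h2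
    simp at h3
    norm_num at h3
  rcases apb_zm a with rfl | rfl <;> rcases apb_zm b with rfl | rfl
  · rfl
  · rw [ep_zero, apb_ep1] at h
    exact absurd h h1
  · rw [ep_zero, apb_ep1] at h
    exact absurd h.symm h1
  · rfl

private theorem apb_sum {ι : Type} (f : Finset ι) (g : ι → ZMod 2) :
    ∏ i ∈ f, ep 2 (g i) = ep 2 (∑ i ∈ f, g i) := by
  induction f using Finset.induction_on with
  | empty => rw [Finset.prod_empty, Finset.sum_empty, ep_zero]
  | insert i f hi ih => rw [Finset.prod_insert hi, Finset.sum_insert hi, ep_add Nat.prime_two, ih]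

private theorem apb_mS (S : Finset (Pl K)) : mS S ≠ ⊥ := by
  unfold mS
  refine mul_ne_zero ?_ ?_
  · rw [Ideal.zero_eq_bot, Ne, Ideal.span_singleton_eq_bot]
    exact OfNat.ofNat_ne_zero 8
  · exact Finset.prod_ne_zero_iff.2 fun v _ => v.ne_bot

/-- the primes which divide the modulus -/
private theorem apb_dvd0 (S : Finset (Pl K)) (h2 : ∀ v : Pl K, Above 2 v → v ∈ S) (l : Pl K) :
    l.asIdeal ∣ mS S ↔ l ∈ S := by
  unfold mS
  constructor
  · intro h
    rcases l.prime.dvd_or_dvd h with h1 | h1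
    · apply h2
      rw [Ideal.dvd_span_singleton] at h1
      have h3 : (8 : 𝓞 K) = 2 ^ 3 := by norm_num
      rw [h3] at h1
      have h4 := l.isPrime.mem_of_pow_mem 3 h1
      unfold Above
      exact_mod_cast h4
    · obtain ⟨v, hv, h3⟩ := (l.prime.dvd_finset_prod_iff _).1 h1
      have h4 : l = v := by
        apply HeightOneSpectrum.ext
        have h5 := Ideal.dvd_iff_le.1 h3
        exact (v.isMaximal.eq_of_le l.isPrime.ne_top h5).symm
      rw [h4]
      exact hv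
  · intro h
    exact (Finset.dvd_prod_of_mem (fun v : Pl K => v.asIdeal) h).mul_left _

private theorem apb_md (c : Cub K) (S : Finset (Pl K)) : H57.LI.md (mS S) c.F ≠ ⊥ := by
  unfold H57.LI.md
  exact Ideal.map_ne_bot_of_ne_bot (apb_mS S)

private theorem apb_dvd (c : Cub K) (S : Finset (Pl K)) (h2 : ∀ v : Pl K, Above 2 v → v ∈ S)
    {P : Pl c.F} {l : Pl K} (hP : Over P l) : P.asIdeal ∣ H57.LI.md (mS S) c.F ↔ l ∈ S := by
  rw [← apb_dvd0 S h2 l, Ideal.dvd_iff_le, Ideal.dvd_iff_le]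
  unfold H57.LI.md
  rw [Ideal.map_le_iff_le_comap]
  have h3 : P.asIdeal.comap (algebraMap (𝓞 K) (𝓞 c.F)) = l.asIdeal := hP
  rw [h3]

/-- the trace of `θ` over the primes over `l` -/
private theorem apb_tr (c : Cub K) (S : Finset (Pl K)) {θ : Pl c.F → ZMod 2} (hθ : QC c S θ)
    (l : Pl K) (f : Finset (Pl c.F)) (hf : ∀ P, P ∈ f ↔ Over P l) : ∑ P ∈ f, θ P = 0 := by
  obtain ⟨f', hf', hc⟩ := ov_card c l
  have hff : f = f' := by
    ext P
    rw [hf, hf']
  subst hff
  obtain ⟨P, hP⟩ := exists_over (L := c.F) l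
  have hPf := (hf P).2 hP
  rcases hc with ⟨-, h3, h4⟩ | ⟨-, h1, h4⟩
  · have h5 := h4 P hPf
    have hinj := cb_inj c
    have hcube := cb_pcube c P
    have h6 : tp c.τ (tp c.τ P) ≠ P := by
      intro h7
      apply h5
      rw [h7] at hcube
      exact hcube
    have h7 : tp c.τ (tp c.τ P) ≠ tp c.τ P := fun h => h5 (hinj h)
    have h8 : f = {P, tp c.τ P, tp c.τ (tp c.τ P)} := by
      ext P'
      rw [hf, Finset.mem_insert, Finset.mem_insert, Finset.mem_singleton]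
      constructor
      · exact fun hP' => cb_tr c P P' l hP hP'
      · rintro (rfl | rfl | rfl)
        · exact hP
        · exact (tp_over c.τ P l).2 hP
        · exact (tp_over c.τ _ l).2 ((tp_over c.τ P l).2 hP)
    rw [h8, Finset.sum_insert, Finset.sum_insert, Finset.sum_singleton, ← add_assoc]
    · exact hθ.tri P
    · rw [Finset.mem_singleton]
      exact Ne.symm h7
    · rw [Finset.mem_insert, Finset.mem_singleton]
      rintro (h | h)
      · exact h5 h.symm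
      · exact h6 h.symm
  · obtain ⟨P', hP'⟩ := Finset.card_eq_one.1 h1
    have h5 := h4 P hPf
    have h6 : f = {P} := by
      rw [hP', Finset.mem_singleton] at hPf
      rw [hP', hPf]
    rw [h6, Finset.sum_singleton]
    have h7 := hθ.tri P
    rw [h5, h5] at h7
    rcases apb_zm (θ P) with h8 | h8
    · exact h8
    · rw [h8] at h7
      exact absurd h7 (by decide)

private theorem apb_po (c : Cub K) (l : Pl K) :
    (fun P : Pl c.F => P.asIdeal) '' {P : Pl c.F | Over P l} = l.asIdeal.primesOver (𝓞 c.F) := by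
  ext Q
  constructor
  · rintro ⟨w, hw, rfl⟩
    exact ⟨w.isPrime, ⟨Eq.symm hw⟩⟩
  · rintro ⟨h1, h2⟩
    exact ⟨⟨Q, h1, Ideal.ne_bot_of_liesOver_of_ne_bot l.ne_bot Q⟩, h2.over.symm, rfl⟩

private theorem apb_asinj (F : Type) [Field F] [NumberField F] :
    Function.Injective (fun w : Pl F => w.asIdeal) :=
  fun _ _ h => HeightOneSpectrum.ext h

/-- `l 𝓞_F` is a power of the product of the primes over `l` -/
private theorem apb_fac (c : Cub K) (l : Pl K) (f : Finset (Pl c.F)) (hf : ∀ P, P ∈ f ↔ Over P l) :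
    ∃ e : ℕ, H57.LI.md l.asIdeal c.F = (∏ P ∈ f, P.asIdeal) ^ e := by
  have hmax := l.isMaximal
  have hG : IsGaloisGroup Gal(c.F/K) (𝓞 K) (𝓞 c.F) :=
    IsGaloisGroup.of_isFractionRing Gal(c.F/K) (𝓞 K) (𝓞 c.F) K c.F
  obtain ⟨P₀, hP₀⟩ := exists_over (L := c.F) l
  refine ⟨P₀.asIdeal.ramificationIdx (𝓞 K), ?_⟩
  unfold H57.LI.md
  rw [Ideal.map_algebraMap_eq_finsetProd_pow (S := 𝓞 K) (R := 𝓞 c.F) (p := l.asIdeal) l.ne_bot,
    ← Finset.prod_pow]
  symm
  refine Finset.prod_bij (fun P _ => P.asIdeal) ?_ ?_ ?_ ?_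
  · intro P hP
    rw [Set.mem_toFinset, ← apb_po]
    exact ⟨P, (hf P).1 hP, rfl⟩
  · intro P _ P' _ h
    exact HeightOneSpectrum.ext h
  · intro Q hQ
    rw [Set.mem_toFinset, ← apb_po] at hQ
    obtain ⟨P, hP, rfl⟩ := hQ
    exact ⟨P, (hf P).2 hP, rfl⟩
  · intro P hP
    have h1 : P.asIdeal.LiesOver l.asIdeal := ⟨Eq.symm ((hf P).1 hP)⟩
    have h2 : P₀.asIdeal.LiesOver l.asIdeal := ⟨Eq.symm hP₀⟩
    rw [Ideal.ramificationIdx_eq_of_isGaloisGroup l.asIdeal P₀.asIdeal P.asIdeal Gal(c.F/K)]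

private theorem apb_cop {F : Type} [Field F] [NumberField F] {P : Pl F} {M : Ideal (𝓞 F)}
    (h : IsCoprime P.asIdeal M) : ¬ P.asIdeal ∣ M := by
  intro h1
  have h2 : IsUnit P.asIdeal := h.isUnit_of_dvd' dvd_rfl h1
  exact P.prime.not_unit h2

private theorem apb_pl {F : Type} [Field F] [NumberField F] {p : Ideal (𝓞 F)} (hp : Prime p) :
    ∃ P : Pl F, P.asIdeal = p :=
  ⟨⟨p, Ideal.isPrime_of_prime hp, hp.ne_zero⟩, rfl⟩

private theorem apb_quad {F : Type} [Field F] [NumberField F] {M : Ideal (𝓞 F)} (χ : RC F M)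
    (θ : Pl F → ZMod 2) (hχ : ∀ v : Pl F, ¬ v.asIdeal ∣ M → χ.χ v.asIdeal = ep 2 (θ v))
    (I : Ideal (𝓞 F)) : I ≠ ⊥ → IsCoprime I M → χ.χ I = 1 ∨ χ.χ I = -1 := by
  induction I using UniqueFactorizationMonoid.induction_on_prime with
  | h₁ => exact fun h => absurd rfl h
  | h₂ I hI =>
    intro _ _
    have h1 : I = 1 := by
      rw [Ideal.one_eq_top]
      exact Ideal.isUnit_iff.1 hI
    rw [h1, map_one]
    exact Or.inl rfl
  | h₃ a p ha hp ih =>
    intro _ hc
    obtain ⟨P, rfl⟩ := apb_pl hp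
    rw [map_mul, hχ P (apb_cop hc.of_mul_left_left)]
    rcases apb_pm (θ P) with h1 | h1 <;> rcases ih ha hc.of_mul_left_right with h2 | h2 <;>
      rw [h1, h2] <;> norm_num

private theorem apb_triv (c : Cub K) (S : Finset (Pl K)) (h2 : ∀ v : Pl K, Above 2 v → v ∈ S)
    {θ : Pl c.F → ZMod 2} (hθ : QC c S θ) (χ : RC c.F (H57.LI.md (mS S) c.F))
    (hχ : ∀ v : Pl c.F, ¬ v.asIdeal ∣ H57.LI.md (mS S) c.F → χ.χ v.asIdeal = ep 2 (θ v))
    (J : Ideal (𝓞 K)) : J ≠ ⊥ → IsCoprime J (mS S) → χ.χ (H57.LI.md J c.F) = 1 := by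
  induction J using UniqueFactorizationMonoid.induction_on_prime with
  | h₁ => exact fun h => absurd rfl h
  | h₂ I hI =>
    intro _ _
    have h1 : I = ⊤ := Ideal.isUnit_iff.1 hI
    unfold H57.LI.md
    rw [h1, Ideal.map_top, ← Ideal.one_eq_top, map_one]
  | h₃ a p ha hp ih =>
    intro _ hc
    obtain ⟨l, rfl⟩ := apb_pl hp
    have h1 : H57.LI.md (l.asIdeal * a) c.F = H57.LI.md l.asIdeal c.F * H57.LI.md a c.F :=
      Ideal.map_mul _ _ _
    rw [h1, map_mul, ih ha hc.of_mul_left_right, mul_one]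
    obtain ⟨f, hf, -⟩ := ov_card c l
    obtain ⟨e, he⟩ := apb_fac c l f hf
    have h3 : l ∉ S := fun h => apb_cop hc.of_mul_left_left ((apb_dvd0 S h2 l).2 h)
    rw [he, map_pow, map_prod, Finset.prod_congr rfl fun P hP =>
      hχ P fun h => h3 ((apb_dvd c S h2 ((hf P).1 hP)).1 h), apb_sum, apb_tr c S hθ l f hf, ep_zero,
      one_pow]

private theorem apb_nf (q : Finset (Pl K)) :
    UniqueFactorizationMonoid.normalizedFactors (idl q) = q.val.map fun v => v.asIdeal := by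
  have h : idl q = (q.val.map fun v => v.asIdeal).prod := rfl
  rw [h]
  refine UniqueFactorizationMonoid.normalizedFactors_prod_of_prime ?_
  intro p hp
  obtain ⟨v, -, rfl⟩ := Multiset.mem_map.1 hp
  exact v.prime

private theorem apb_sf (q : Finset (Pl K)) : Squarefree (idl q) := by
  rw [UniqueFactorizationMonoid.squarefree_iff_nodup_normalizedFactors (idl_ne q), apb_nf]
  exact q.nodup.map (apb_asinj K)

private theorem apb_ex (I : Ideal (𝓞 K)) (hI : I ≠ ⊥) (hs : Squarefree I) :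
    ∃ q : Finset (Pl K), idl q = I := by
  have h1 := (UniqueFactorizationMonoid.squarefree_iff_nodup_normalizedFactors hI).1 hs
  obtain ⟨m, hm⟩ : ∃ m, m = UniqueFactorizationMonoid.normalizedFactors I := ⟨_, rfl⟩
  have h2 : ∀ p ∈ m, Prime p := by
    rw [hm]
    exact fun p hp => UniqueFactorizationMonoid.prime_of_normalized_factor p hp
  have h3 : ∃ n : Multiset (Pl K), n.map (fun v => v.asIdeal) = m := by
    clear hm
    induction m using Multiset.induction_on with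
    | empty => exact ⟨0, rfl⟩
    | cons p m ih =>
      obtain ⟨n, hn⟩ := ih fun p hp => h2 p (Multiset.mem_cons_of_mem hp)
      obtain ⟨P, hP⟩ := apb_pl (h2 p (Multiset.mem_cons_self p m))
      exact ⟨P ::ₘ n, by rw [Multiset.map_cons, hn, hP]⟩
  obtain ⟨n, hn⟩ := h3
  have h4 : n.Nodup := by
    apply Multiset.Nodup.of_map
    rw [hn, hm]
    exact h1
  refine ⟨⟨n, h4⟩, ?_⟩
  have h5 : idl (⟨n, h4⟩ : Finset (Pl K)) = (n.map fun v => v.asIdeal).prod := rfl
  rw [h5, hn, hm]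
  exact associated_iff_eq.1 (UniqueFactorizationMonoid.prod_normalizedFactors hI)

/-- the pair which belongs to a character -/
private def apb_mk (c : Cub K) (S : Finset (Pl K)) (χ : RC c.F (H57.LI.md (mS S) c.F))
    (h1 : ∀ I, I ≠ ⊥ → IsCoprime I (H57.LI.md (mS S) c.F) → χ.χ I = 1 ∨ χ.χ I = -1)
    (h2 : ∀ J : Ideal (𝓞 K), J ≠ ⊥ → IsCoprime J (mS S) → χ.χ (H57.LI.md J c.F) = 1)
    (h3 : χ.Non) : H57.LI.AP K QBar (mS S) :=
  { F := c.F, nf := inferInstance, gal := c.gal, deg := c.deg, χ := χ, quad := h1, triv := h2, non := h3 }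

private theorem apb_mk_inj (c : Cub K) (S : Finset (Pl K)) {χ χ' : RC c.F (H57.LI.md (mS S) c.F)}
    {h1 h2 h3 h1' h2' h3'} (h : apb_mk c S χ h1 h2 h3 = apb_mk c S χ' h1' h2' h3') : χ = χ' := by
  unfold apb_mk at h
  injection h

private theorem apb_lp (c : Cub K) (S : Finset (Pl K)) (hS : ∀ v : Pl K, Above 2 v → v ∈ S)
    (θ : Pl c.F → ZMod 2) (χ : RC c.F (H57.LI.md (mS S) c.F))
    (hχ : ∀ v : Pl c.F, ¬ v.asIdeal ∣ H57.LI.md (mS S) c.F → χ.χ v.asIdeal = ep 2 (θ v))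
    (h1 h2 h3) (l : Pl K) : (apb_mk c S χ h1 h2 h3).lp l.asIdeal =
      if l ∉ S ∧ Spc c l then ∑ᶠ P ∈ {P : Pl c.F | Over P l}, sg (θ P) else 0 := by
  obtain ⟨f, hf, hc⟩ := ov_card c l
  have hset : {P : Pl c.F | Over P l} = (f : Set (Pl c.F)) := by
    ext P
    exact (hf P).symm
  have hcard : (l.asIdeal.primesOver (𝓞 c.F)).ncard = f.card := by
    rw [← apb_po, Set.ncard_image_of_injective _ (apb_asinj c.F), hset, Set.ncard_coe_finset]
  have hlp : (apb_mk c S χ h1 h2 h3).lp l.asIdeal =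
      if (l.asIdeal.primesOver (𝓞 c.F)).ncard = 3 then
        ∑ᶠ P ∈ l.asIdeal.primesOver (𝓞 c.F), (χ.χ P).re else 0 := rfl
  rw [hlp, hcard]
  rcases hc with ⟨hs, h4, -⟩ | ⟨hs, h4, -⟩
  · rw [if_pos h4, ← apb_po, finsum_mem_image (apb_asinj c.F).injOn]
    by_cases hl : l ∈ S
    · rw [if_neg (fun h => h.1 hl)]
      refine finsum_mem_eq_zero_of_forall_eq_zero fun P hP => ?_
      have h5 : ¬ IsCoprime P.asIdeal (H57.LI.md (mS S) c.F) := fun h =>
        apb_cop h ((apb_dvd c S hS hP).2 hl)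
      rw [χ.zero_of _ h5, Complex.zero_re]
    · rw [if_pos ⟨hl, hs⟩]
      refine finsum_mem_congr rfl fun P hP => ?_
      rw [hχ P fun h => hl ((apb_dvd c S hS hP).1 h), apb_sg]
  · rw [if_neg (by omega), if_neg (fun h => hs h.2)]

private theorem apb_lq (c : Cub K) (S : Finset (Pl K)) (hS : ∀ v : Pl K, Above 2 v → v ∈ S)
    (θ : Pl c.F → ZMod 2) (χ : RC c.F (H57.LI.md (mS S) c.F))
    (hχ : ∀ v : Pl c.F, ¬ v.asIdeal ∣ H57.LI.md (mS S) c.F → χ.χ v.asIdeal = ep 2 (θ v))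
    (h1 h2 h3) (q : Finset (Pl K)) : (apb_mk c S χ h1 h2 h3).lq (idl q) =
      ∏ l ∈ q, (if l ∉ S ∧ Spc c l then ∑ᶠ P ∈ {P : Pl c.F | Over P l}, sg (θ P) else 0) := by
  unfold H57.LI.AP.lq
  rw [if_pos (apb_sf q), apb_nf, Multiset.map_map]
  change (Multiset.map _ q.val).prod = (Multiset.map _ q.val).prod
  congr 1
  refine Multiset.map_congr rfl fun l _ => ?_
  exact apb_lp c S hS θ χ hχ h1 h2 h3 l

theorem ap_of (c : Cub K) (S : Finset (Pl K)) (h2 : ∀ v : Pl K, Above 2 v → v ∈ S) :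
    ∃ z : {θ : Pl c.F → ZMod 2 // QC c S θ ∧ θ ≠ 0} → H57.LI.AP K QBar (mS S),
      Function.Injective z ∧ (∀ θ, (z θ).F = c.F) ∧ ∀ θ (Y : ℝ), 0 ≤ Y →
        ∑ q ∈ IN K Y, (z θ).lq q =
          ∑ f ∈ (AF c.F Y).filter (fun f => AdmC c S f), ∏ P ∈ f, sg (θ.1 P) := by
  have h1 : ∀ θ : {θ : Pl c.F → ZMod 2 // QC c S θ ∧ θ ≠ 0},
      ∃ χ : RC c.F (H57.LI.md (mS S) c.F),
        (∀ v : Pl c.F, ¬ v.asIdeal ∣ H57.LI.md (mS S) c.F → χ.χ v.asIdeal = ep 2 (θ.1 v)) ∧
          χ.Non := by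
    rintro ⟨θ, hθ, hθ0⟩
    obtain ⟨χ, h3, h4⟩ := ray_rc Nat.prime_two (apb_md c S) hθ.ray
    refine ⟨χ, h3, h4 ?_⟩
    by_contra hcon
    push Not at hcon
    exact hθ0 (funext hcon)
  choose χ hχ hnon using h1
  refine ⟨fun θ => apb_mk c S (χ θ) (fun I hI hc => apb_quad (χ θ) θ.1 (hχ θ) I hI hc)
    (fun J hJ hc => apb_triv c S h2 θ.2.1 (χ θ) (hχ θ) J hJ hc) (hnon θ), ?_, fun _ => rfl, ?_⟩
  · intro θ θ' h
    have h3 : χ θ = χ θ' := apb_mk_inj c S h
    apply Subtype.ext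
    funext P
    by_cases hP : P.asIdeal ∣ H57.LI.md (mS S) c.F
    · rw [θ.2.1.ray.zero P hP, θ'.2.1.ray.zero P hP]
    · apply apb_inj
      rw [← hχ θ P hP, ← hχ θ' P hP, h3]
  · intro θ Y hY
    rw [apa c S (fun P => sg (θ.1 P)) Y]
    symm
    refine Finset.sum_bij_ne_zero (fun q _ _ => idl q) ?_ ?_ ?_ ?_
    · intro q hq _
      rw [mem_AF] at hq
      rw [mem_IN hY, idl_norm]
      exact ⟨hq, idl_ne q⟩
    · intro q _ _ q' _ _ h
      exact idl_inj h
    · intro I hI hne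
      rw [mem_IN hY] at hI
      have hs : Squarefree I := by
        by_contra hcon
        apply hne
        unfold H57.LI.AP.lq
        rw [if_neg hcon]
      obtain ⟨q, rfl⟩ := apb_ex I hI.2 hs
      have hq : q ∈ AF K Y := by
        rw [mem_AF, ← idl_norm]
        exact hI.1
      refine ⟨q, hq, ?_, rfl⟩
      rw [apb_lq c S h2 θ.1 (χ θ) (hχ θ)] at hne
      exact hne
    · intro q _ _
      exact (apb_lq c S h2 θ.1 (χ θ) (hχ θ) _ _ _ q).symm

end H48.T3
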