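import Pool.Agent.H48.T3.TOv
import Pool.Agent.H48.KV.FinB
import Pool.Agent.H48.KV.LocA

/-!
# [H48 T3 SPI] splitting and the decomposition group, 50-80 lines. File Pool/Agent/H48/T3/Spi.lean

`F = c.F = FX χ`: `σ` fixes `F` iff `χ σ = 1` (`H38.ML.fixing_fixedField`, `FT χ`). `P₁ = (Q.P l) ∩ 𝓞 F` is a prime of `F` over `l`. `Spc c l` iff `τ P₁ ≠ P₁` (`ov_card`).
(→) `σ ∈ dec (Q.P l)`: the restriction of `σ` to `F` is `1`, `τ` or `τ²` (`IsGalois.card_aut_eq_finrank`, `c.τ1`; see KV/FldB.lean) and fixes the ideal `P₁`, and `τ P₁ ≠ P₁`, `τ² P₁ ≠ P₁` (otherwise `τ P₁ = τ³ P₁ = P₁`), so it is `1`: `χ σ = 1`.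
(←) if `τ P₁ = P₁`: let `σ₁ : Gal(QBar/K)` extend `τ` (`AlgEquiv.restrictNormalHom_surjective`). `σ₁ • Q.P l` lies over `τ P₁ = P₁`, and `Gal(QBar/F)` acts transitively on the primes of `𝓞 QBar` over `P₁` (the transitivity lemma used in KV/LocA.lean, over the base field `F`), so `ρ σ₁ • Q.P l = Q.P l` for some `ρ : Gal(QBar/F)`: `σ = ρ σ₁` is in `dec (Q.P l)`, and
`χ σ ≠ 1` because `σ` restricts to `τ ≠ 1` on `F`. (If `dec` is needed as `∀ x, σ • x ∈ Q.P l ↔ x ∈ Q.P l`: the same for `σ⁻¹`.)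
-/

set_option autoImplicit false

open scoped NumberField Classical Pointwise
open IsDedekindDomain H38.ML H63.MA

noncomputable section

namespace H48.T3

open H48.KV

private theorem spi_trans {K : Type} [Field K] [NumberField K] {Ω : Type} [Field Ω] [Algebra K Ω]
    [IsAlgClosure K Ω] (P P' : Ideal (𝓞 Ω)) (hP : P.IsPrime) (hP' : P'.IsPrime)
    (h : P.under (𝓞 K) = P'.under (𝓞 K)) : ∃ g : Gal(Ω/K), P' = g • P := by
  have : IsGalois K Ω := IsAlgClosure.isGalois K Ω
  let _ : TopologicalSpace (𝓞 Ω) := ⊥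
  have : DiscreteTopology (𝓞 Ω) := ⟨rfl⟩
  have : ContinuousSMul Gal(Ω/K) (𝓞 Ω) := by
    rw [continuousSMul_iff_stabilizer_isOpen]
    intro x
    have h1 := stabilizer_isOpen_of_isIntegral (K := K) (L := Ω) (x : Ω)
    have h2 : (MulAction.stabilizer Gal(Ω/K) x : Set Gal(Ω/K)) =
        (MulAction.stabilizer Gal(Ω/K) (x : Ω) : Set Gal(Ω/K)) := by
      ext g
      simp only [SetLike.mem_coe, MulAction.mem_stabilizer_iff]
      constructor
      · intro hg
        exact congrArg (fun z : 𝓞 Ω => (z : Ω)) hg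
      · intro hg
        exact NumberField.RingOfIntegers.ext hg
    rw [h2]
    exact h1
  have : Algebra.IsInvariant (𝓞 K) (𝓞 Ω) Gal(Ω/K) := ⟨fun b hb => by
    have h1 : (b : Ω) ∈ (⊥ : IntermediateField K Ω) := by
      rw [← InfiniteGalois.fixedField_bot (k := K) (K := Ω), IntermediateField.mem_fixedField_iff]
      intro g _
      exact congrArg (fun z : 𝓞 Ω => (z : Ω)) (hb g)
    obtain ⟨a, ha⟩ := IntermediateField.mem_bot.1 h1
    have h2 : IsIntegral ℤ a := by
      have h3 : IsIntegral ℤ (algebraMap K Ω a) := by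
        rw [ha]
        exact b.2
      exact (isIntegral_algebraMap_iff (algebraMap K Ω).injective).1 h3
    refine ⟨⟨a, h2⟩, NumberField.RingOfIntegers.ext ?_⟩
    exact ha⟩
  exact Algebra.IsInvariant.exists_smul_of_under_eq_of_profinite (A := 𝓞 K) (G := Gal(Ω/K)) P P' h

variable {K : IntermediateField ℚ QBar} [NumberField K]

private theorem spi_clo (F : IntermediateField K QBar) : IsAlgClosure F QBar :=
  { isAlgClosed := inferInstance
    isAlgebraic := by
      have h0 : Algebra.IsAlgebraic K QBar := inferInstance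
      exact Algebra.IsAlgebraic.tower_top (K := K) F }

private theorem spi_card (c : Cub K) : Nat.card Gal(c.F/K) = 3 := by
  rw [IsGalois.card_aut_eq_finrank, c.deg]

private theorem spi_below (c : Cub K) (Q : DP K QBar) (l : Pl K) :
    ∃ P : Pl c.F, Over P l ∧ ∀ x : 𝓞 c.F, x ∈ P.asIdeal ↔ algebraMap (𝓞 c.F) (𝓞 QBar) x ∈ Q.P l := by
  have hQ := Q.prime l
  have hu := Q.under l
  have h1 : ((Q.P l).comap (algebraMap (𝓞 c.F) (𝓞 QBar))).comap (algebraMap (𝓞 K) (𝓞 c.F)) =
      l.asIdeal := by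
    rw [← hu]
    ext x
    exact Iff.rfl
  refine ⟨⟨(Q.P l).comap (algebraMap (𝓞 c.F) (𝓞 QBar)), Ideal.comap_isPrime _ _, ?_⟩, h1,
    fun x => Iff.rfl⟩
  intro h
  apply l.ne_bot
  rw [← h1, h, eq_bot_iff]
  intro x hx
  rw [Ideal.mem_comap, Ideal.mem_bot] at hx
  rw [Ideal.mem_bot]
  have hinj : Function.Injective (algebraMap (𝓞 K) (𝓞 c.F)) :=
    FaithfulSMul.algebraMap_injective (𝓞 K) (𝓞 c.F)
  exact hinj (by rw [hx, map_zero])

theorem spi (χ : Gal(QBar/K) →* Multiplicative (ZMod 3)) (hχ : χ ∈ Ch K) (c : Cub K)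
    (hc : c.F = FX χ) (Q : DP K QBar) (l : Pl K) :
    Spc c l ↔ ∀ σ ∈ dec (K := K) (Q.P l), χ σ = 1 := by
  obtain ⟨E, hE, hEker⟩ := hχ.1
  have hfix : ∀ σ : Gal(QBar/K), σ ∈ c.F.fixingSubgroup ↔ χ σ = 1 := by
    intro σ
    rw [hc]
    unfold FX
    rw [(fixing_fixedField χ.ker E hEker).1, MonoidHom.mem_ker]
  obtain ⟨P₁, hP₁, hmem⟩ := spi_below c Q l
  obtain ⟨f, hf1, hf2⟩ := ov_card c l
  have hcube := cb_pcube c P₁
  constructor
  · intro hs σ hσ
    have hne : tp c.τ P₁ ≠ P₁ := by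
      rcases hf2 with ⟨-, -, h3⟩ | ⟨h3, -, -⟩
      · exact h3 P₁ ((hf1 P₁).2 hP₁)
      · exact absurd hs h3
    rw [← hfix]
    set g : Gal(c.F/K) := AlgEquiv.restrictNormalHom c.F σ with hg
    have hgx : ∀ x : c.F, ((g x : c.F) : QBar) = σ (x : QBar) := fun x =>
      AlgEquiv.restrictNormal_commutes σ c.F x
    -- `g` fixes `P₁`
    have hgP : ∀ x : 𝓞 c.F, (NumberField.RingOfIntegers.mapRingEquiv
        (g : c.F ≃ₐ[K] c.F).toRingEquiv x) ∈ P₁.asIdeal ↔ x ∈ P₁.asIdeal := by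
      intro x
      rw [hmem, hmem, ← hσ (algebraMap (𝓞 c.F) (𝓞 QBar) x)]
      have h1 : algebraMap (𝓞 c.F) (𝓞 QBar) (NumberField.RingOfIntegers.mapRingEquiv
          (g : c.F ≃ₐ[K] c.F).toRingEquiv x) = σ • algebraMap (𝓞 c.F) (𝓞 QBar) x :=
        NumberField.RingOfIntegers.ext (hgx (x : c.F))
      rw [h1]
    have : Fact (Nat.Prime 3) := ⟨Nat.prime_three⟩
    have h1 : g ∈ Submonoid.powers (c.τ : Gal(c.F/K)) := mem_powers_of_prime_card (spi_card c) c.τ1
    obtain ⟨n, hn⟩ := h1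
    have hn' : (c.τ : Gal(c.F/K)) ^ n = g := hn
    have h3 : (c.τ : Gal(c.F/K)) ^ 3 = 1 := by
      have h4 := pow_card_eq_one' (x := (c.τ : Gal(c.F/K)))
      rwa [spi_card c] at h4
    have h4 : g = (c.τ : Gal(c.F/K)) ^ (n % 3) := by
      rw [← hn']
      conv_lhs => rw [← Nat.mod_add_div n 3, pow_add, pow_mul, h3, one_pow, mul_one]
    have h5 : n % 3 < 3 := Nat.mod_lt _ (by norm_num)
    have hg1 : g = 1 := by
      generalize n % 3 = m at h4 h5
      interval_cases m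
      · rw [h4, pow_zero]
      · exfalso
        rw [pow_one] at h4
        apply hne
        apply HeightOneSpectrum.ext
        ext x
        rw [tp_mem, ← hgP, h4]
        have h6 : NumberField.RingOfIntegers.mapRingEquiv (c.τ : c.F ≃ₐ[K] c.F).toRingEquiv
            (NumberField.RingOfIntegers.mapRingEquiv (c.τ.symm : c.F ≃ₐ[K] c.F).toRingEquiv x) =
            x := NumberField.RingOfIntegers.ext (c.τ.apply_symm_apply (x : c.F))
        rw [h6]
      · exfalso
        apply hne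
        have h7 : tp c.τ (tp c.τ P₁) = P₁ := by
          apply HeightOneSpectrum.ext
          ext x
          rw [tp_mem, tp_mem, ← hgP, h4]
          have h6 : NumberField.RingOfIntegers.mapRingEquiv
              ((c.τ : Gal(c.F/K)) ^ 2 : c.F ≃ₐ[K] c.F).toRingEquiv
              (NumberField.RingOfIntegers.mapRingEquiv (c.τ.symm : c.F ≃ₐ[K] c.F).toRingEquiv
              (NumberField.RingOfIntegers.mapRingEquiv (c.τ.symm : c.F ≃ₐ[K] c.F).toRingEquiv x)) =
              x := by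
            apply NumberField.RingOfIntegers.ext
            change ((c.τ : Gal(c.F/K)) ^ 2) (c.τ.symm (c.τ.symm (x : c.F))) = (x : c.F)
            rw [pow_two]
            change c.τ (c.τ (c.τ.symm (c.τ.symm (x : c.F)))) = (x : c.F)
            rw [c.τ.apply_symm_apply, c.τ.apply_symm_apply]
          rw [h6]
        rw [h7] at hcube
        exact hcube
    have hker : σ ∈ (AlgEquiv.restrictNormalHom (F := K) (K₁ := QBar) c.F).ker := by
      rw [MonoidHom.mem_ker]
      exact hg1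
    rwa [IntermediateField.restrictNormalHom_ker] at hker
  · intro hd
    by_contra hns
    have hfixP : tp c.τ P₁ = P₁ := by
      rcases hf2 with ⟨h3, -, -⟩ | ⟨-, -, h3⟩
      · exact absurd h3 hns
      · exact h3 P₁ ((hf1 P₁).2 hP₁)
    obtain ⟨σ₁, hσ₁⟩ := AlgEquiv.restrictNormalHom_surjective (F := K) (K₁ := c.F) QBar c.τ
    have hσx : ∀ x : c.F, ((c.τ x : c.F) : QBar) = σ₁ (x : QBar) := fun x => by
      rw [← hσ₁]
      exact AlgEquiv.restrictNormal_commutes σ₁ c.F x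
    have hQ := Q.prime l
    have hB : (σ₁ • Q.P l).IsPrime := inferInstance
    have hcl : IsAlgClosure c.F QBar := spi_clo c.F
    have hunder : (Q.P l).under (𝓞 c.F) = (σ₁ • Q.P l).under (𝓞 c.F) := by
      ext x
      change algebraMap (𝓞 c.F) (𝓞 QBar) x ∈ Q.P l ↔
        algebraMap (𝓞 c.F) (𝓞 QBar) x ∈ σ₁ • Q.P l
      rw [Ideal.mem_pointwise_smul_iff_inv_smul_mem, ← hmem, ← hfixP, tp_mem, hmem]
      have h1 : algebraMap (𝓞 c.F) (𝓞 QBar) (NumberField.RingOfIntegers.mapRingEquiv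
          (c.τ.symm : c.F ≃ₐ[K] c.F).toRingEquiv x) =
          σ₁⁻¹ • algebraMap (𝓞 c.F) (𝓞 QBar) x := by
        apply NumberField.RingOfIntegers.ext
        change ((c.τ.symm (x : c.F) : c.F) : QBar) = σ₁⁻¹ ((x : c.F) : QBar)
        apply σ₁.injective
        rw [← hσx, AlgEquiv.apply_symm_apply]
        exact (AlgEquiv.apply_symm_apply σ₁ _).symm
      rw [h1]
    obtain ⟨ρ, hρ⟩ := spi_trans (K := c.F) (Q.P l) (σ₁ • Q.P l) hQ hB hunder
    set ρ' : Gal(QBar/K) := ρ.restrictScalars K with hρ'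
    have hρ2 : σ₁ • Q.P l = ρ' • Q.P l := hρ
    have hfixρ : ρ' ∈ c.F.fixingSubgroup := by
      rw [IntermediateField.mem_fixingSubgroup_iff]
      intro x hx
      exact ρ.commutes ⟨x, hx⟩
    have hdec : ρ'⁻¹ * σ₁ ∈ dec (K := K) (Q.P l) := by
      have h1 : (ρ'⁻¹ * σ₁) • Q.P l = Q.P l := by
        rw [mul_smul, hρ2, inv_smul_smul]
      intro x
      constructor
      · intro hx
        rw [← h1] at hx
        rwa [Ideal.smul_mem_pointwise_smul_iff] at hx
      · intro hx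
        rw [← h1, Ideal.smul_mem_pointwise_smul_iff]
        exact hx
    have h2 := hd _ hdec
    rw [← hfix] at h2
    have h3 : σ₁ ∈ c.F.fixingSubgroup := by
      have h4 := mul_mem hfixρ h2
      rwa [mul_inv_cancel_left] at h4
    apply c.τ1
    rw [← IntermediateField.restrictNormalHom_ker, MonoidHom.mem_ker] at h3
    rw [← hσ₁]
    exact h3

end H48.T3
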