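import Pool.Agent.H48.T3.ApA
import Pool.Agent.H48.T3.Spi
import Pool.Agent.H38.MT.Defs

/-!
# [H48 T3 MQE] the number of admissible sets is `mq`, 30-60 lines. File Pool/Agent/H48/T3/MqE.lean

`apa` with `e = 1`: `∑_{f} 1 = ∑_{q ∈ AF K Y} ∏_{l ∈ q} (if l ∉ S ∧ Spc c l then 3 else 0)` (the number of primes over a split `l` is 3: `ov_card`, `finsum_mem_eq_finite_toFinset_sum`), which is the sum of `3 ^ #q` over the `q` all of whose elements are `∉ S` and split (`Finset.prod_eq_zero` for the others), that is `SQ Q S χ Y` (`spi`, H38/MT/Defs.lean).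
-/

set_option autoImplicit false

open scoped NumberField Classical
open IsDedekindDomain H38.ML H63.MA

noncomputable section

namespace H48.T3

open H48.KV

variable {K : IntermediateField ℚ QBar} [NumberField K]

theorem mq_adm (χ : Gal(QBar/K) →* Multiplicative (ZMod 3)) (hχ : χ ∈ Ch K) (c : Cub K)
    (hc : c.F = FX χ) (Q : DP K QBar) (S : Finset (Pl K)) (Y : ℝ) :
    (((AF c.F Y).filter (fun f => AdmC c S f)).card : ℝ) = H38.MT.mq Q S χ Y := by
  have h1 : (((AF c.F Y).filter (fun f => AdmC c S f)).card : ℝ) =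
      ∑ f ∈ (AF c.F Y).filter (fun f => AdmC c S f), ∏ P ∈ f, (fun _ : Pl c.F => (1 : ℝ)) P := by
    simp
  rw [h1, apa c S (fun _ => 1) Y]
  unfold H38.MT.mq H38.MT.SQ
  rw [Finset.sum_filter]
  refine Finset.sum_congr rfl fun q _ => ?_
  have h2 : ∀ l : Pl K, Spc c l → ∑ᶠ P ∈ {P : Pl c.F | Over P l}, (1 : ℝ) = 3 := by
    intro l hl
    obtain ⟨f, hf1, hf2⟩ := ov_card c l
    have h3 : {P : Pl c.F | Over P l} = (f : Set (Pl c.F)) := by
      ext P
      rw [Finset.mem_coe, hf1]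
      rfl
    rw [h3, finsum_mem_coe_finset]
    rcases hf2 with ⟨-, h4, -⟩ | ⟨h4, -, -⟩
    · rw [Finset.sum_const, h4]
      norm_num
    · exact absurd hl h4
  by_cases hq : ∀ l ∈ q, l ∉ S ∧ H38.MT.Spt Q χ l
  · rw [if_pos hq, ← Finset.prod_const]
    refine Finset.prod_congr rfl fun l hl => ?_
    have h4 : Spc c l := (spi χ hχ c hc Q l).2 (hq l hl).2
    rw [if_pos ⟨(hq l hl).1, h4⟩]
    exact h2 l h4
  · rw [if_neg hq]
    push Not at hq
    obtain ⟨l, hl, h3⟩ := hq
    refine Finset.prod_eq_zero hl (if_neg ?_)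
    rintro ⟨h4, h5⟩
    exact h3 h4 ((spi χ hχ c hc Q l).1 h5)

end H48.T3
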