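import Pool.Agent.H48.T3.VDef
import Pool.Agent.H48.KV.KumB
import Pool.Agent.H63.MC.CLkC
import Pool.Agent.H63.MA.KumB

/-!
# T3: the approximation lemma, part A: local conditions for a Kummer class over the cubic field

`ax_loc`: let `F` be the cyclic cubic field of `φ₀` and `ψ v`, `v ∈ S`, homomorphisms of finite type which agree with `φ₀` modulo `V` on the
decomposition group of `Q.P v`. There is `b ∈ Fˣ` whose Kummer character at `σ` is `lam (φ₀ g * ψ v (g⁻¹ σ g) * (φ₀ g)⁻¹)` whenever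
`g⁻¹ σ g` is in the decomposition group of `Q.P v` (`lock` over the base field `F`).
-/

set_option autoImplicit false

open scoped NumberField Classical Pointwise
open IsDedekindDomain H38.ML H63.MA

noncomputable section

namespace H48.T3

open H48.KV

private theorem axa_trans {K : Type} [Field K] [NumberField K] {Ω : Type} [Field Ω] [Algebra K Ω]
    [IsAlgClosure K Ω] (P P' : Ideal (𝓞 Ω)) (hP : P.IsPrime) (hP' : P'.IsPrime)
    (h : P.under (𝓞 K) = P'.under (𝓞 K)) : ∃ g : Gal(Ω/K), P' = g • P := by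
  have : IsGalois K Ω := IsAlgClosure.isGalois K Ω
  let _ : TopologicalSpace (𝓞 Ω) := ⊥
  have : DiscreteTopology (𝓞 Ω) := ⟨rfl⟩
  have : ContinuousSMul Gal(Ω/K) (𝓞 Ω) := by
    rw [continuousSMul_iff_stabilizer_isOpen]
    intro x
    have h1 := stabilizer_isOpen_of_isIntegral (K := K) (L := Ω) (x : Ω)
    have h2 : (MulAction.stabilizer Gal(Ω/K) x : Set Gal(Ω/K)) =
        (MulAction.stabilizer Gal(Ω/K) (x : Ω) : Set Gal(Ω/K)) := by
      ext g
      simp only [SetLike.mem_coe, MulAction.mem_stabilizer_iff]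
      constructor
      · intro hg
        exact congrArg (fun z : 𝓞 Ω => (z : Ω)) hg
      · intro hg
        exact NumberField.RingOfIntegers.ext hg
    rw [h2]
    exact h1
  have : Algebra.IsInvariant (𝓞 K) (𝓞 Ω) Gal(Ω/K) := ⟨fun b hb => by
    have h1 : (b : Ω) ∈ (⊥ : IntermediateField K Ω) := by
      rw [← InfiniteGalois.fixedField_bot (k := K) (K := Ω), IntermediateField.mem_fixedField_iff]
      intro g _
      exact congrArg (fun z : 𝓞 Ω => (z : Ω)) (hb g)
    obtain ⟨a, ha⟩ := IntermediateField.mem_bot.1 h1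
    have h2 : IsIntegral ℤ a := by
      have h3 : IsIntegral ℤ (algebraMap K Ω a) := by
        rw [ha]
        exact b.2
      exact (isIntegral_algebraMap_iff (algebraMap K Ω).injective).1 h3
    refine ⟨⟨a, h2⟩, NumberField.RingOfIntegers.ext ?_⟩
    exact ha⟩
  exact Algebra.IsInvariant.exists_smul_of_under_eq_of_profinite (A := 𝓞 K) (G := Gal(Ω/K)) P P' h

/-- conjugation of the decomposition groups -/
theorem ax_dec {K : Type} [Field K] {Ω : Type} [Field Ω] [Algebra K Ω]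
    (P : Ideal (𝓞 Ω)) (g σ : Gal(Ω/K)) : σ ∈ dec (K := K) (g • P) ↔ g⁻¹ * σ * g ∈ dec (K := K) P := by
  constructor
  · intro h x
    have h1 := h (g • x)
    rw [Ideal.mem_pointwise_smul_iff_inv_smul_mem, Ideal.mem_pointwise_smul_iff_inv_smul_mem,
      inv_smul_smul] at h1
    rw [mul_smul, mul_smul]
    exact h1
  · intro h x
    have h1 := h (g⁻¹ • x)
    rw [mul_smul, mul_smul, smul_inv_smul] at h1
    rw [Ideal.mem_pointwise_smul_iff_inv_smul_mem, Ideal.mem_pointwise_smul_iff_inv_smul_mem]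
    exact h1

variable {K : IntermediateField ℚ QBar} [NumberField K] {G : Type} [Group G] {k : KV G}
  {φ₀ : Gal(QBar/K) →* G} {F : IntermediateField K QBar} [NumberField F] {γ : Gal(QBar/K)}
  {τ : F ≃ₐ[K] F}

/-- for every prime of `F` there is `g` such that the prime is below `g • Q.P l` -/
private theorem axa_ex (Q : DP K QBar) (P : Pl F) :
    ∃ (l : Pl K) (g : Gal(QBar/K)), Over P l ∧ (g • Q.P l).under (𝓞 F) = P.asIdeal := by
  have hcl : IsAlgClosure F QBar := alg_cl F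
  obtain ⟨l, hl⟩ := exists_below (K := K) P
  obtain ⟨B, hB, hBP⟩ := gloc_over F QBar P.asIdeal P.isPrime
  have hBl : B.under (𝓞 K) = l.asIdeal := by
    rw [← hl, ← hBP]
    ext x
    exact Iff.rfl
  obtain ⟨g, hg⟩ := axa_trans (K := K) (Q.P l) B (Q.prime l) hB ((Q.under l).trans hBl.symm)
  exact ⟨l, g, hl, by rw [← hg]; exact hBP⟩

/-- the local character -/
private theorem axa_hom (h : FD k φ₀ F γ τ) (hk : ∀ g, k.pi g = 1 → g ∈ k.V) (P : Ideal (𝓞 QBar))
    (ψ : Gal(QBar/K) →* G) (hft : FT ψ)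
    (hpi : ∀ σ ∈ dec (K := K) P, k.pi (ψ σ) = k.pi (φ₀ σ)) (g : Gal(QBar/K)) :
    ∃ δ : dec (K := F) (g • P) →* Multiplicative (ZMod 2),
      (∀ σ : dec (K := F) (g • P), Multiplicative.toAdd (δ σ) =
        k.lam (φ₀ g * ψ (g⁻¹ * (σ : Gal(QBar/F)).restrictScalars K * g) * (φ₀ g)⁻¹)) ∧
      ∃ E : IntermediateField F QBar, FiniteDimensional F E ∧
        ∀ u : dec (K := F) (g • P), (u : Gal(QBar/F)) ∈ E.fixingSubgroup → δ u = 1 := by
  have hd : ∀ σ : dec (K := F) (g • P),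
      g⁻¹ * (σ : Gal(QBar/F)).restrictScalars K * g ∈ dec (K := K) P := by
    intro σ
    rw [← ax_dec]
    exact fun x => σ.2 x
  have hV : ∀ σ : dec (K := F) (g • P),
      ψ (g⁻¹ * (σ : Gal(QBar/F)).restrictScalars K * g) ∈ k.V := by
    intro σ
    apply hk
    rw [hpi _ (hd σ)]
    simp only [map_mul, map_inv]
    rw [fd_pi h, mul_one, inv_mul_cancel]
  have hV' : ∀ σ : dec (K := F) (g • P),
      φ₀ g * ψ (g⁻¹ * (σ : Gal(QBar/F)).restrictScalars K * g) * (φ₀ g)⁻¹ ∈ k.V :=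
    fun σ => k.nV.conj_mem _ (hV σ) _
  refine ⟨⟨⟨fun σ => Multiplicative.ofAdd
      (k.lam (φ₀ g * ψ (g⁻¹ * (σ : Gal(QBar/F)).restrictScalars K * g) * (φ₀ g)⁻¹)), ?_⟩, ?_⟩,
      fun σ => rfl, ?_⟩
  · have h1 : ((1 : dec (K := F) (g • P)) : Gal(QBar/F)).restrictScalars K = 1 := rfl
    rw [h1, mul_one, inv_mul_cancel, map_one, mul_one, mul_inv_cancel, kv_lam_one]
    rfl
  · intro σ σ'
    change Multiplicative.ofAdd _ = Multiplicative.ofAdd _ * Multiplicative.ofAdd _
    rw [← ofAdd_add, ← k.add _ (hV' σ) _ (hV' σ')]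
    have h1 : ((σ * σ' : dec (K := F) (g • P)) : Gal(QBar/F)).restrictScalars K =
      (σ : Gal(QBar/F)).restrictScalars K * (σ' : Gal(QBar/F)).restrictScalars K := rfl
    have h2 : g⁻¹ * ((σ : Gal(QBar/F)).restrictScalars K * (σ' : Gal(QBar/F)).restrictScalars K) * g
      = (g⁻¹ * (σ : Gal(QBar/F)).restrictScalars K * g) *
        (g⁻¹ * (σ' : Gal(QBar/F)).restrictScalars K * g) := by group
    rw [h1, h2, map_mul]
    congr 2
    group
  · obtain ⟨E, hE1, hE2⟩ := hft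
    have hF : FiniteDimensional K F := FiniteDimensional.of_finrank_pos (by rw [h.deg]; norm_num)
    let E' : IntermediateField K QBar := E.map (g : QBar →ₐ[K] QBar)
    have hE' : FiniteDimensional K E' := by
      have h1 : E ≃ₐ[K] E' := IntermediateField.equivMap E _
      exact h1.toLinearEquiv.finiteDimensional
    have hle : F ≤ F ⊔ E' := le_sup_left
    have hfs : FiniteDimensional K (F ⊔ E' : IntermediateField K QBar) :=
      IntermediateField.finiteDimensional_sup F E'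
    refine ⟨IntermediateField.extendScalars hle, ?_, ?_⟩
    · have h1 : FiniteDimensional K (IntermediateField.extendScalars hle) := hfs
      exact FiniteDimensional.right K F _
    · intro u hu
      rw [IntermediateField.mem_fixingSubgroup_iff] at hu
      have h1 : g⁻¹ * (u : Gal(QBar/F)).restrictScalars K * g ∈ E.fixingSubgroup := by
        rw [IntermediateField.mem_fixingSubgroup_iff]
        intro x hx
        have h2 : (u : Gal(QBar/F)) (g x) = g x := by
          refine hu (g x) ?_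
          rw [IntermediateField.mem_extendScalars]
          exact (le_sup_right : E' ≤ F ⊔ E') ((IntermediateField.mem_map E).2 ⟨x, hx, rfl⟩)
        change g⁻¹ ((u : Gal(QBar/F)) (g x)) = x
        rw [h2]
        exact g.symm_apply_apply x
      have h2 : ψ (g⁻¹ * (u : Gal(QBar/F)).restrictScalars K * g) = 1 := hE2 h1
      change Multiplicative.ofAdd _ = 1
      rw [h2, mul_one, mul_inv_cancel, kv_lam_one]
      rfl

theorem ax_loc (h : FD k φ₀ F γ τ) (hk : ∀ g, k.pi g = 1 → g ∈ k.V) (Q : DP K QBar)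
    (S : Finset (Pl K)) (ψ : Pl K → Gal(QBar/K) →* G) (hft : ∀ v ∈ S, FT (ψ v))
    (hpi : ∀ v ∈ S, ∀ σ ∈ dec (K := K) (Q.P v), k.pi (ψ v σ) = k.pi (φ₀ σ)) :
    ∃ b : Fˣ, ∀ v ∈ S, ∀ (g : Gal(QBar/K)) (σ : Gal(QBar/F)) (x : Gal(QBar/K)),
      x = g⁻¹ * σ.restrictScalars K * g → x ∈ dec (K := K) (Q.P v) →
      kk 2 (-1 : F) b σ = k.lam (φ₀ g * ψ v x * (φ₀ g)⁻¹) := by
  have hcl : IsAlgClosure F QBar := alg_cl F
  choose lf gf hl hg using axa_ex (F := F) Q
  let Q' : DP F QBar :=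
    { P := fun P => gf P • Q.P (lf P)
      prime := fun P => by
        have := Q.prime (lf P)
        infer_instance
      under := hg }
  obtain ⟨S', hS'⟩ : ∃ S' : Finset (Pl F), ∀ v ∈ S, ∀ P : Pl F, Over P v → P ∈ S' := by
    refine ⟨S.biUnion fun v => (over_finite (L := F) v).toFinset, fun v hv P hP => ?_⟩
    rw [Finset.mem_biUnion]
    exact ⟨v, hv, (Set.Finite.mem_toFinset _).2 hP⟩
  have hex : ∀ P : Pl F, ∃ δ : dec (K := F) (Q'.P P) →* Multiplicative (ZMod 2),
      (lf P ∈ S → ∀ σ : dec (K := F) (Q'.P P), Multiplicative.toAdd (δ σ) =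
        k.lam (φ₀ (gf P) * ψ (lf P) ((gf P)⁻¹ * (σ : Gal(QBar/F)).restrictScalars K * gf P) *
          (φ₀ (gf P))⁻¹)) ∧
      ∃ E : IntermediateField F QBar, FiniteDimensional F E ∧
        ∀ u : dec (K := F) (Q'.P P), (u : Gal(QBar/F)) ∈ E.fixingSubgroup → δ u = 1 := by
    intro P
    by_cases hP : lf P ∈ S
    · obtain ⟨δ, h1, h2⟩ := axa_hom h hk (Q.P (lf P)) (ψ (lf P)) (hft _ hP) (hpi _ hP) (gf P)
      exact ⟨δ, fun _ => h1, h2⟩
    · refine ⟨1, fun h1 => absurd h1 hP, ⊥, inferInstance, fun u _ => rfl⟩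
  choose δ hδ1 hδ2 using hex
  obtain ⟨b, hb⟩ := lock Nat.prime_two (neg_one_prim F) S' Q' δ (fun P _ => hδ2 P)
  refine ⟨b, fun v hv g σ x hx hxd => ?_⟩
  -- the prime of `F` below `g • Q.P v`
  have hQp := Q.prime v
  have hB : (g • Q.P v).IsPrime := by
    infer_instance
  have hBK : (g • Q.P v).under (𝓞 K) = v.asIdeal := by
    rw [Ideal.under_smul]
    exact Q.under v
  have hBF : ((g • Q.P v).under (𝓞 F)).comap (algebraMap (𝓞 K) (𝓞 F)) = v.asIdeal := by
    rw [← hBK]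
    ext x
    exact Iff.rfl
  let P : Pl F :=
    { asIdeal := (g • Q.P v).under (𝓞 F)
      isPrime := Ideal.IsPrime.under _ _
      ne_bot := by
        intro h0
        apply v.ne_bot
        rw [← hBF, h0]
        exact Ideal.comap_bot_of_injective _ (FaithfulSMul.algebraMap_injective (𝓞 K) (𝓞 F)) }
  have hPv : Over P v := hBF
  have hlv : lf P = v := below_unique (hl P) hPv
  obtain ⟨e, he⟩ := axa_trans (K := F) (Q'.P P) (g • Q.P v) (Q'.prime P) hB (Q'.under P)
  have he' : g • Q.P v = (e.restrictScalars K * gf P) • Q.P v := by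
    rw [he, mul_smul]
    change e • (gf P • Q.P (lf P)) = _
    rw [hlv]
    rfl
  -- the element `e⁻¹ σ e`
  have hσ1 : σ ∈ dec (K := F) (g • Q.P v) := by
    have h1 : σ.restrictScalars K ∈ dec (K := K) (g • Q.P v) := by
      rw [ax_dec, ← hx]
      exact hxd
    exact fun y => h1 y
  have hσ2 : e⁻¹ * σ * e ∈ dec (K := F) (Q'.P P) := by
    rw [← ax_dec, ← he]
    exact hσ1
  have h1 := hb P (hS' v hv P hPv) ⟨_, hσ2⟩
  rw [hδ1 P (by rw [hlv]; exact hv)] at h1
  have h2 : kk 2 (-1 : F) b (e⁻¹ * σ * e) = kk 2 (-1 : F) b σ := by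
    have h3 : kk 2 (-1 : F) b (e⁻¹ * σ * e) =
      Multiplicative.toAdd (kc 2 (-1 : F) QBar b (e⁻¹ * σ * e)) := rfl
    have h4 : kk 2 (-1 : F) b σ = Multiplicative.toAdd (kc 2 (-1 : F) QBar b σ) := rfl
    rw [h3, h4]
    simp only [map_mul, map_inv]
    rw [mul_comm _ (kc 2 (-1 : F) QBar b σ), mul_assoc, inv_mul_cancel, mul_one]
  change kk 2 (-1 : F) b (e⁻¹ * σ * e) = _ at h1
  rw [h2] at h1
  rw [h1]
  -- `d = gP⁻¹ e⁻¹ g ∈ dec`
  have hrs : ((e⁻¹ * σ * e : Gal(QBar/F))).restrictScalars K =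
      (e.restrictScalars K)⁻¹ * σ.restrictScalars K * e.restrictScalars K := rfl
  have hd : (gf P)⁻¹ * (e.restrictScalars K)⁻¹ * g ∈ dec (K := K) (Q.P v) := by
    have h3 : ((gf P)⁻¹ * (e.restrictScalars K)⁻¹ * g) • Q.P v = Q.P v := by
      rw [mul_smul, he', ← mul_smul]
      have h4 : (gf P)⁻¹ * (e.restrictScalars K)⁻¹ * (e.restrictScalars K * gf P) = 1 := by group
      rw [h4, one_smul]
    intro y
    have h4 : ((gf P)⁻¹ * (e.restrictScalars K)⁻¹ * g) • y ∈
      ((gf P)⁻¹ * (e.restrictScalars K)⁻¹ * g) • Q.P v ↔ y ∈ Q.P v := Ideal.smul_mem_pointwise_smul_iff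
    rw [h3] at h4
    exact h4
  set d := (gf P)⁻¹ * (e.restrictScalars K)⁻¹ * g with hddef
  have hg1 : g = e.restrictScalars K * gf P * d := by
    rw [hddef]
    group
  have h5 : (gf P)⁻¹ * (((⟨_, hσ2⟩ : dec (K := F) (Q'.P P)) : Gal(QBar/F))).restrictScalars K * gf P
      = d * x * d⁻¹ := by
    change (gf P)⁻¹ * ((e⁻¹ * σ * e : Gal(QBar/F))).restrictScalars K * gf P = _
    rw [hrs, hx, hddef]
    group
  rw [h5]
  have hxV : ψ v x ∈ k.V := by
    apply hk
    rw [hpi v hv x hxd, hx]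
    simp only [map_mul, map_inv]
    rw [fd_pi h, mul_one, inv_mul_cancel]
  have h6 : φ₀ (gf P) * ψ (lf P) (d * x * d⁻¹) * (φ₀ (gf P))⁻¹ =
      (φ₀ (gf P) * ψ v d) * ψ v x * (φ₀ (gf P) * ψ v d)⁻¹ := by
    rw [hlv, map_mul, map_mul, map_inv]
    group
  rw [h6]
  congr 1
  refine kv_act k ?_ hxV
  rw [map_mul, hpi v hv d hd]
  conv_rhs => rw [hg1, map_mul, map_mul, map_mul, map_mul, fd_pi h, one_mul]

end H48.T3
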