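import Pool.Agent.H48.T3.AxC
import Pool.Agent.H48.T3.GrD
import Pool.Agent.H38.ML.Split
import Pool.Agent.H63.BU.UOrd
import Pool.Agent.H63.MA.SymA

/-!
# T3: the approximation lemma, part D: surjectivity

`ax_fd`: the cyclic cubic field of `φ₀`. `ax_spl`: a prime outside a finite set on whose decomposition group `pi ∘ φ₀` is trivial.
`ax_surj`: `ax_lift` with a surjective `φ'`: one more place at which the local homomorphism is ramified with values in `V`.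
-/

set_option autoImplicit false

open scoped NumberField Classical Pointwise
open IsDedekindDomain H38.ML H63.MA

noncomputable section

namespace H48.T3

open H48.KV

variable {K : IntermediateField ℚ QBar} [NumberField K] {G : Type} [Group G] {k : KV G}
  {φ₀ : Gal(QBar/K) →* G}

/-- the cyclic cubic field of `φ₀` -/
theorem ax_fd (hft : FT φ₀) (hs : Function.Surjective (k.pi.comp φ₀)) :
    ∃ (F : IntermediateField K QBar) (γ : Gal(QBar/K)) (τ : F ≃ₐ[K] F), FD k φ₀ F γ τ := by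
  obtain ⟨M, hfd, hgal, e, he, hρ⟩ := factor (k.pi.comp φ₀) (ft_comp k.pi φ₀ hft)
  have hsurj : Function.Surjective e := by
    intro x
    obtain ⟨σ, hσ⟩ := hs x
    refine ⟨res M σ, ?_⟩
    rw [hρ, hσ]
  have hcard : Nat.card Gal(M/K) = 3 := by
    rw [Nat.card_congr (Equiv.ofBijective e ⟨he, hsurj⟩), Nat.card_eq_fintype_card]
    rfl
  obtain ⟨γ, hγ⟩ := hs (Multiplicative.ofAdd 1)
  have hne1 : (Multiplicative.ofAdd (1 : ZMod 3)) ≠ 1 := by decide
  refine ⟨M, γ, AlgEquiv.restrictNormal γ M, ?_, hgal, fun σ => ?_, ?_, fun x => ?_⟩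
  · rw [← IsGalois.card_aut_eq_finrank, hcard]
  · rw [← IntermediateField.restrictNormalHom_ker M, MonoidHom.mem_ker]
    have h1 : e (res M σ) = k.pi (φ₀ σ) := by rw [hρ, MonoidHom.comp_apply]
    rw [← h1]
    constructor
    · intro h2
      have h3 : res M σ = 1 := h2
      rw [h3, map_one]
    · intro h2
      exact he (by rw [h2, map_one])
  · rw [MonoidHom.comp_apply] at hγ
    rw [hγ]
    exact hne1
  · exact (AlgEquiv.restrictNormal_commutes γ M x).symm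

/-- a prime outside a finite set on whose decomposition group `pi ∘ φ₀` is trivial -/
theorem ax_spl {F : IntermediateField K QBar} [NumberField F] {γ : Gal(QBar/K)}
    {τ : F ≃ₐ[K] F} (h : FD k φ₀ F γ τ) (Q : DP K QBar) (S : Finset (Pl K)) :
    ∃ v : Pl K, v ∉ S ∧ ¬ Above 2 v ∧ ∀ σ ∈ dec (K := K) (Q.P v), k.pi (φ₀ σ) = 1 := by
  have hgal : IsGalois K F := h.gal
  have hfin : ((fun v : Pl K => v.asIdeal) '' ((S : Set (Pl K)) ∪ {v : Pl K | Above 2 v})).Finite :=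
    (S.finite_toSet.union (finite_above two_ne_zero)).image _
  obtain ⟨v, hv, hv0, hvS, hsp⟩ := exists_split K F _ hfin
  have hv1 : ∀ w : Pl K, w = ⟨v, hv, hv0⟩ → w ∉ S ∧ ¬ Above 2 w := by
    intro w hw
    constructor
    · intro h1
      apply hvS
      exact ⟨w, Or.inl h1, by rw [hw]⟩
    · intro h1
      apply hvS
      exact ⟨w, Or.inr h1, by rw [hw]⟩
  refine ⟨⟨v, hv, hv0⟩, (hv1 _ rfl).1, (hv1 _ rfl).2, fun σ hσ => ?_⟩
  set w : Pl K := ⟨v, hv, hv0⟩ with hw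
  have hQp := Q.prime w
  have hQ1 : ((Q.P w).under (𝓞 F)).IsPrime := Ideal.IsPrime.under _ _
  have hQ2 : ((Q.P w).under (𝓞 F)).under (𝓞 K) = v := by
    have h1 : (Q.P w).under (𝓞 K) = v := Q.under w
    rw [← h1]
    ext x
    exact Iff.rfl
  have hst := hsp _ hQ1 hQ2
  let ρ : Gal(F/K) := AlgEquiv.restrictNormal σ F
  have hρ : ∀ x : F, ((ρ x : F) : QBar) = σ (x : QBar) := AlgEquiv.restrictNormal_commutes σ F
  have hρm : ρ ∈ MulAction.stabilizer Gal(F/K) ((Q.P w).under (𝓞 F)) := by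
    rw [MulAction.mem_stabilizer_iff]
    ext y
    rw [Ideal.mem_pointwise_smul_iff_inv_smul_mem]
    have h1 := hσ (algebraMap (𝓞 F) (𝓞 QBar) (ρ⁻¹ • y))
    have h2 : σ • (algebraMap (𝓞 F) (𝓞 QBar) (ρ⁻¹ • y)) = algebraMap (𝓞 F) (𝓞 QBar) y := by
      apply NumberField.RingOfIntegers.ext
      change σ (((ρ⁻¹ • y : 𝓞 F) : F) : QBar) = ((y : F) : QBar)
      rw [← hρ]
      congr 1
      exact ρ.apply_symm_apply (y : F)
    rw [h2] at h1
    exact h1.symm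
  rw [hst, Subgroup.mem_bot] at hρm
  rw [← h.fix, IntermediateField.mem_fixingSubgroup_iff]
  intro x hx
  have h3 := hρ ⟨x, hx⟩
  rw [hρm] at h3
  exact h3.symm

private theorem axd_pow {x : G} (hx : x ^ 2 = 1) :
    ∃ j : Multiplicative (ZMod 2) →* G, j (Multiplicative.ofAdd 1) = x ∧
      ∀ y, j y ∈ Subgroup.zpowers x := by
  have hmod : ∀ n : ℕ, x ^ n = x ^ (n % 2) := by
    intro n
    conv_lhs => rw [← Nat.mod_add_div n 2, pow_add, pow_mul, hx, one_pow, mul_one]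
  refine ⟨⟨⟨fun y => x ^ (Multiplicative.toAdd y).val, ?_⟩, ?_⟩, ?_, ?_⟩
  · rw [toAdd_one, ZMod.val_zero, pow_zero]
  · intro y z
    change x ^ (Multiplicative.toAdd y + Multiplicative.toAdd z).val = _ * _
    rw [ZMod.val_add, ← hmod, pow_add]
  · change x ^ ((1 : ZMod 2)).val = x
    rw [show ((1 : ZMod 2)).val = 1 from rfl, pow_one]
  · intro y
    exact Subgroup.npow_mem_zpowers x _

theorem ax_surj {F : IntermediateField K QBar} [NumberField F] {γ : Gal(QBar/K)}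
    {τ : F ≃ₐ[K] F} (h : FD k φ₀ F γ τ) (hk : ∀ g, k.pi g = 1 → g ∈ k.V) (hft0 : FT φ₀)
    (hs : Function.Surjective (k.pi.comp φ₀)) (h0 : ∀ σ, k.pi (φ₀ σ) = 1 → φ₀ σ = 1)
    (Q : DP K QBar) (S : Finset (Pl K)) (ψ : Pl K → Gal(QBar/K) →* G) (hft : ∀ v ∈ S, FT (ψ v))
    (hpi : ∀ v ∈ S, ∀ σ ∈ dec (K := K) (Q.P v), k.pi (ψ v σ) = k.pi (φ₀ σ)) :
    ∃ φ' : Gal(QBar/K) →* G, FT φ' ∧ Function.Surjective φ' ∧ Eqv k φ' φ₀ ∧
      ∀ v ∈ S, ∃ δ ∈ k.V, ∀ σ ∈ dec (K := K) (Q.P v), ψ v σ = δ * φ' σ * δ⁻¹ := by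
  obtain ⟨v₀, hv₀S, hv₀2, hv₀⟩ := ax_spl h Q S
  obtain ⟨π, hπ⟩ := exists_unif v₀
  have hm1 := neg_one_prim K
  obtain ⟨L, hL⟩ := H63.BU.uord_at QBar Nat.prime_two hm1 hv₀2 hπ (Q.P v₀) (Q.prime v₀) (Q.under v₀)
  have hLt := ld_kk_t Nat.prime_two hm1 hv₀2 hπ L π
  rw [hπ, Int.cast_one] at hLt
  obtain ⟨j, hj1, hj2⟩ := axd_pow (kv_sq k k.wV)
  have hjV : ∀ y, j y ∈ k.V := fun y => (Subgroup.zpowers_le.2 k.wV) (hj2 y)
  obtain ⟨ψ₀, hψ₀⟩ : ∃ ψ₀ : Gal(QBar/K) →* G, ψ₀ = j.comp (kc 2 (-1 : K) QBar π) := ⟨_, rfl⟩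
  have hft₀ : FT ψ₀ := by
    rw [hψ₀]
    exact ft_comp j _ (kc_is Nat.prime_two hm1 π).1
  have hψ₀V : ∀ σ, ψ₀ σ ∈ k.V := fun σ => by
    rw [hψ₀]
    exact hjV _
  have hψ₀t : ψ₀ L.t = k.w := by
    rw [hψ₀, MonoidHom.comp_apply, ← hj1]
    congr 1
  have htd : L.t ∈ dec (K := K) (Q.P v₀) := by
    intro x
    have h1 : L.t • x - x ∈ Q.P v₀ := by
      have h2 := L.ht
      rw [hL] at h2
      exact h2 x
    constructor
    · intro h2
      have h3 : x = L.t • x - (L.t • x - x) := by ring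
      rw [h3]
      exact Ideal.sub_mem _ h2 h1
    · intro h2
      have h3 : L.t • x = (L.t • x - x) + x := by ring
      rw [h3]
      exact Ideal.add_mem _ h1 h2
  obtain ⟨φ', hφ'1, hφ'2, hφ'3⟩ := ax_lift h hk hft0 hs h0 Q (insert v₀ S)
    (fun v => if v = v₀ then ψ₀ else ψ v) (fun v hv => by
      change FT (if v = v₀ then ψ₀ else ψ v)
      by_cases hv' : v = v₀
      · rw [if_pos hv']
        exact hft₀
      · rw [if_neg hv']
        exact hft v (Finset.mem_of_mem_insert_of_ne hv hv')) (fun v hv σ hσ => by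
      change k.pi ((if v = v₀ then ψ₀ else ψ v) σ) = _
      by_cases hv' : v = v₀
      · rw [if_pos hv']
        rw [hv'] at hσ
        rw [hv₀ σ hσ, k.piV _ (hψ₀V σ)]
      · rw [if_neg hv']
        exact hpi v (Finset.mem_of_mem_insert_of_ne hv hv') σ hσ)
  refine ⟨φ', hφ'1, ?_, hφ'2, fun v hv => ?_⟩
  · obtain ⟨δ, hδ, hδ'⟩ := hφ'3 v₀ (Finset.mem_insert_self _ _)
    have h1 := hδ' L.t htd
    change (if v₀ = v₀ then ψ₀ else ψ v₀) L.t = _ at h1
    rw [if_pos rfl, hψ₀t] at h1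
    have h2 : φ' L.t = δ⁻¹ * k.w * δ := by
      rw [h1]
      group
    refine hk_surj k hk φ' ?_ (σ := L.t) ?_ ?_
    · intro x
      obtain ⟨σ, hσ⟩ := hs x
      refine ⟨σ, ?_⟩
      rw [MonoidHom.comp_apply] at hσ ⊢
      rw [eqv_pi k hφ'2, hσ]
    · rw [h2]
      exact k.V.mul_mem (k.V.mul_mem (k.V.inv_mem hδ) k.wV) hδ
    · intro h3
      rw [h2] at h3
      apply k.w1
      have h4 : k.w = δ * (δ⁻¹ * k.w * δ) * δ⁻¹ := by group
      rw [h4, h3, mul_one, mul_inv_cancel]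
  · obtain ⟨δ, hδ, hδ'⟩ := hφ'3 v (Finset.mem_insert_of_mem hv)
    refine ⟨δ, hδ, fun σ hσ => ?_⟩
    have h1 := hδ' σ hσ
    have hne : v ≠ v₀ := by
      rintro rfl
      exact hv₀S hv
    change (if v = v₀ then ψ₀ else ψ v) σ = _ at h1
    rw [if_neg hne] at h1
    exact h1

end H48.T3
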