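import Pool.Agent.H48.T3.Defs
import Pool.Agent.H48.KV.GrpC
import Pool.Agent.H48.KV.FldC
import Pool.Agent.H48.KV.ParB

/-!
# [H48 T3 FDC] an `FD` for every cyclic cubic field, 60-100 lines. File Pool/Agent/H48/T3/FdC.lean

* `cub_fd`: `kv_ex` (Pool/Agent/H48/KV/GrpC.lean) for `G = alternatingGroup (Fin 4)` and `V` = its normal Klein four group (for instance the kernel/commutator subgroup; all needed facts by `decide`; `G / V` has order 3, `G` is not nilpotent: see Pool/Agent/H88/A4 (`WeakMalleA4`, Fin*.lean) or H36/QA (`IsV`)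
  for the same facts) gives `k : KV G`. Instead of `A_4` any `KV G` will do, for instance the semidirect product written by hand. `Gal(c.F/K)` has order 3 (`c.deg`, `c.gal`, `IsGalois.card_aut_eq_finrank`), generated by `c.τ` (`c.τ1`), so there is an isomorphism `e : Gal(c.F/K) ≃* Multiplicative (ZMod 3)` (cyclic groups of the
  same order). Let `χ = e ∘ (restriction Gal(QBar/K) → Gal(c.F/K))` (`AlgEquiv.restrictNormalHom`, surjective, kernel `c.F.fixingSubgroup`: `IntermediateField.restrictNormalHom_ker`), `s : Multiplicative (ZMod 3) →* G` with `k.pi (s x) = x` (`sec_ex`, GrpD.lean, needs `ker pi = V`; or choose an element of order 3), `φ₀ = s ∘ χ`, `γ` with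
  restriction `c.τ`.
* the other statements follow from the lemmas of KV/FldB.lean, FldC.lean, ParA.lean, ParB.lean (proved below).
-/

set_option autoImplicit false

open scoped NumberField Classical
open IsDedekindDomain H38.ML H63.MA

noncomputable section

namespace H48.T3

open H48.KV

variable {K : IntermediateField ℚ QBar} [NumberField K]

/-- the action of order 3 on the Klein four group -/
private def ac (r : ZMod 3) (v : ZMod 2 × ZMod 2) : ZMod 2 × ZMod 2 :=
  if r = 0 then v else if r = 1 then (v.2, v.1 + v.2) else (v.1 + v.2, v.1)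

private theorem ac_zero : ∀ v, ac 0 v = v := by decide

private theorem ac_add : ∀ r s v, ac (r + s) v = ac r (ac s v) := by decide

private theorem ac_hom : ∀ r v w, ac r (v + w) = ac r v + ac r w := by decide

private theorem ac_inv : ∀ r v, ac (-r) (ac r v) = v := by decide

private theorem ac_inv2 : ∀ r v, ac r (ac (-r) v) = v := by decide

private theorem ac_tr : ∀ r, r ≠ 0 → ∀ v, v.1 + (ac r v).1 + (ac (r + r) v).1 = 0 := by decide

private theorem ac_sep : ∀ v, (∀ r, (ac r v).1 = 0) → v = 0 := by decide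

private def acm : Multiplicative (ZMod 3) →* MulAut (Multiplicative (ZMod 2 × ZMod 2)) where
  toFun r :=
    { toFun := fun v => Multiplicative.ofAdd (ac r.toAdd v.toAdd)
      invFun := fun v => Multiplicative.ofAdd (ac (-r.toAdd) v.toAdd)
      left_inv := fun v => ac_inv r.toAdd v.toAdd
      right_inv := fun v => ac_inv2 r.toAdd v.toAdd
      map_mul' := fun v w => ac_hom r.toAdd v.toAdd w.toAdd }
  map_one' := MulEquiv.ext fun v => ac_zero v.toAdd
  map_mul' r s := MulEquiv.ext fun v => ac_add r.toAdd s.toAdd v.toAdd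

private abbrev GA : Type := Multiplicative (ZMod 2 × ZMod 2) ⋊[acm] Multiplicative (ZMod 3)

private theorem ga_conj (g x : GA) (hx : x.right = 1) :
    (g * x * g⁻¹).left = acm g.right x.left := by
  rw [SemidirectProduct.mul_left, SemidirectProduct.mul_left, SemidirectProduct.mul_right, hx,
    mul_one, SemidirectProduct.inv_left, ← MulAut.mul_apply, ← map_mul, mul_inv_cancel, map_one,
    MulAut.one_apply, mul_comm g.left, mul_inv_cancel_right]

private def kga : KV GA where
  V := (SemidirectProduct.rightHom : GA →* Multiplicative (ZMod 3)).ker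
  nV := inferInstance
  pi := SemidirectProduct.rightHom
  sj := SemidirectProduct.rightHom_surjective
  piV x hx := hx
  cen g hg x hx := by
    have hx' : x.right = 1 := hx
    have hg' : g.right = 1 := hg
    refine SemidirectProduct.ext ?_ ?_
    · rw [ga_conj g x hx', hg', map_one, MulAut.one_apply]
    · rw [SemidirectProduct.mul_right, SemidirectProduct.mul_right, hx', mul_one,
        SemidirectProduct.inv_right, mul_inv_cancel]
  lam x := x.left.toAdd.1
  add x hx y hy := by
    have hx' : x.right = 1 := hx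
    rw [SemidirectProduct.mul_left, hx', map_one, MulAut.one_apply]
    rfl
  tr g hg x hx := by
    have hx' : x.right = 1 := hx
    have hg' : g.right ≠ 1 := hg
    rw [ga_conj g x hx', ga_conj (g ^ 2) x hx', pow_two, SemidirectProduct.mul_right]
    exact ac_tr g.right.toAdd (fun h => hg' h) x.left.toAdd
  sep x hx h := by
    have hx' : x.right = 1 := hx
    refine SemidirectProduct.ext ?_ hx'
    refine ac_sep x.left.toAdd fun r => ?_
    have h1 := h (SemidirectProduct.inr (Multiplicative.ofAdd r))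
    rw [ga_conj _ x hx'] at h1
    exact h1
  w := SemidirectProduct.inl (Multiplicative.ofAdd (0, 1))
  wV := SemidirectProduct.rightHom_inl _
  w1 := by
    intro h
    have h1 := congrArg SemidirectProduct.left h
    rw [SemidirectProduct.left_inl, SemidirectProduct.one_left] at h1
    exact absurd h1 (by decide)
  lw := rfl

theorem cub_fd (c : Cub K) : ∃ (G : Type) (_ : Group G) (k : KV G) (φ₀ : Gal(QBar/K) →* G)
    (γ : Gal(QBar/K)), FD k φ₀ c.F γ c.τ := by
  have hc : Nat.card Gal(c.F/K) = 3 := by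
    rw [IsGalois.card_aut_eq_finrank, c.deg]
  have h3 : Nat.card (Multiplicative (ZMod 3)) = 3 := by
    rw [Nat.card_eq_fintype_card]
    rfl
  have : Fact (Nat.Prime 3) := ⟨Nat.prime_three⟩
  let e : Gal(c.F/K) ≃* Multiplicative (ZMod 3) := mulEquivOfPrimeCardEq hc h3
  obtain ⟨γ, hγ⟩ := AlgEquiv.restrictNormalHom_surjective (F := K) (K₁ := c.F) QBar c.τ
  let χ : Gal(QBar/K) →* Multiplicative (ZMod 3) :=
    e.toMonoidHom.comp (AlgEquiv.restrictNormalHom c.F)
  have hχ : ∀ σ, χ σ = 1 ↔ AlgEquiv.restrictNormalHom (F := K) (K₁ := QBar) c.F σ = 1 := by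
    intro σ
    exact EmbeddingLike.map_eq_one_iff (f := e)
  have hpi : ∀ σ, kga.pi ((SemidirectProduct.inr.comp χ) σ) = χ σ := fun σ => rfl
  refine ⟨GA, inferInstance, kga, SemidirectProduct.inr.comp χ, γ, c.deg, c.gal, fun σ => ?_, ?_,
    fun x => ?_⟩
  · rw [hpi, hχ, ← IntermediateField.restrictNormalHom_ker c.F, MonoidHom.mem_ker]
  · rw [hpi, Ne, hχ, hγ]
    exact c.τ1
  · rw [← hγ]
    exact (AlgEquiv.restrictNormal_commutes γ c.F x).symm

theorem cb_cube (c : Cub K) (x : c.F) : c.τ (c.τ (c.τ x)) = x := by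
  obtain ⟨G, hG, k, φ₀, γ, h⟩ := cub_fd c
  exact fd_cube h x

theorem cb_ucube (c : Cub K) (x : c.Fˣ) : tu c.τ (tu c.τ (tu c.τ x)) = x := by
  obtain ⟨G, hG, k, φ₀, γ, h⟩ := cub_fd c
  exact tu_cube h x

theorem cb_norm (c : Cub K) (x : c.F) :
    algebraMap K c.F (Algebra.norm K x) = x * c.τ x * c.τ (c.τ x) := by
  obtain ⟨G, hG, k, φ₀, γ, h⟩ := cub_fd c
  exact fd_norm h x

theorem cb_pcube (c : Cub K) (P : Pl c.F) : tp c.τ (tp c.τ (tp c.τ P)) = P := by
  obtain ⟨G, hG, k, φ₀, γ, h⟩ := cub_fd c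
  exact tp_cube h P

theorem cb_tr (c : Cub K) (P P' : Pl c.F) (l : Pl K) (hP : Over P l) (hP' : Over P' l) :
    P' = P ∨ P' = tp c.τ P ∨ P' = tp c.τ (tp c.τ P) := by
  obtain ⟨G, hG, k, φ₀, γ, h⟩ := cub_fd c
  exact tp_tr h P P' l hP hP'

theorem cb_deg (c : Cub K) (P : Pl c.F) (l : Pl K) (hP : Over P l) (hne : tp c.τ P ≠ P) :
    nm P = nm l := by
  obtain ⟨G, hG, k, φ₀, γ, h⟩ := cub_fd c
  exact tp_deg h P l hP hne

theorem cb_inj (c : Cub K) : Function.Injective (tp c.τ) := by
  obtain ⟨G, hG, k, φ₀, γ, h⟩ := cub_fd c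
  exact tp_inj h

theorem cb_sq1 (c : Cub K) (a : c.Fˣ) (hn : IsSquare (Algebra.norm K (a : c.F))) :
    ∃ b : c.Fˣ, a * tu c.τ a * tu c.τ (tu c.τ a) = b ^ 2 := by
  obtain ⟨G, hG, k, φ₀, γ, h⟩ := cub_fd c
  exact fd_sq1 h a hn

theorem cb_sq2 (c : Cub K) (a b : c.Fˣ) (hb : a * tu c.τ a * tu c.τ (tu c.τ a) = b ^ 2) :
    IsSquare (Algebra.norm K (a : c.F)) := by
  obtain ⟨G, hG, k, φ₀, γ, h⟩ := cub_fd c
  exact fd_sq2 h a b hb

theorem cb_sum (c : Cub K) (a : c.Fˣ) (ha : IsSquare (Algebra.norm K (a : c.F)))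
    (P : Pl c.F) : Even (ord P a + ord (tp c.τ P) a + ord (tp c.τ (tp c.τ P)) a) := by
  obtain ⟨G, hG, k, φ₀, γ, h⟩ := cub_fd c
  exact par_sum h a ha P

end H48.T3
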