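import Pool.Agent.H48.T3.VDef
import Pool.Agent.H48.T3.FdC
import Pool.Agent.H48.KV.KumB
import Pool.Agent.H48.KV.LocB

/-!
# [H48 T3 LTA] elements with trivial Kummer character on the decomposition groups over `S`, 90-140 lines. File Pool/Agent/H48/T3/LtA.lean

`F = c.F`, `LTr c S a` (Defs.lean).
* `ltr_tu`: let `𝔓` lie over `v ∈ S`, `σ : Gal(QBar/F)` in the decomposition group of `𝔓`. `cub_fd` gives `k, φ₀, γ` with `FD k φ₀ F γ c.τ`; `kc_conj_ex` gives `σ'` with `σ' = γ⁻¹ σ γ` in `Gal(QBar/K)`, `kc_tau`: `kk (τ a) σ = kk a σ'`. `σ'` is in the decomposition group of `γ⁻¹ • 𝔓` (`x ∈ γ⁻¹ • 𝔓 ↔ γ • x ∈ 𝔓`), a prime over `v`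
  (`γ` fixes `𝓞 K`): see the proof of `loc_dec` (Pool/Agent/H48/KV/LocB.lean), which does the same.
* `ltr_ps`: `P = 𝔓.under (𝓞 F)` is a prime of `F` over `v`, so `P ∈ D.S0`. Choose `Q' : DP F QBar` with `Q'.P P = 𝔓` (as in `loc_dec`: `H63.MA.gloc_over`, `Function.update`); `ps_triv` (Pool/Agent/H63/MC/CLkC.lean) over the field `F`; `MOne 2 F` by `mone_map`.
* `ltr_ray`: `x = a ∈ 𝓞 F`, `a - 1 ∈ 8 ∏_{v ∈ S} v 𝓞 F`. For `P` over `v ∈ S`: `a - 1 ∈ 8 P`, so the valuation of `x - 1` at `P` is `< ` the valuation of `4 = 2 ^ 2`. This is the statement `key` (with `y = 1`) in the proof of `ps_triv` (CLkC.lean, line 108 ff.); the rest of that proof gives `kk 2 (-1) x σ = 0` (copy it; it uses `D` only for the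
  statement that primes above 2 are in `S0`; here all `P` over `S` satisfy `key`).
-/

set_option autoImplicit false

open scoped NumberField Classical
open IsDedekindDomain H38.ML H63.MA

noncomputable section

namespace H48.T3

open H48.KV

variable {K : IntermediateField ℚ QBar} [NumberField K]

private theorem lta_pl (c : Cub K) {𝔓 : Ideal (𝓞 QBar)} (hp : 𝔓.IsPrime) {v : Pl K}
    (hv : 𝔓.under (𝓞 K) = v.asIdeal) : ∃ P : Pl c.F, 𝔓.under (𝓞 c.F) = P.asIdeal ∧ Over P v := by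
  have hover : (𝔓.under (𝓞 c.F)).comap (algebraMap (𝓞 K) (𝓞 c.F)) = v.asIdeal := by
    rw [← hv]
    exact Ideal.ext fun a => Iff.rfl
  have hne : 𝔓.under (𝓞 c.F) ≠ ⊥ := by
    intro h
    apply v.ne_bot
    rw [← hover, h, ← RingHom.ker_eq_comap_bot]
    exact (RingHom.injective_iff_ker_eq_bot _).mp
      (NumberField.RingOfIntegers.algebraMap.injective K c.F)
  exact ⟨⟨𝔓.under (𝓞 c.F), Ideal.IsPrime.comap _, hne⟩, rfl, hover⟩

omit [NumberField K] in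
private theorem lta_dec (c : Cub K) {𝔓 : Ideal (𝓞 QBar)} (σ : Gal(QBar/c.F))
    (hσ : ∀ x : 𝓞 QBar, (σ.restrictScalars K : Gal(QBar/K)) • x ∈ 𝔓 ↔ x ∈ 𝔓) :
    σ ∈ dec (K := c.F) 𝔓 := fun x => hσ x

theorem ltr_tu (c : Cub K) (S : Finset (Pl K)) (a : c.Fˣ) (ha : LTr c S a) :
    LTr c S (tu c.τ a) := by
  rintro 𝔓 hp ⟨v, hvS, hv⟩ σ hσ
  obtain ⟨G, hG, k, φ₀, γ, h⟩ := cub_fd c
  obtain ⟨σ', hσ'⟩ := kc_conj_ex h γ σ
  rw [kc_tau h a σ σ' hσ']
  let e : 𝓞 QBar →+* 𝓞 QBar := MulSemiringAction.toRingHom Gal(QBar/K) (𝓞 QBar) γ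
  have hmem : ∀ y : 𝓞 QBar, y ∈ 𝔓.comap e ↔ γ • y ∈ 𝔓 := fun y => Iff.rfl
  refine ha (𝔓.comap e) (Ideal.IsPrime.comap e) ⟨v, hvS, ?_⟩ σ' fun x => ?_
  · rw [← hv]
    ext a
    have h1 : γ • algebraMap (𝓞 K) (𝓞 QBar) a = algebraMap (𝓞 K) (𝓞 QBar) a := by
      apply Subtype.ext
      exact (γ : Gal(QBar/K)).commutes (a : K)
    change algebraMap (𝓞 K) (𝓞 QBar) a ∈ 𝔓.comap e ↔ algebraMap (𝓞 K) (𝓞 QBar) a ∈ 𝔓
    rw [hmem, h1]
  · rw [hmem, hmem, ← hσ (γ • x), hσ', ← mul_smul, ← mul_smul]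
    have h2 : γ * (γ⁻¹ * σ.restrictScalars K * γ) = σ.restrictScalars K * γ := by group
    rw [h2]

theorem ltr_ps (hi : MOne 2 K) (c : Cub K) (S : Finset (Pl K)) (D : RD0 c.F 2 (-1 : c.F))
    (hD : ∀ P, OvS c S P → P ∈ D.S0) (x : c.Fˣ) (hx : PS 2 (-1 : c.F) D.S0 x) :
    LTr c S x := by
  rintro 𝔓 hp ⟨v, hvS, hv⟩ σ hσ
  have := alg_cl c.F
  obtain ⟨P, hP, hPv⟩ := lta_pl c hp hv
  obtain ⟨Q0⟩ := exists_DP c.F QBar
  let Q' : DP c.F QBar :=
    { P := Function.update Q0.P P 𝔓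
      prime := fun w => by
        by_cases hw : w = P
        · subst hw
          rw [Function.update_self]
          exact hp
        · rw [Function.update_of_ne hw]
          exact Q0.prime w
      under := fun w => by
        by_cases hw : w = P
        · subst hw
          rw [Function.update_self]
          exact hP
        · rw [Function.update_of_ne hw]
          exact Q0.under w }
  have hQ' : Q'.P P = 𝔓 := by
    change Function.update Q0.P P 𝔓 P = 𝔓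
    exact Function.update_self P 𝔓 Q0.P
  refine ps_triv Nat.prime_two (mone_map hi c.F) (neg_one_prim c.F) D Q' x hx P
    (hD P ⟨v, hvS, hPv⟩) σ ?_
  rw [hQ']
  exact lta_dec c σ hσ

private theorem lta_le (c : Cub K) (S : Finset (Pl K)) {v : Pl K} (hv : v ∈ S) {P : Pl c.F}
    (hP : Over P v) : H57.LI.md (mS S) c.F ≤ Ideal.span {8} * P.asIdeal := by
  unfold H57.LI.md mS
  rw [Ideal.map_mul]
  refine Ideal.mul_mono ?_ ?_
  · rw [Ideal.map_span, Set.image_singleton, map_ofNat]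
  · rw [Ideal.map_le_iff_le_comap]
    have h1 : (∏ v ∈ S, v.asIdeal) ≤ v.asIdeal :=
      Ideal.le_of_dvd (Finset.dvd_prod_of_mem (fun v : Pl K => v.asIdeal) hv)
    exact h1.trans hP.ge

theorem ltr_ray (hi : MOne 2 K) (c : Cub K) (S : Finset (Pl K)) (x : c.Fˣ) (a : 𝓞 c.F)
    (hxa : (x : c.F) = algebraMap (𝓞 c.F) c.F a) (ha : a - 1 ∈ H57.LI.md (mS S) c.F) :
    LTr c S x := by
  rintro 𝔓 hp ⟨v, hvS, hv⟩ σ hσ
  have := alg_cl c.F
  obtain ⟨P, hP, hPv⟩ := lta_pl c hp hv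
  obtain ⟨b, hb, hb8⟩ := Ideal.mem_span_singleton_mul.1 (lta_le c S hvS hPv ha)
  have h2 : (x : c.F) - 1 = 8 * algebraMap (𝓞 c.F) c.F b := by
    rw [hxa]
    have h3 := congrArg (algebraMap (𝓞 c.F) c.F) hb8
    rw [map_mul, map_sub, map_one, map_ofNat] at h3
    exact h3.symm
  have hb1 : P.valuation c.F (algebraMap (𝓞 c.F) c.F b) < 1 :=
    (P.valuation_lt_one_iff_mem b).2 hb
  have h4 : P.valuation c.F ((x : c.F) - 1) < P.valuation c.F (((2 : ℕ) : c.F) ^ 2) := by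
    have h5 : (8 : c.F) * algebraMap (𝓞 c.F) c.F b =
        ((2 : ℕ) : c.F) ^ 2 * algebraMap (𝓞 c.F) c.F (2 * b) := by
      rw [map_mul, map_ofNat]
      push_cast
      ring
    have h6 : P.valuation c.F (algebraMap (𝓞 c.F) c.F (2 * b)) < 1 :=
      (P.valuation_lt_one_iff_mem _).2 (P.asIdeal.mul_mem_left 2 hb)
    have h7 : P.valuation c.F (((2 : ℕ) : c.F) ^ 2) ≠ 0 := by
      rw [Valuation.ne_zero_iff]
      norm_num
    rw [h2, h5, map_mul]
    exact mul_lt_of_lt_one_right (zero_lt_iff.2 h7) h6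
  have h8 := cl_of_val (p := 2) P 𝔓 hp hP x h4
  have h9 : 𝔓 ≠ ⊥ := by
    intro h0
    apply P.ne_bot
    rw [← hP, h0, Ideal.under, ← RingHom.ker_eq_comap_bot]
    exact (RingHom.injective_iff_ker_eq_bot _).mp
      (NumberField.RingOfIntegers.algebraMap.injective c.F QBar)
  exact cl_kk Nat.prime_two (neg_one_prim c.F) 𝔓 hp h9 x h8 σ (lta_dec c σ hσ)

end H48.T3
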