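import Pool.Agent.H48.T3.VDef
import Pool.Agent.H51.CUB.DUC

/-!
# [H48 T3 TCD] the number of `T`-units modulo squares, 80-130 lines. File Pool/Agent/H48/T3/TCd.lean

`L` a number field with `i ∈ L` (`MOne 2 L`), `-1` is a primitive square root of unity. `H51.CUB.duc Nat.prime_two hi (neg_one_prim L) T` gives `k` with `2 k = 2 #T + [L : ℚ]` and `T`-units `u_1, .., u_k` such that `∏ u_i ^ a_i` is a square only if all `a_i` are even. So the map
`(ZMod 2)^k → V2 L`, `a ↦ ∑ a_i v2 (u_i)` is injective with values in the set `X` of the classes of `T`-units (`TUnit T u` is `u ∈ UT T`, `mem_UT`): `#X ≥ 2^k`. Upper bound: `M = Additive (UT T)` is finitely generated (`ut_finite`), of rank `NumberField.Units.rank L + #T = k - 1` (`ut_rank`; `L` is totally complex because of `i`, so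
`[L : ℚ] = 2 r₂`, `rank = r₂ - 1`; see the proof of `duc`), its torsion subgroup is cyclic (finite subgroup of `Lˣ`), so `M` is generated by `k` elements (a basis of the free quotient `M / torsion` lifted to `M`, and a generator of the torsion subgroup; everything is in the proof of `duc`, Pool/Agent/H51/CUB/DUC.lean) and
`#(M / 2 M) ≤ 2^k`; `M / 2M → X` is surjective.
-/

set_option autoImplicit false

open scoped NumberField Classical
open IsDedekindDomain H38.ML H63.MA

noncomputable section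

namespace H48.T3

/-- the classes of the `T`-units -/
def XU {L : Type} [Field L] [NumberField L] (T : Finset (Pl L)) : Set (V2 L) :=
  {x | ∃ u : Lˣ, TUnit T u ∧ v2 u = x}

private theorem tcd_tc {L : Type} [Field L] [NumberField L] (hi : MOne 2 L) :
    NumberField.IsTotallyComplex L := by
  refine ⟨fun w => ?_⟩
  rw [← NumberField.InfinitePlace.not_isReal_iff_isComplex]
  intro hw
  obtain ⟨σ, -⟩ : ∃ σ : L →+* ℝ, σ = NumberField.InfinitePlace.embedding_of_isReal hw := ⟨_, rfl⟩
  obtain ⟨i, hi⟩ := hi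
  have h1 : σ i ^ 2 = -1 := by
    rw [← map_pow, hi, map_neg, map_one]
  nlinarith [sq_nonneg (σ i)]

private theorem tcd_tors (L : Type) [Field L] [NumberField L] : ∃ u0 : Lˣ, IsOfFinOrder u0 ∧
    (∀ v : Pl L, ord v u0 = 0) ∧ ∀ z : Lˣ, IsOfFinOrder z → ∃ c : ℤ, u0 ^ c = z := by
  obtain ⟨⟨g, hg⟩, hgen⟩ := IsCyclic.exists_generator (α := NumberField.Units.torsion L)
  have hinj : Function.Injective (sunit_co L) := by
    intro a b hab
    apply Units.ext
    apply FaithfulSMul.algebraMap_injective (𝓞 L) L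
    exact congrArg (fun u : Lˣ => (u : L)) hab
  refine ⟨sunit_co L g, ?_, fun v => sunit_co_ord v g, ?_⟩
  · have h1 : IsOfFinOrder g := (CommGroup.mem_torsion g).1 hg
    exact (sunit_co L).isOfFinOrder h1
  · intro z hz
    obtain ⟨m, hm, hzm⟩ := isOfFinOrder_iff_pow_eq_one.1 hz
    have h1 : ∀ v : Pl L, ord v z = 0 := by
      intro v
      have h2 : (m : ℤ) * ord v z = 0 := by
        rw [← ord_pow, hzm, ord_one]
      rcases mul_eq_zero.1 h2 with h | h
      · exfalso
        have : m = 0 := by exact_mod_cast h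
        omega
      · exact h
    obtain ⟨u, hu⟩ := sunit_exists z h1
    have h2 : u ∈ NumberField.Units.torsion L := by
      refine (CommGroup.mem_torsion u).2 (isOfFinOrder_iff_pow_eq_one.2 ⟨m, hm, ?_⟩)
      apply hinj
      rw [map_pow, hu, hzm, map_one]
    obtain ⟨c, hc⟩ := Subgroup.mem_zpowers_iff.1 (hgen ⟨u, h2⟩)
    refine ⟨c, ?_⟩
    have h3 : g ^ c = u := by
      have h4 := congrArg (fun x : NumberField.Units.torsion L => (x : (𝓞 L)ˣ)) hc
      simpa using h4
    rw [← map_zpow, h3, hu]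

/-- generators of the group of the `T`-units -/
private theorem tcd_gen (L : Type) [Field L] [NumberField L] (hi : MOne 2 L) (T : Finset (Pl L)) :
    ∃ (k : ℕ) (u : Fin k → Lˣ), 2 * k = 2 * T.card + Module.finrank ℚ L ∧
      ∀ x ∈ UT T, ∃ a : Fin k → ℤ, x = ∏ i, u i ^ a i := by
  have htc : NumberField.IsTotallyComplex L := tcd_tc hi
  obtain ⟨u0, hu0f, hu0o, hu0g⟩ := tcd_tors L
  have hfin := ut_finite T
  set M := Additive (UT T) with hM
  set R : Submodule ℤ M := Submodule.torsion ℤ M with hR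
  have hr : Module.finrank ℤ (M ⧸ R) = NumberField.Units.rank L + T.card := by
    rw [← ut_rank T]
    have h1 := Submodule.finrank_quotient_add_finrank R
    have h2 : Module.finrank ℤ R = 0 := by
      rw [Module.finrank_eq_zero_iff]
      rintro ⟨x, hx⟩
      obtain ⟨a, ha⟩ := (Submodule.mem_torsion_iff x).1 hx
      refine ⟨(a : ℤ), nonZeroDivisors.coe_ne_zero a, ?_⟩
      apply Subtype.ext
      exact ha
    rw [h2, add_zero] at h1
    exact h1
  set n := Module.finrank ℤ (M ⧸ R) with hn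
  let b := Module.finBasis ℤ (M ⧸ R)
  choose m hm using fun i => Submodule.mkQ_surjective R (b i)
  set w : Fin n → Lˣ := fun i => ((Additive.toMul (m i) : UT T) : Lˣ) with hw
  have hk : 2 * (n + 1) = 2 * T.card + Module.finrank ℚ L := by
    rw [NumberField.IsTotallyComplex.finrank, hr, NumberField.Units.rank,
      NumberField.InfinitePlace.card_eq_nrRealPlaces_add_nrComplexPlaces,
      NumberField.IsTotallyComplex.nrRealPlaces_eq_zero, zero_add]
    have h1 : 0 < NumberField.InfinitePlace.nrComplexPlaces L := by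
      have h2 := NumberField.IsTotallyComplex.finrank (K := L)
      have h3 : 0 < Module.finrank ℚ L := Module.finrank_pos
      omega
    omega
  refine ⟨n + 1, Fin.cons u0 w, hk, ?_⟩
  intro x hx
  set Y : M := Additive.ofMul (⟨x, hx⟩ : UT T) with hY
  obtain ⟨c, hc⟩ : ∃ c : Fin n → ℤ, c = fun i => b.repr (R.mkQ Y) i := ⟨_, rfl⟩
  have h1 : R.mkQ Y = R.mkQ (∑ i, c i • m i) := by
    rw [map_sum]
    have h2 := b.sum_repr (R.mkQ Y)
    rw [← h2]
    refine Finset.sum_congr rfl fun i _ => ?_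
    rw [map_smul, hm, hc]
  have h2 : Y - ∑ i, c i • m i ∈ R := by
    rw [← Submodule.Quotient.mk_eq_zero, Submodule.Quotient.mk_sub, sub_eq_zero]
    exact h1
  obtain ⟨a, ha⟩ := (Submodule.mem_torsion_iff _).1 h2
  -- the torsion part
  obtain ⟨z, hz⟩ : ∃ z : Lˣ, z = x * (∏ i, w i ^ c i)⁻¹ := ⟨_, rfl⟩
  have h3 : ((Additive.toMul (Y - ∑ i, c i • m i) : UT T) : Lˣ) = z := by
    rw [hz, toMul_sub, toMul_sum, div_eq_mul_inv, Subgroup.coe_mul, Subgroup.coe_inv,
      Subgroup.val_finsetProd]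
    rfl
  have h4 : z ^ ((a : ℤ)) = 1 := by
    rw [← h3]
    have h5 : (a : ℤ) • (Y - ∑ i, c i • m i) = 0 := ha
    have h6 := congrArg (fun t : M => ((Additive.toMul t : UT T) : Lˣ)) h5
    exact h6
  have h5 : IsOfFinOrder z := isOfFinOrder_iff_zpow_eq_one.2 ⟨(a : ℤ), nonZeroDivisors.coe_ne_zero a, h4⟩
  obtain ⟨e, he⟩ := hu0g z h5
  refine ⟨Fin.cons e c, ?_⟩
  rw [Fin.prod_univ_succ]
  simp only [Fin.cons_zero, Fin.cons_succ]
  rw [he, hz, inv_mul_cancel_right]

private theorem tcd_v2_zpow {L : Type} [Field L] (a : Lˣ) (n : ℤ) : v2 (a ^ n) = (n : ZMod 2) • v2 a := by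
  rw [Int.cast_smul_eq_zsmul]
  rfl

private theorem tcd_v2_pow {L : Type} [Field L] (a : Lˣ) (n : ℕ) : v2 (a ^ n) = (n : ZMod 2) • v2 a := by
  rw [Nat.cast_smul_eq_nsmul]
  rfl

private theorem tcd_v2_prod {L : Type} [Field L] {k : ℕ} (f : Fin k → Lˣ) :
    v2 (∏ i, f i) = ∑ i, v2 (f i) := by
  induction k with
  | zero =>
    rw [Finset.univ_eq_empty, Finset.prod_empty, Finset.sum_empty]
    rfl
  | succ k ih => rw [Fin.prod_univ_succ, Fin.sum_univ_succ, v2_mul, ih]

theorem tu_card (L : Type) [Field L] [NumberField L] (hi : MOne 2 L) (T : Finset (Pl L)) :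
    ∃ k : ℕ, 2 * k = 2 * T.card + Module.finrank ℚ L ∧ (XU T).Finite ∧ (XU T).ncard = 2 ^ k := by
  obtain ⟨k, u, hk, hu⟩ := tcd_gen L hi T
  obtain ⟨k', u', hk', hu', hind⟩ := H51.CUB.duc Nat.prime_two hi (neg_one_prim L) T
  have hkk : k' = k := by omega
  subst hkk
  have hcard : Nat.card (Fin k' → ZMod 2) = 2 ^ k' := by
    rw [Nat.card_eq_fintype_card, Fintype.card_fun, Fintype.card_fin, ZMod.card]
  -- the upper bound
  obtain ⟨φ, hφ⟩ : ∃ φ : (Fin k' → ZMod 2) → V2 L, ∀ a, φ a = ∑ i, a i • v2 (u i) := ⟨_, fun _ => rfl⟩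
  have hsub : XU T ⊆ φ '' Set.univ := by
    rintro _ ⟨x, hx, rfl⟩
    obtain ⟨a, ha⟩ := hu x hx
    refine ⟨fun i => (a i : ZMod 2), Set.mem_univ _, ?_⟩
    rw [hφ, ha, tcd_v2_prod]
    refine Finset.sum_congr rfl fun i _ => ?_
    rw [tcd_v2_zpow]
  have hfin : (XU T).Finite := (Set.finite_univ.image φ).subset hsub
  have hle : (XU T).ncard ≤ 2 ^ k' := by
    refine (Set.ncard_le_ncard hsub (Set.finite_univ.image φ)).trans ?_
    refine (Set.ncard_image_le Set.finite_univ).trans ?_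
    rw [Set.ncard_univ, hcard]
  -- the lower bound
  obtain ⟨ψ, hψ⟩ : ∃ ψ : (Fin k' → ZMod 2) → V2 L, ∀ a, ψ a = ∑ i, a i • v2 (u' i) := ⟨_, fun _ => rfl⟩
  have hval : ∀ a : Fin k' → ZMod 2, ψ a = v2 (∏ i, u' i ^ (a i).val) := by
    intro a
    rw [hψ, tcd_v2_prod]
    refine Finset.sum_congr rfl fun i _ => ?_
    rw [tcd_v2_pow, ZMod.natCast_zmod_val]
  have hker : ∀ a : Fin k' → ZMod 2, ψ a = 0 → a = 0 := by
    intro a ha
    rw [hval] at ha
    have h1 : v2 (∏ i, u' i ^ (a i).val) = v2 (1 : Lˣ) := ha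
    obtain ⟨c, hc⟩ := v2_eq.1 h1
    rw [one_mul] at hc
    have h2 := hind (fun i => (a i).val) ⟨c, hc.symm⟩
    funext i
    have h3 := h2 i
    have h4 : (a i).val < 2 := ZMod.val_lt (a i)
    have h5 : (a i).val = 0 := by
      omega
    rw [ZMod.val_eq_zero] at h5
    exact h5
  have hinj : Function.Injective ψ := by
    intro a b hab
    have h1 : ψ (a - b) = 0 := by
      rw [hψ, hψ] at hab
      rw [hψ]
      simp only [Pi.sub_apply, sub_smul, Finset.sum_sub_distrib]
      rw [hab, sub_self]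
    exact sub_eq_zero.1 (hker _ h1)
  have hsub' : ψ '' Set.univ ⊆ XU T := by
    rintro _ ⟨a, -, rfl⟩
    refine ⟨∏ i, u' i ^ (a i).val, ?_, (hval a).symm⟩
    have h1 : ∏ i, u' i ^ (a i).val ∈ UT T :=
      Subgroup.prod_mem _ fun i _ => Subgroup.pow_mem _ (hu' i) _
    exact h1
  have hge : 2 ^ k' ≤ (XU T).ncard := by
    refine le_trans ?_ (Set.ncard_le_ncard hsub' hfin)
    rw [Set.ncard_image_of_injective _ hinj, Set.ncard_univ, hcard]
  exact ⟨k', hk', hfin, le_antisymm hle hge⟩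

end H48.T3
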