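import Pool.Agent.H48.T3.VDef
import Pool.Agent.H63.MA.GUpA
import Pool.Agent.H63.MC.CHa

/-!
# [H48 T3 PSF] `Lˣ / (PS · p-th powers)` is finite, 50-80 lines. File Pool/Agent/H48/T3/Psf.lean

`L` a number field, `D : RD0 L p ζ`. `U` from `unit_reps hp D.S0` (GUpA.lean). Every `x : Lˣ` is `x = w * ∏_{v ∈ E} (D.pi v) ^ (ord v x)` with `E` = the finite set of the `v ∉ S0` with `ord v x ≠ 0` (`finite_ord`; `D.pi_self`, `D.pi_ne`) and `w` an `S0`-unit, `w = u * y ^ p` with `u ∈ U`. Put `κ x = ∑_{v ∈ E} (ord v x) • D.q v ∈ (ZMod p)^r`. If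
`x, x'` have the same `u` and the same `κ` then `x / x' = (y / y')^p * ∏ (D.pi v) ^ (ord v x - ord v x')`, and the last factor is in `PS` by `D.prim_of` (a `Finsupp` `m v = ord v x - ord v x'` for `v ∉ S0`, `0` on `S0`). There are finitely many pairs `(u, κ)`; choose one `x` for every pair which occurs (`CHa_types` in Pool/Agent/H63/MC/CHa.lean
is the same argument for characters).
`psf_cl`: `pi`-elements with the same class: `x = D.pi v * (D.pi v')^(-1)`..., for `p = 2`: if `D.q v = D.q v'`, `v ≠ v'`, both not in `S0`, then `PS` holds for `D.pi v * D.pi v'` (`m = single v 1 + single v' 1`, `q v + q v' = 2 q v = 0` in `ZMod 2`).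
-/

set_option autoImplicit false

open scoped NumberField Classical
open IsDedekindDomain H38.ML H63.MA

noncomputable section

namespace H48.T3

open H48.KV

variable {K : IntermediateField ℚ QBar} [NumberField K]

private theorem psf_F {L : Type} [Field L] [NumberField L] {p : ℕ} {ζ : L}
    (D : RD0 L p ζ) (U : Finset Lˣ)
    (hU : ∀ x, TUnit D.S0 x → ∃ u ∈ U, ∃ y : Lˣ, x = u * y ^ p) :
    ∃ F : Lˣ → U × (Fin D.r → ZMod p), ∀ b b', F b = F b' → ∃ y s : Lˣ, PS p ζ D.S0 s ∧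
      b' = b * y ^ p * s := by
  have hfin : ∀ b : Lˣ, ∃ T : Finset (Pl L), (∀ v ∈ T, v ∉ D.S0) ∧
      ∀ v, v ∉ T → v ∉ D.S0 → ord v b = 0 := by
    intro b
    refine ⟨(finite_ord b).toFinset.filter (fun v => v ∉ D.S0),
      fun v hv => (Finset.mem_filter.1 hv).2, fun v hv hv0 => ?_⟩
    by_contra h
    exact hv (Finset.mem_filter.2 ⟨(finite_ord b).mem_toFinset.2 h, hv0⟩)
  choose T hT0 hT1 using hfin
  have hordp : ∀ (T' : Finset (Pl L)), (∀ v ∈ T', v ∉ D.S0) → ∀ b : Lˣ,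
      (∀ v, v ∉ T' → v ∉ D.S0 → ord v b = 0) →
      TUnit D.S0 (b * (∏ v ∈ T', D.pi v ^ ord v b)⁻¹) := by
    intro T' hT' b hb w hw
    rw [ord_mul, ord_inv, ord_prod]
    have h1 : ∀ v ∈ T', ord w (D.pi v ^ ord v b) = if v = w then ord w b else 0 := by
      intro v hv
      rw [ord_zpow]
      split_ifs with h
      · rw [h, D.pi_self w hw, mul_one]
      · rw [D.pi_ne v w (hT' v hv) hw (Ne.symm h), mul_zero]
    rw [Finset.sum_congr rfl h1]
    by_cases hwT : w ∈ T'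
    · rw [Finset.sum_ite_eq' T' w, if_pos hwT]
      ring
    · rw [hb w hwT hw]
      simp
  have hrep : ∀ b : Lˣ, ∃ u ∈ U, ∃ y : Lˣ,
      b * (∏ v ∈ T b, D.pi v ^ ord v b)⁻¹ = u * y ^ p :=
    fun b => hU _ (hordp (T b) (hT0 b) b (hT1 b))
  choose u hu y hy using hrep
  refine ⟨fun b => (⟨u b, hu b⟩, ∑ v ∈ T b, ((ord v b : ℤ) : ZMod p) • D.q v), ?_⟩
  intro b b' hF
  have hF1 : u b = u b' := congrArg (fun z : U × (Fin D.r → ZMod p) => (z.1 : Lˣ)) hF
  have hF2 : ∑ v ∈ T b, ((ord v b : ℤ) : ZMod p) • D.q v =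
      ∑ v ∈ T b', ((ord v b' : ℤ) : ZMod p) • D.q v :=
    congrArg (fun z : U × (Fin D.r → ZMod p) => z.2) hF
  have hbb : ∀ b : Lˣ, b = (∏ v ∈ T b, D.pi v ^ ord v b) * (u b * y b ^ p) := by
    intro b
    rw [← hy b, mul_comm b, mul_inv_cancel_left]
  -- a common set of primes
  obtain ⟨T', hT'e⟩ : ∃ T' : Finset (Pl L), T' = T b ∪ T b' := ⟨_, rfl⟩
  have hT' : ∀ v ∈ T', v ∉ D.S0 := by
    intro v hv
    rw [hT'e] at hv
    rcases Finset.mem_union.1 hv with h | h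
    · exact hT0 b v h
    · exact hT0 b' v h
  have hz : ∀ c : Lˣ, T c ⊆ T' → ∏ v ∈ T', D.pi v ^ ord v c = ∏ v ∈ T c, D.pi v ^ ord v c := by
    intro c hc
    refine (Finset.prod_subset hc fun v hv hvc => ?_).symm
    rw [hT1 c v hvc (hT' v hv), zpow_zero]
  have hzs : ∀ c : Lˣ, T c ⊆ T' → ∑ v ∈ T', ((ord v c : ℤ) : ZMod p) • D.q v =
      ∑ v ∈ T c, ((ord v c : ℤ) : ZMod p) • D.q v := by
    intro c hc
    refine (Finset.sum_subset hc fun v hv hvc => ?_).symm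
    rw [hT1 c v hvc (hT' v hv), Int.cast_zero, zero_smul]
  have hb1 : T b ⊆ T' := by
    rw [hT'e]
    exact Finset.subset_union_left
  have hb2 : T b' ⊆ T' := by
    rw [hT'e]
    exact Finset.subset_union_right
  have hps : PS p ζ D.S0 (∏ v ∈ T', D.pi v ^ (ord v b' - ord v b)) := by
    apply CHa_ps D T' hT' (fun v => ord v b' - ord v b)
    have h1 : ∀ v ∈ T', (((ord v b' - ord v b : ℤ)) : ZMod p) • D.q v =
        ((ord v b' : ℤ) : ZMod p) • D.q v - ((ord v b : ℤ) : ZMod p) • D.q v := by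
      intro v _
      rw [Int.cast_sub, sub_smul]
    rw [Finset.sum_congr rfl h1, Finset.sum_sub_distrib, hzs b hb1, hzs b' hb2, hF2, sub_self]
  refine ⟨y b' * (y b)⁻¹, _, hps, ?_⟩
  have h1 : (∏ v ∈ T', D.pi v ^ (ord v b' - ord v b)) =
      (∏ v ∈ T', D.pi v ^ ord v b') * (∏ v ∈ T', D.pi v ^ ord v b)⁻¹ := by
    rw [← Finset.prod_inv_distrib, ← Finset.prod_mul_distrib]
    refine Finset.prod_congr rfl fun v _ => ?_
    rw [zpow_sub]
  rw [h1, hz b hb1, hz b' hb2]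
  obtain ⟨A, hA⟩ : ∃ A : Lˣ, A = ∏ v ∈ T b, D.pi v ^ ord v b := ⟨_, rfl⟩
  obtain ⟨A', hA'⟩ : ∃ A' : Lˣ, A' = ∏ v ∈ T b', D.pi v ^ ord v b' := ⟨_, rfl⟩
  have e1 : b = A * (u b * y b ^ p) := by
    rw [hA]
    exact hbb b
  have e2 : b' = A' * (u b * y b' ^ p) := by
    rw [hA', hF1]
    exact hbb b'
  rw [← hA, ← hA']
  calc b' = A' * (u b * y b' ^ p) := e2
    _ = A * (u b * y b ^ p) * (y b' * (y b)⁻¹) ^ p * (A' * A⁻¹) := by
      rw [mul_pow, inv_pow]
      have h2 : A * (u b * y b ^ p) * (y b' ^ p * (y b ^ p)⁻¹) * (A' * A⁻¹) =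
          (A * A⁻¹) * (y b ^ p * (y b ^ p)⁻¹) * (A' * (u b * y b' ^ p)) := by
        simp only [mul_comm, mul_left_comm, mul_assoc]
      rw [h2, mul_inv_cancel, mul_inv_cancel, one_mul, one_mul]
    _ = b * (y b' * (y b)⁻¹) ^ p * (A' * A⁻¹) := by rw [← e1]

omit [NumberField K] in
theorem psf {L : Type} [Field L] [NumberField L] {p : ℕ} (hp : p.Prime) {ζ : L}
    (D : RD0 L p ζ) : ∃ B : Finset Lˣ, ∀ x : Lˣ, ∃ b ∈ B, ∃ y s : Lˣ, PS p ζ D.S0 s ∧
      x = b * y ^ p * s := by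
  have : NeZero p := ⟨hp.ne_zero⟩
  obtain ⟨U, -, hU⟩ := unit_reps hp D.S0
  obtain ⟨F, hF⟩ := psf_F D U hU
  refine ⟨Finset.univ.image (Function.invFun F), fun x => ?_⟩
  refine ⟨Function.invFun F (F x), Finset.mem_image_of_mem _ (Finset.mem_univ _), ?_⟩
  have h1 : F (Function.invFun F (F x)) = F x := Function.invFun_eq ⟨x, rfl⟩
  exact hF _ _ h1

omit [NumberField K] in
theorem psf_cl {L : Type} [Field L] [NumberField L] {ζ : L} (D : RD0 L 2 ζ) (v v' : Pl L)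
    (hv : v ∉ D.S0) (hv' : v' ∉ D.S0) (h : D.q v = D.q v') :
    PS 2 ζ D.S0 (D.pi v * D.pi v') := by
  have h1 := D.prim_of (Finsupp.single v 1 + Finsupp.single v' 1) (fun w hw => by
    rw [Finsupp.add_apply, Finsupp.single_eq_of_ne, Finsupp.single_eq_of_ne, add_zero]
    · rintro rfl
      exact hv' hw
    · rintro rfl
      exact hv hw) (by
    rw [Finsupp.sum_add_index' (fun _ => by rw [Int.cast_zero, zero_smul])
      (fun _ _ _ => by rw [Int.cast_add, add_smul]),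
      Finsupp.sum_single_index (by rw [Int.cast_zero, zero_smul]),
      Finsupp.sum_single_index (by rw [Int.cast_zero, zero_smul]), h, Int.cast_one, one_smul]
    funext i
    exact CharTwo.add_self_eq_zero _)
  rw [Finsupp.prod_add_index' (fun _ => zpow_zero _) (fun _ _ _ => zpow_add _ _ _),
    Finsupp.prod_single_index (zpow_zero _), Finsupp.prod_single_index (zpow_zero _), zpow_one,
    zpow_one] at h1
  exact h1

end H48.T3
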