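import Pool.Agent.H48.T3.LtA
import Pool.Agent.H48.T3.Psf
import Pool.Agent.H48.KV.Rdx
import Pool.Agent.H48.T3.AxD

/-!
# T3: the approximation lemma

`χ, χ'` two surjective characters of order 3 which agree on the decomposition groups at the `v ∈ S`; `φ` a lift of `χ`. There is a surjective
lift `φ'` of `χ'` which is conjugate to `φ` by an element of `V` on every decomposition group `dec (Q.P v)`, `v ∈ S` (another `δ` for every `v`).
Proof: `ax_surj` (AxD.lean) for `φ₀ = s ∘ χ'` (`s` a section of `pi`) and `ψ v = φ`. The Kummer class of `φ'` over the cyclic cubic field `F'` of `χ'`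
comes from one application of `lock` over `F'` (AxA.lean), made of square norm by multiplication with its norm (AxB.lean).
-/

set_option autoImplicit false

open scoped NumberField Classical
open IsDedekindDomain H38.ML H63.MA

noncomputable section

namespace H48.T3

open H48.KV

variable {K : IntermediateField ℚ QBar} [NumberField K]

theorem apx (hi : MOne 2 K) {G : Type} [Group G] (k : KV G) (hk : ∀ g, k.pi g = 1 → g ∈ k.V)
    (Q : DP K QBar) (S : Finset (Pl K)) (χ χ' : Gal(QBar/K) →* Multiplicative (ZMod 3))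
    (hχ : χ ∈ Ch K) (hχ' : χ' ∈ Ch K) (hT : Teq S Q χ χ') (φ : Gal(QBar/K) →* G) (hft : FT φ)
    (hφ : k.pi.comp φ = χ) : ∃ φ' : Gal(QBar/K) →* G, FT φ' ∧ Function.Surjective φ' ∧
      k.pi.comp φ' = χ' ∧
      ∀ v ∈ S, ∃ δ ∈ k.V, ∀ σ ∈ dec (K := K) (Q.P v), φ σ = δ * φ' σ * δ⁻¹ := by
  obtain ⟨s, hs⟩ := sec_ex k hk
  have hpi0 : ∀ σ, k.pi ((s.comp χ') σ) = χ' σ := fun σ => hs _
  have hft0 : FT (s.comp χ') := ft_comp s χ' hχ'.1
  have hs0 : Function.Surjective (k.pi.comp (s.comp χ')) := by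
    intro x
    obtain ⟨σ, hσ⟩ := hχ'.2 x
    refine ⟨σ, ?_⟩
    rw [MonoidHom.comp_apply, hpi0, hσ]
  obtain ⟨F, γ, τ, h⟩ := ax_fd (k := k) hft0 hs0
  have hnf : NumberField F := fd_nf h
  obtain ⟨φ', h1, h2, h3, h4⟩ := ax_surj h hk hft0 hs0 (fun σ hσ => by
    rw [hpi0] at hσ
    rw [MonoidHom.comp_apply, hσ, map_one]) Q S (fun _ => φ) (fun _ _ => hft) (fun v hv σ hσ => by
    rw [hpi0, ← hT v hv σ hσ, ← hφ]
    rfl)
  refine ⟨φ', h1, h2, ?_, h4⟩
  ext1 σ
  rw [MonoidHom.comp_apply, eqv_pi k h3, hpi0]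

end H48.T3
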