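import Pool.Agent.H48.T3.AxA

/-!
# T3: the approximation lemma, part B: the class of square norm

`ax_sq`: `ax_loc` with a class of square norm: `a = b * norm b`. The Kummer character of `norm b = b * τ b * τ² b` is trivial
on the decomposition groups over `S` by `k.tr`.
-/

set_option autoImplicit false

open scoped NumberField Classical Pointwise
open IsDedekindDomain H38.ML H63.MA

noncomputable section

namespace H48.T3

open H48.KV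

variable {K : IntermediateField ℚ QBar} [NumberField K] {G : Type} [Group G] {k : KV G}
  {φ₀ : Gal(QBar/K) →* G} {F : IntermediateField K QBar} [NumberField F] {γ : Gal(QBar/K)}
  {τ : F ≃ₐ[K] F}

theorem ax_sq (h : FD k φ₀ F γ τ) (hk : ∀ g, k.pi g = 1 → g ∈ k.V) (Q : DP K QBar)
    (S : Finset (Pl K)) (ψ : Pl K → Gal(QBar/K) →* G) (hft : ∀ v ∈ S, FT (ψ v))
    (hpi : ∀ v ∈ S, ∀ σ ∈ dec (K := K) (Q.P v), k.pi (ψ v σ) = k.pi (φ₀ σ)) :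
    ∃ a : Fˣ, IsSquare (Algebra.norm K (a : F)) ∧
      ∀ v ∈ S, ∀ (g : Gal(QBar/K)) (σ : Gal(QBar/F)) (x : Gal(QBar/K)),
        x = g⁻¹ * σ.restrictScalars K * g → x ∈ dec (K := K) (Q.P v) →
        kk 2 (-1 : F) a σ = k.lam (φ₀ g * ψ v x * (φ₀ g)⁻¹) := by
  have hcl : IsAlgClosure F QBar := alg_cl F
  have hF : FiniteDimensional K F := FiniteDimensional.of_finrank_pos (by rw [h.deg]; norm_num)
  obtain ⟨b, hb⟩ := ax_loc h hk Q S ψ hft hpi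
  have hm1 := neg_one_prim F
  have hn0 : Algebra.norm K (b : F) ≠ 0 := by
    rw [Algebra.norm_ne_zero_iff]
    exact b.ne_zero
  obtain ⟨n, hn⟩ : ∃ n : Fˣ, (n : F) = algebraMap K F (Algebra.norm K (b : F)) :=
    ⟨Units.mk0 _ ((map_ne_zero (algebraMap K F)).2 hn0), rfl⟩
  have hn' : n = b * tu τ b * tu τ (tu τ b) := by
    apply Units.ext
    rw [hn, fd_norm h]
    rfl
  refine ⟨b * n, ?_, fun v hv g σ x hx hxd => ?_⟩
  · refine ⟨(Algebra.norm K (b : F)) ^ 2, ?_⟩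
    rw [Units.val_mul, map_mul, hn, Algebra.norm_algebraMap, h.deg]
    ring
  · have hxV : ψ v x ∈ k.V := by
      apply hk
      rw [hpi v hv x hxd, hx]
      simp only [map_mul, map_inv]
      rw [fd_pi h, mul_one, inv_mul_cancel]
    obtain ⟨σ', hσ'⟩ := kc_conj_ex h γ σ
    obtain ⟨σ'', hσ''⟩ := kc_conj_ex h γ σ'
    rw [kk_mul_arg Nat.prime_two hm1, hn', kk_mul_arg Nat.prime_two hm1,
      kk_mul_arg Nat.prime_two hm1, kc_tau h (tu τ b) σ σ' hσ', kc_tau h b σ σ' hσ',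
      kc_tau h b σ' σ'' hσ'']
    have e0 := hb v hv g σ x hx hxd
    have e1 := hb v hv (γ⁻¹ * g) σ' x (by rw [hσ', hx]; group) hxd
    have e2 := hb v hv (γ⁻¹ * (γ⁻¹ * g)) σ'' x (by rw [hσ'', hσ', hx]; group) hxd
    have hg : k.pi (φ₀ γ)⁻¹ ≠ 1 := by
      rw [map_inv]
      intro h0
      exact h.ga (inv_eq_one.1 h0)
    have hyV : φ₀ g * ψ v x * (φ₀ g)⁻¹ ∈ k.V := k.nV.conj_mem _ hxV _
    have h3 := k.tr (φ₀ γ)⁻¹ hg _ hyV
    have e1' : φ₀ (γ⁻¹ * g) * ψ v x * (φ₀ (γ⁻¹ * g))⁻¹ =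
        (φ₀ γ)⁻¹ * (φ₀ g * ψ v x * (φ₀ g)⁻¹) * (φ₀ γ)⁻¹⁻¹ := by
      rw [map_mul, map_inv]
      group
    have e2' : φ₀ (γ⁻¹ * (γ⁻¹ * g)) * ψ v x * (φ₀ (γ⁻¹ * (γ⁻¹ * g)))⁻¹ =
        (φ₀ γ)⁻¹ ^ 2 * (φ₀ g * ψ v x * (φ₀ g)⁻¹) * ((φ₀ γ)⁻¹ ^ 2)⁻¹ := by
      rw [map_mul, map_mul, map_inv]
      group
    rw [e1'] at e1
    rw [e2'] at e2
    rw [e0, e1, e2, h3, add_zero]

end H48.T3
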