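import Pool.Agent.H48.T3.AxB
import Pool.Agent.H48.T3.KLb

/-!
# T3: the approximation lemma, part C: a lift with given restrictions to the decomposition groups

`ax_lift`: let `φ₀` be a homomorphism of finite type with `pi ∘ φ₀` surjective which is trivial on the kernel of `pi ∘ φ₀`, and
`ψ v`, `v ∈ S`, homomorphisms of finite type which agree with `φ₀` modulo `V` on the decomposition group of `Q.P v`. There is a homomorphism
`φ'` of finite type which agrees with `φ₀` modulo `V` and which is conjugate by an element of `V` to `ψ v` on the decomposition group of `Q.P v`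
for every `v ∈ S`.
-/

set_option autoImplicit false

open scoped NumberField Classical Pointwise
open IsDedekindDomain H38.ML H63.MA

noncomputable section

namespace H48.T3

open H48.KV

variable {K : IntermediateField ℚ QBar} [NumberField K] {G : Type} [Group G] {k : KV G}
  {φ₀ : Gal(QBar/K) →* G} {F : IntermediateField K QBar} [NumberField F] {γ : Gal(QBar/K)}
  {τ : F ≃ₐ[K] F}

private theorem axc_z2 (a : ZMod 2) : a + a = 0 := by
  revert a
  decide

theorem ax_lift (h : FD k φ₀ F γ τ) (hk : ∀ g, k.pi g = 1 → g ∈ k.V) (hft0 : FT φ₀)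
    (hs : Function.Surjective (k.pi.comp φ₀)) (h0 : ∀ σ, k.pi (φ₀ σ) = 1 → φ₀ σ = 1)
    (Q : DP K QBar) (S : Finset (Pl K)) (ψ : Pl K → Gal(QBar/K) →* G) (hft : ∀ v ∈ S, FT (ψ v))
    (hpi : ∀ v ∈ S, ∀ σ ∈ dec (K := K) (Q.P v), k.pi (ψ v σ) = k.pi (φ₀ σ)) :
    ∃ φ' : Gal(QBar/K) →* G, FT φ' ∧ Eqv k φ' φ₀ ∧
      ∀ v ∈ S, ∃ δ ∈ k.V, ∀ σ ∈ dec (K := K) (Q.P v), ψ v σ = δ * φ' σ * δ⁻¹ := by
  obtain ⟨a, hsq, ha⟩ := ax_sq h hk Q S ψ hft hpi
  obtain ⟨φ', hφ', hKc⟩ := kc_exist' hft0 hs h a hsq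
  refine ⟨φ', hφ'.1, hφ'.2, fun v hv => ?_⟩
  have hpi' : ∀ σ, k.pi (φ' σ) = k.pi (φ₀ σ) := fun σ => eqv_pi k hφ'.2 σ
  have hmain := kv_conj k ((ψ v).comp (dec (K := K) (Q.P v)).subtype)
    (φ'.comp (dec (K := K) (Q.P v)).subtype) (fun σ => by
      apply hk
      change k.pi (ψ v (σ : Gal(QBar/K)) * (φ' (σ : Gal(QBar/K)))⁻¹) = 1
      rw [map_mul, map_inv, hpi', hpi v hv σ σ.2, mul_inv_cancel]) (fun σ hσ => by
      change k.pi (ψ v (σ : Gal(QBar/K))) = 1 at hσ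
      change ψ v (σ : Gal(QBar/K)) = φ' (σ : Gal(QBar/K))
      obtain ⟨s, hsd⟩ := σ
      change k.pi (ψ v s) = 1 at hσ
      change ψ v s = φ' s
      have h1 : k.pi (φ₀ s) = 1 := by rw [← hpi v hv s hsd, hσ]
      have hψV : ψ v s ∈ k.V := hk _ hσ
      have hφV : φ' s ∈ k.V := hk _ (by rw [hpi', h1])
      have hfix : s ∈ F.fixingSubgroup := (h.fix s).2 h1
      let σ' : Gal(QBar/F) := F.fixingSubgroupEquiv ⟨s, hfix⟩
      have hσ' : σ'.restrictScalars K = s := by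
        ext x
        rfl
      have hz : ψ v s * (φ' s)⁻¹ = 1 := by
        refine k.sep _ (k.V.mul_mem hψV (k.V.inv_mem hφV)) fun y => ?_
        obtain ⟨g, hg⟩ := hs (k.pi y)
        have hg' : k.pi y = k.pi (φ₀ g) := hg.symm
        rw [kv_act k hg' (k.V.mul_mem hψV (k.V.inv_mem hφV))]
        obtain ⟨s', hs'⟩ := kc_conj_ex h g⁻¹ σ'
        rw [hσ', inv_inv] at hs'
        have h2 := ha v hv g s' s (by rw [hs']; group) hsd
        have h3 := hKc s'
        rw [h0 _ (fd_pi h s'), inv_one, mul_one, hs', map_mul, map_mul, map_inv,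
          kv_act k (hpi' g) hφV] at h3
        have h4 : (φ' s)⁻¹ = φ' s := by
          have h5 := kv_sq k hφV
          rw [pow_two] at h5
          exact inv_eq_of_mul_eq_one_left h5
        have h5 : φ₀ g * (ψ v s * (φ' s)⁻¹) * (φ₀ g)⁻¹ =
            φ₀ g * ψ v s * (φ₀ g)⁻¹ * (φ₀ g * φ' s * (φ₀ g)⁻¹) := by
          rw [h4]
          group
        rw [h5, k.add _ (k.nV.conj_mem _ hψV _) _ (k.nV.conj_mem _ hφV _), ← h2, ← h3, axc_z2]
      exact mul_inv_eq_one.1 hz)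
  obtain ⟨δ, hδ, hδ'⟩ := hmain
  exact ⟨δ, hδ, fun σ hσ => hδ' ⟨σ, hσ⟩⟩

end H48.T3
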