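import Pool.Agent.H48.T3.Cls

/-!
# [H48 T3 CLL] the class and the decomposition groups, 70-110 lines. File Pool/Agent/H48/T3/ClL.lean

`cl_loc`: choose `a, a'` with `v2 a = cl φ`, `v2 a' = cl φ'` (`v2_surj`), so `Kc φ φ₀ a`, `Kc φ' φ₀ a'` (`hcl.kc`), `Kc φ φ' (a * a')` (`kc_symm`, `kc_mul`, KV/KumA.lean), `v2 (a * a') = cl φ + cl φ' = cl φ - cl φ'` (`v2_two`), and `∈ VL` means `LTr c S (a * a')` (`mem_VL`).
* (→) `kc_loc'` (KLa.lean) for `D = dec (Q.P v)`: for `g : Gal(QBar/K)`, `σ : Gal(QBar/F)` with `g⁻¹ σ g ∈ dec (Q.P v)` the automorphism `σ` is in the decomposition group of `𝔓 = g • Q.P v`, a prime over `v`, so `kk (a a') σ = 0` by `LTr` (see the proof of `loc_dec`, KV/LocB.lean, for the translation of the conditions).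
* (←) let `𝔓` lie over `v ∈ S`; `𝔓 = g • Q.P v` for some `g : Gal(QBar/K)` (transitivity, see LocA.lean), `σ : Gal(QBar/F)` in the decomposition group of `𝔓`, `σ' = g⁻¹ σ g ∈ dec (Q.P v)`, `χ σ' = χ σ = 1`. `φ σ' = δ (φ' σ') δ⁻¹` and `φ' σ'` has `pi = 1`, so it is in `V` (`H.hk`) and commutes with `δ` (`kv_comm`): `φ σ' (φ' σ')⁻¹ = 1`.
  `kk (a a') σ = lam (φ σ (φ' σ)⁻¹)` (`Kc`), and by `kc_equi` (KV/KumB.lean; with `g`) `φ φ'⁻¹ (σ') = (φ₀ g)⁻¹ (φ σ (φ' σ)⁻¹) φ₀ g`, so `φ σ (φ' σ)⁻¹ = 1` and `lam 1 = 0` (`kv_lam_one`).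
-/

set_option autoImplicit false

open scoped NumberField Classical
open IsDedekindDomain H38.ML H63.MA

noncomputable section

namespace H48.T3

open H48.KV

variable {K : IntermediateField ℚ QBar} [NumberField K]

variable {G : Type} [Group G] {k : KV G}

open scoped Pointwise in
private theorem cll_trans {K : Type} [Field K] [NumberField K] {Ω : Type} [Field Ω] [Algebra K Ω]
    [IsAlgClosure K Ω] (P P' : Ideal (𝓞 Ω)) (hP : P.IsPrime) (hP' : P'.IsPrime)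
    (h : P.under (𝓞 K) = P'.under (𝓞 K)) : ∃ g : Gal(Ω/K), P' = g • P := by
  have : IsGalois K Ω := IsAlgClosure.isGalois K Ω
  let _ : TopologicalSpace (𝓞 Ω) := ⊥
  have : DiscreteTopology (𝓞 Ω) := ⟨rfl⟩
  have : ContinuousSMul Gal(Ω/K) (𝓞 Ω) := by
    rw [continuousSMul_iff_stabilizer_isOpen]
    intro x
    have h1 := stabilizer_isOpen_of_isIntegral (K := K) (L := Ω) (x : Ω)
    have h2 : (MulAction.stabilizer Gal(Ω/K) x : Set Gal(Ω/K)) =
        (MulAction.stabilizer Gal(Ω/K) (x : Ω) : Set Gal(Ω/K)) := by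
      ext g
      simp only [SetLike.mem_coe, MulAction.mem_stabilizer_iff]
      constructor
      · intro hg
        exact congrArg (fun z : 𝓞 Ω => (z : Ω)) hg
      · intro hg
        exact NumberField.RingOfIntegers.ext hg
    rw [h2]
    exact h1
  have : Algebra.IsInvariant (𝓞 K) (𝓞 Ω) Gal(Ω/K) := ⟨fun b hb => by
    have h1 : (b : Ω) ∈ (⊥ : IntermediateField K Ω) := by
      rw [← InfiniteGalois.fixedField_bot (k := K) (K := Ω), IntermediateField.mem_fixedField_iff]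
      intro g _
      exact congrArg (fun z : 𝓞 Ω => (z : Ω)) (hb g)
    obtain ⟨a, ha⟩ := IntermediateField.mem_bot.1 h1
    have h2 : IsIntegral ℤ a := by
      have h3 : IsIntegral ℤ (algebraMap K Ω a) := by
        rw [ha]
        exact b.2
      exact (isIntegral_algebraMap_iff (algebraMap K Ω).injective).1 h3
    refine ⟨⟨a, h2⟩, NumberField.RingOfIntegers.ext ?_⟩
    exact ha⟩
  exact Algebra.IsInvariant.exists_smul_of_under_eq_of_profinite (A := 𝓞 K) (G := Gal(Ω/K)) P P' h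

open scoped Pointwise in
private theorem cll_dec (P : Ideal (𝓞 QBar)) (g σ : Gal(QBar/K)) :
    (∀ x : 𝓞 QBar, σ • x ∈ g • P ↔ x ∈ g • P) ↔ g⁻¹ * σ * g ∈ dec (K := K) P := by
  have h1 : ∀ x : 𝓞 QBar, (g⁻¹ * σ * g) • x = g⁻¹ • (σ • (g • x)) := by
    intro x
    rw [mul_smul, mul_smul]
  constructor
  · intro h x
    have h2 := h (g • x)
    rw [Ideal.mem_pointwise_smul_iff_inv_smul_mem, Ideal.mem_pointwise_smul_iff_inv_smul_mem,
      inv_smul_smul] at h2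
    rw [h1]
    exact h2
  · intro h x
    have h2 := h (g⁻¹ • x)
    rw [h1, smul_inv_smul] at h2
    rw [Ideal.mem_pointwise_smul_iff_inv_smul_mem, Ideal.mem_pointwise_smul_iff_inv_smul_mem]
    exact h2

open scoped Pointwise in
theorem cl_loc {χ : Gal(QBar/K) →* Multiplicative (ZMod 3)} {c : Cub K}
    {s : Multiplicative (ZMod 3) →* G} {γ : Gal(QBar/K)} (H : Std k χ c s γ)
    {cl : (Gal(QBar/K) →* G) → V2 c.F} (hcl : ClD k χ c s cl) (S : Finset (Pl K))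
    (Q : DP K QBar) (φ φ' : Gal(QBar/K) →* G) (hφ : φ ∈ LW k χ) (hφ' : φ' ∈ LW k χ) :
    cl φ - cl φ' ∈ VL c S ↔ Lq k S Q φ φ' := by
  have hpi : k.pi.comp (s.comp χ) = χ := MonoidHom.ext fun σ => H.hs (χ σ)
  have hsur : Function.Surjective (k.pi.comp (s.comp χ)) := by
    rw [hpi]
    exact H.ch.2
  have hE : Eqv k φ (s.comp χ) := (hk_eqv k H.hk φ (s.comp χ)).2 (by rw [hpi]; exact hφ.2)
  have hE' : Eqv k φ' (s.comp χ) := (hk_eqv k H.hk φ' (s.comp χ)).2 (by rw [hpi]; exact hφ'.2)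
  obtain ⟨a, ha⟩ := v2_surj (cl φ)
  obtain ⟨a', ha'⟩ := v2_surj (cl φ')
  have hKa := (hcl.kc φ hφ a).2 ha
  have hKa' := (hcl.kc φ' hφ' a').2 ha'
  have hK : Kc k c.F φ φ' (a * a') :=
    kc_mul H.fd hE (eqv_refl k _) hE' hKa (kc_symm H.fd hE' (eqv_refl k _) hKa')
  have hneg : - cl φ' = cl φ' := by
    rw [neg_eq_iff_add_eq_zero, ← two_nsmul]
    exact v2_two _
  rw [sub_eq_add_neg, hneg, ← ha, ← ha', ← v2_mul, mem_VL]
  constructor
  · intro hL v hv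
    refine kc_loc' hsur H.fd hE hE' hK (dec (K := K) (Q.P v)) fun g σ hσ => ?_
    have hQp := Q.prime v
    have hB : (g • Q.P v).IsPrime := inferInstance
    refine hL (g • Q.P v) hB ⟨v, hv, ?_⟩ σ ((cll_dec (Q.P v) g (σ.restrictScalars K)).2 hσ)
    rw [Ideal.under_smul]
    exact Q.under v
  · rintro hL 𝔓 h𝔓 ⟨v, hv, h𝔓v⟩ σ hσ
    obtain ⟨g, rfl⟩ := cll_trans (K := K) (Q.P v) 𝔓 (Q.prime v) h𝔓 ((Q.under v).trans h𝔓v.symm)
    obtain ⟨δ, hδ, hd⟩ := hL v hv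
    have h1 := (cll_dec (Q.P v) g (σ.restrictScalars K)).1 hσ
    have h2 := hd _ h1
    obtain ⟨σ', hσ'⟩ := kc_conj_ex H.fd g σ
    have h3 : k.pi (φ' (g⁻¹ * σ.restrictScalars K * g)) = 1 := by
      rw [← hσ', eqv_pi k hE']
      exact fd_pi H.fd σ'
    have h4 := k.cen _ h3 δ hδ
    have h5 : δ * φ' (g⁻¹ * σ.restrictScalars K * g) * δ⁻¹ = φ' (g⁻¹ * σ.restrictScalars K * g) := by
      rw [mul_inv_eq_iff_eq_mul]
      rw [mul_inv_eq_iff_eq_mul] at h4
      exact h4.symm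
    rw [h5] at h2
    have h6 := kc_equi H.fd hE hE' g σ
    rw [h2, mul_inv_cancel] at h6
    have h7 : φ (σ.restrictScalars K) * (φ' (σ.restrictScalars K))⁻¹ = 1 := by
      have h8 : φ (σ.restrictScalars K) * (φ' (σ.restrictScalars K))⁻¹ = (s.comp χ) g *
          (((s.comp χ) g)⁻¹ * (φ (σ.restrictScalars K) * (φ' (σ.restrictScalars K))⁻¹) * (s.comp χ) g) *
          ((s.comp χ) g)⁻¹ := by group
      rw [h8, ← h6, mul_one, mul_inv_cancel]
    rw [hK σ, h7, kv_lam_one]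

end H48.T3
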