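import Pool.Agent.H48.T3.LtA
import Pool.Agent.H48.T3.Ogv

/-!
# [H48 T3 QCP] functionals on the parities give ray class characters, 60-100 lines. File Pool/Agent/H48/T3/QcP.lean

`ψ` vanishes on `oL (VA ⊓ VL)`, `θ P = ψ (gv c S P)`.
* `tri`: `gv_tri`, `map_add`, `map_zero`.
* `IsRay.zero`: a prime `P` of `c.F` dividing `(mS S) 𝓞` contains `8` or some `v ∈ S`; a prime which contains `8` contains `2`, lies above 2, and the prime of `K` below it is above 2, so in `S` (`h2`). So `P` is over `S` and `gv c S P = 0`.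
* `IsRay.ray`: `x = a ∈ 𝓞`, `a - 1 ∈ (mS S) 𝓞`: `LTr c S x` (`ltr_ray`), so `b = τ x * τ² x` has `LTr` (`ltr_tu`, `ltr_mul`) and square norm (`og_sq`): `v2 b ∈ VA ⊓ VL` (`mem_VA`, `mem_VL`), `ψ (oF c S b) = 0` (`oL_v2`). With `E` = the finite set of the `P` with `ord P x ≠ 0` (`finite_ord`) `og_sum` gives
  `0 = ∑_{P ∈ E} (ord P x) ψ (gv P) = ∑ᶠ P, θ P * ord P x` (`finsum_eq_sum_of_support_subset`; `map_sum`, `map_smul`).
* `qc_inj`: by `gv_sum`.
-/

set_option autoImplicit false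

open scoped NumberField Classical
open IsDedekindDomain H38.ML H63.MA

noncomputable section

namespace H48.T3

open H48.KV

variable {K : IntermediateField ℚ QBar} [NumberField K]

private theorem qc_over (c : Cub K) (S : Finset (Pl K)) (h2 : ∀ v : Pl K, Above 2 v → v ∈ S) (P : Pl c.F)
    (hP : P.asIdeal ∣ H57.LI.md (mS S) c.F) : OvS c S P := by
  obtain ⟨l, hl⟩ := exists_below (K := K) P
  refine ⟨l, ?_, hl⟩
  have h1 : mS S ≤ l.asIdeal := by
    have h3 := Ideal.le_of_dvd hP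
    unfold H57.LI.md at h3
    rw [Ideal.map_le_iff_le_comap] at h3
    exact h3.trans (le_of_eq hl)
  unfold mS at h1
  rcases (Ideal.IsPrime.mul_le l.isPrime).1 h1 with h3 | h3
  · apply h2
    have h4 : (8 : 𝓞 K) ∈ l.asIdeal := h3 (Ideal.mem_span_singleton_self 8)
    have h5 : ((2 : 𝓞 K)) ^ 3 ∈ l.asIdeal := by
      have h6 : (2 : 𝓞 K) ^ 3 = 8 := by norm_num
      rw [h6]
      exact h4
    have h7 := l.isPrime.mem_of_pow_mem 3 h5
    unfold Above
    exact_mod_cast h7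
  · obtain ⟨v, hv, h4⟩ := (Ideal.IsPrime.prod_le l.isPrime).1 h3
    have h5 : v = l := HeightOneSpectrum.ext (v.isMaximal.eq_of_le l.isPrime.ne_top h4)
    rw [← h5]
    exact hv

private theorem qc_gv0 (c : Cub K) (S : Finset (Pl K)) (P : Pl c.F) (hP : OvS c S P) : gv c S P = 0 := by
  funext R
  unfold gv
  rw [if_neg]
  · rfl
  · exact fun h => h.1 hP

theorem qc_psi (hi : MOne 2 K) (c : Cub K) (S : Finset (Pl K))
    (h2 : ∀ v : Pl K, Above 2 v → v ∈ S) (ψ : (Pl c.F → ZMod 2) →ₗ[ZMod 2] ZMod 2)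
    (hψ : ∀ x ∈ VA c ⊓ VL c S, ψ (oL c S x) = 0) : QC c S fun P => ψ (gv c S P) := by
  refine ⟨⟨fun P hP => ?_, fun x a hxa ha => ?_⟩, fun P => ?_⟩
  · show ψ (gv c S P) = 0
    rw [qc_gv0 c S P (qc_over c S h2 P hP), map_zero]
  · have hx : LTr c S x := ltr_ray hi c S x a hxa ha
    have h1 := ltr_tu c S x hx
    have h3 := hψ (v2 (tu c.τ x * tu c.τ (tu c.τ x)))
      ⟨(mem_VA c _).2 (og_sq c x), (mem_VL c S _).2 (ltr_mul c S h1 (ltr_tu c S _ h1))⟩
    rw [oL_v2, og_sum c S x (finite_ord x).toFinset (fun P hP => by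
      by_contra h
      exact hP ((finite_ord x).mem_toFinset.2 h)), map_sum] at h3
    rw [finsum_eq_sum_of_support_subset (s := (finite_ord x).toFinset)]
    · rw [← h3]
      refine Finset.sum_congr rfl fun P _ => ?_
      rw [map_smul, smul_eq_mul, mul_comm]
    · intro P hP
      rw [Finset.mem_coe, (finite_ord x).mem_toFinset]
      intro h
      apply hP
      show ψ (gv c S P) * ((ord P x : ℤ) : ZMod 2) = 0
      have h0 : ord P x = 0 := h
      rw [h0, Int.cast_zero, mul_zero]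
  · show ψ (gv c S P) + ψ (gv c S (tp c.τ P)) + ψ (gv c S (tp c.τ (tp c.τ P))) = 0
    rw [← map_add, ← map_add, gv_tri, map_zero]

theorem qc_inj (c : Cub K) (S : Finset (Pl K)) (ψ ψ' : (Pl c.F → ZMod 2) →ₗ[ZMod 2] ZMod 2)
    (h : ∀ P, ψ (gv c S P) = ψ' (gv c S P)) : ∀ g ∈ Ig c S, ψ g = ψ' g := by
  intro g hg
  obtain ⟨f, -, rfl⟩ := gv_sum c S g hg
  rw [map_sum, map_sum]
  exact Finset.sum_congr rfl fun P _ => h P

end H48.T3
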