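import Pool.Agent.H48.T3.TSp
import Pool.Agent.H48.T3.TIn

/-!
# [H48 T3 TKP] the ratio `#AT / #IT`, 40-70 lines. File Pool/Agent/H48/T3/TKp.lean

`tsp`, `tu_card` for `K` and for `c.F` (`MOne 2 c.F` by `mone_map`), `tov_card`, `tin`. Let `n = [K : ℚ]`, `[c.F : ℚ] = 3 n` (`c.deg`, `Module.finrank_mul_finrank`), `t = #T`, `s = #(T.filter Spc)`, `s₀ = #(S.filter Spc)`, `s₁ = #(T.filter (l ∉ S ∧ Spc))`, `s = s₀ + s₁` (`S ⊆ T`). `#XU T = 2 ^ k`, `2 k = 2 t + n`; `#XU TF = 2 ^ k'`,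
`2 k' = 2 (t + 2 s) + 3 n`. So `k' = k + 2 s + n`, `#AT = 2 ^ (2 s + n) = 4 ^ s₀ * 2 ^ n * 4 ^ s₁`, and `#IT = 4 ^ s₁`.
-/

set_option autoImplicit false

open scoped NumberField Classical
open IsDedekindDomain H38.ML H63.MA

noncomputable section

namespace H48.T3

open H48.KV

variable {K : IntermediateField ℚ QBar} [NumberField K]

theorem tkp (hi : MOne 2 K) (c : Cub K) (S T : Finset (Pl K)) (hST : S ⊆ T) (hK : ClOne T)
    (TF : Finset (Pl c.F)) (hTF : ∀ P, P ∈ TF ↔ OvS c T P) (hF : ClOne TF) :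
    Nat.card (AT c S T) =
      4 ^ (S.filter fun l => Spc c l).card * 2 ^ Module.finrank ℚ K * Nat.card (IT c S T) := by
  obtain ⟨-, h1⟩ := tsp hi c S T hST hK TF hTF hF
  obtain ⟨k, hk, -, hkn⟩ := tu_card K hi T
  obtain ⟨k', hk', -, hkn'⟩ := tu_card c.F (mone_map hi c.F) TF
  obtain ⟨TF', hTF', hcard⟩ := tov_card c T
  have hTT : TF = TF' := by
    ext P
    rw [hTF, hTF']
  have h2 := (tin c S T).2
  have hfr : Module.finrank ℚ c.F = Module.finrank ℚ K * 3 := by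
    rw [← Module.finrank_mul_finrank ℚ K c.F, c.deg]
  have hsp : (T.filter fun l => Spc c l).card =
      (S.filter fun l => Spc c l).card + (T.filter fun l => l ∉ S ∧ Spc c l).card := by
    rw [← Finset.card_union_of_disjoint]
    · congr 1
      ext l
      simp only [Finset.mem_filter, Finset.mem_union]
      constructor
      · rintro ⟨h3, h4⟩
        by_cases h5 : l ∈ S
        · exact Or.inl ⟨h5, h4⟩
        · exact Or.inr ⟨h3, h5, h4⟩
      · rintro (⟨h3, h4⟩ | ⟨h3, -, h4⟩)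
        · exact ⟨hST h3, h4⟩
        · exact ⟨h3, h4⟩
    · rw [Finset.disjoint_left]
      intro l h3 h4
      exact (Finset.mem_filter.1 h4).2.1 (Finset.mem_filter.1 h3).1
  rw [hTT, hcard, hfr, hsp] at hk'
  rw [hkn, hkn'] at h1
  have hkk : k' = (2 * (S.filter fun l => Spc c l).card + Module.finrank ℚ K +
      2 * (T.filter fun l => l ∉ S ∧ Spc c l).card) + k := by omega
  rw [hkk, pow_add] at h1
  have h3 := Nat.eq_of_mul_eq_mul_right (pow_pos (by norm_num) k) h1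
  rw [h3, h2, pow_add, pow_add, pow_mul, pow_mul]
  norm_num

end H48.T3
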