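import Pool.Agent.H48.T3.VDef

/-!
# T3: the Kummer part, definitions (complete)

* `Std k χ c s γ`: the standing data: `ker pi = V`, `s` a section of `pi`, `χ ∈ Ch K`, `c.F` is the field of `χ` (`FD` for `φ₀ = s ∘ χ`).
* `LW k χ`: the lifts of `χ` of finite type. `SL k χ`: the surjective ones.
* `ClD k χ c s cl`: `cl φ ∈ V2 c.F` is the Kummer class of the lift `φ` relative to `s ∘ χ`.
* `Lq k S Q φ φ'`: `φ` and `φ'` are conjugate by an element of `V` on every decomposition group at `v ∈ S`.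
* `nty k S Q χ p`: the number of classes modulo `Lq` of the surjective lifts of `χ` with the property `p`.
-/

set_option autoImplicit false

open scoped NumberField Classical
open IsDedekindDomain H38.ML H63.MA

noncomputable section

namespace H48.T3

open H48.KV

variable {K : IntermediateField ℚ QBar} [NumberField K]

variable {G : Type} [Group G]

/-- the standing data -/
structure Std (k : KV G) (χ : Gal(QBar/K) →* Multiplicative (ZMod 3)) (c : Cub K)
    (s : Multiplicative (ZMod 3) →* G) (γ : Gal(QBar/K)) : Prop where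
  hk : ∀ g, k.pi g = 1 → g ∈ k.V
  hs : ∀ x, k.pi (s x) = x
  ch : χ ∈ Ch K
  fd : FD k (s.comp χ) c.F γ c.τ

/-- the lifts of finite type -/
def LW (k : KV G) (χ : Gal(QBar/K) →* Multiplicative (ZMod 3)) : Set (Gal(QBar/K) →* G) :=
  {φ | FT φ ∧ k.pi.comp φ = χ}

/-- the surjective lifts of finite type -/
def SL (k : KV G) (χ : Gal(QBar/K) →* Multiplicative (ZMod 3)) : Set (Gal(QBar/K) →* G) :=
  {φ | FT φ ∧ Function.Surjective φ ∧ k.pi.comp φ = χ}

/-- `cl φ` is the Kummer class of the lift `φ` -/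
structure ClD (k : KV G) (χ : Gal(QBar/K) →* Multiplicative (ZMod 3)) (c : Cub K)
    (s : Multiplicative (ZMod 3) →* G) (cl : (Gal(QBar/K) →* G) → V2 c.F) : Prop where
  kc : ∀ φ ∈ LW k χ, ∀ a : c.Fˣ, Kc k c.F φ (s.comp χ) a ↔ v2 a = cl φ
  va : ∀ φ ∈ LW k χ, cl φ ∈ VA c
  eq : ∀ φ ∈ LW k χ, ∀ φ' ∈ LW k χ,
    cl φ = cl φ' ↔ ∃ δ ∈ k.V, φ = (MulAut.conj δ).toMonoidHom.comp φ'
  sj : ∀ x ∈ VA c, ∃ φ ∈ LW k χ, cl φ = x
  su : ∀ φ ∈ LW k χ, Function.Surjective φ ↔ cl φ ≠ 0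

/-- conjugate by an element of `V` on every decomposition group at `v ∈ S` -/
def Lq (k : KV G) (S : Finset (Pl K)) (Q : DP K QBar) (φ φ' : Gal(QBar/K) →* G) : Prop :=
  ∀ v ∈ S, ∃ δ ∈ k.V, ∀ σ ∈ dec (K := K) (Q.P v), φ σ = δ * φ' σ * δ⁻¹

/-- the number of classes modulo `Lq` of the surjective lifts with the property `p` -/
def nty (k : KV G) (S : Finset (Pl K)) (Q : DP K QBar)
    (χ : Gal(QBar/K) →* Multiplicative (ZMod 3)) (p : (Gal(QBar/K) →* G) → Prop) : ℕ :=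
  Nat.card (Quot fun φ φ' : {φ : Gal(QBar/K) →* G // φ ∈ SL k χ ∧ p φ} => Lq k S Q φ.1 φ'.1)

end H48.T3
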