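import Pool.Agent.H48.T3.Defs

/-!
# [H48 T3 LAA] linear algebra over `ZMod 2`: the cardinality formula, 90-140 lines, pure linear algebra. File Pool/Agent/H48/T3/LAa.lean

`V`, `W` vector spaces over `ZMod 2`, `o : V → W` linear, `A' ≤ A ≤ V`, `AT ≤ A`, `IT ≤ I ≤ W`, `o (A) ≤ I`; `a ∈ A` is in `AT` iff `o a ∈ IT`; `A = AT + A'`, `I = IT + o (A')`; `AT`, `IT` finite. Let
`K0 = A' ⊓ ker o`, `C = I / o(A')`, `l = #(A / A')`.
* `A / A'` is finite: the map `AT → A / A'` is surjective (`genA`); its kernel is `AT ⊓ A'`, so `#AT = l * #(AT ⊓ A')`.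
* `C` is finite: `IT → C` is surjective (`genI`); its kernel is `IT ⊓ o (A') = o (A' ⊓ AT)` (if `o a ∈ IT` with `a ∈ A'` then `a ∈ AT` by `oT`), so `#IT = #C * #(o (A' ⊓ AT))`.
* `K0 ≤ AT` (`o a = 0 ∈ IT`), so `K0` is finite and it is the kernel of `o` on `A' ⊓ AT`: `#(A' ⊓ AT) = #K0 * #(o (A' ⊓ AT))`.
So `#K0 * #IT * l = #K0 * #C * #(o (A' ⊓ AT)) * l = #(A' ⊓ AT) * #C * l = #AT * #C`. (`Submodule.card_eq_card_quotient_mul_card`, `LinearMap.quotKerEquivRange`, `Nat.card_congr`; or `AddSubgroup.card_eq_card_quotient_mul_card_addSubgroup`.)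
-/

set_option autoImplicit false

open scoped Classical

noncomputable section

namespace H48.T3

variable {V W : Type} [AddCommGroup V] [Module (ZMod 2) V] [AddCommGroup W] [Module (ZMod 2) W]

/-- the hypotheses -/
structure LAH (o : V →ₗ[ZMod 2] W) (A A' AT : Submodule (ZMod 2) V)
    (I IT : Submodule (ZMod 2) W) : Prop where
  le' : A' ≤ A
  leT : AT ≤ A
  leI : IT ≤ I
  oI : ∀ a ∈ A, o a ∈ I
  oT : ∀ a ∈ A, o a ∈ IT ↔ a ∈ AT
  genA : A ≤ AT ⊔ A'
  genI : I ≤ IT ⊔ A'.map o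
  finA : Finite AT
  finI : Finite IT

/-- the quotient `A / A'` -/
abbrev QA (A A' : Submodule (ZMod 2) V) : Type := ↥A ⧸ A'.comap A.subtype

/-- the quotient `I / o(A')` -/
abbrev QI (o : V →ₗ[ZMod 2] W) (A' : Submodule (ZMod 2) V) (I : Submodule (ZMod 2) W) : Type :=
  ↥I ⧸ (A'.map o).comap I.subtype

private theorem la_lc {M N : Type} [AddCommGroup M] [Module (ZMod 2) M] [AddCommGroup N]
    [Module (ZMod 2) N] (φ : M →ₗ[ZMod 2] N) (hs : Function.Surjective φ) :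
    Nat.card M = Nat.card (LinearMap.ker φ) * Nat.card N := by
  rw [Submodule.card_eq_card_quotient_mul_card (LinearMap.ker φ),
    Nat.card_congr (φ.quotKerEquivOfSurjective hs).toEquiv]
  try ring

/-- the map `AT → A / A'` -/
private def la_f1 (A A' AT : Submodule (ZMod 2) V) (h : AT ≤ A) : ↥AT →ₗ[ZMod 2] QA A A' :=
  (A'.comap A.subtype).mkQ.comp (Submodule.inclusion h)

/-- the map `IT → I / o(A')` -/
private def la_f2 (o : V →ₗ[ZMod 2] W) (A' : Submodule (ZMod 2) V) (I IT : Submodule (ZMod 2) W)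
    (h : IT ≤ I) : ↥IT →ₗ[ZMod 2] QI o A' I :=
  ((A'.map o).comap I.subtype).mkQ.comp (Submodule.inclusion h)

theorem la_card {o : V →ₗ[ZMod 2] W} {A A' AT : Submodule (ZMod 2) V}
    {I IT : Submodule (ZMod 2) W} (h : LAH o A A' AT I IT) :
    Finite (QA A A') ∧ Finite (QI o A' I) ∧ Finite ↥(A' ⊓ LinearMap.ker o) ∧
      Nat.card ↥(A' ⊓ LinearMap.ker o) * Nat.card IT * Nat.card (QA A A') =
        Nat.card AT * Nat.card (QI o A' I) := by
  haveI := h.finA
  haveI := h.finI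
  -- the first surjection
  have hs1 : Function.Surjective (la_f1 A A' AT h.leT) := by
    intro q
    obtain ⟨⟨a, ha⟩, rfl⟩ := Submodule.mkQ_surjective _ q
    obtain ⟨t, ht, a', ha', hta⟩ := Submodule.mem_sup.1 (h.genA ha)
    refine ⟨⟨t, ht⟩, ?_⟩
    unfold la_f1
    rw [LinearMap.comp_apply, Submodule.mkQ_apply, Submodule.mkQ_apply, Submodule.Quotient.eq]
    rw [Submodule.mem_comap]
    have h1 : (A.subtype (Submodule.inclusion h.leT ⟨t, ht⟩ - ⟨a, ha⟩)) = -a' := by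
      change t - a = -a'
      rw [← hta]
      abel
    rw [h1]
    exact A'.neg_mem ha'
  have hs2 : Function.Surjective (la_f2 o A' I IT h.leI) := by
    intro q
    obtain ⟨⟨a, ha⟩, rfl⟩ := Submodule.mkQ_surjective _ q
    obtain ⟨t, ht, a', ha', hta⟩ := Submodule.mem_sup.1 (h.genI ha)
    refine ⟨⟨t, ht⟩, ?_⟩
    unfold la_f2
    rw [LinearMap.comp_apply, Submodule.mkQ_apply, Submodule.mkQ_apply, Submodule.Quotient.eq]
    rw [Submodule.mem_comap]
    have h1 : (I.subtype (Submodule.inclusion h.leI ⟨t, ht⟩ - ⟨a, ha⟩)) = -a' := by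
      change t - a = -a'
      rw [← hta]
      abel
    rw [h1]
    exact (A'.map o).neg_mem ha'
  have hs3 : Function.Surjective (o.submoduleMap (A' ⊓ AT)) := LinearMap.submoduleMap_surjective _ _
  -- the kernels
  have hk1 : ∀ x : AT, x ∈ LinearMap.ker (la_f1 A A' AT h.leT) ↔ (x : V) ∈ A' := by
    intro x
    unfold la_f1
    rw [LinearMap.mem_ker, LinearMap.comp_apply, Submodule.mkQ_apply, Submodule.Quotient.mk_eq_zero]
    rfl
  have hk2 : ∀ x : IT, x ∈ LinearMap.ker (la_f2 o A' I IT h.leI) ↔ (x : W) ∈ A'.map o := by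
    intro x
    unfold la_f2
    rw [LinearMap.mem_ker, LinearMap.comp_apply, Submodule.mkQ_apply, Submodule.Quotient.mk_eq_zero]
    rfl
  have e1 : Nat.card (LinearMap.ker (la_f1 A A' AT h.leT)) = Nat.card ↥(A' ⊓ AT) :=
    Nat.card_congr
      { toFun := fun x => ⟨x.1.1, (hk1 x.1).1 x.2, x.1.2⟩
        invFun := fun x => ⟨⟨x.1, x.2.2⟩, (hk1 _).2 x.2.1⟩
        left_inv := fun x => rfl
        right_inv := fun x => rfl }
  have hm : ∀ w ∈ IT, w ∈ A'.map o ↔ w ∈ (A' ⊓ AT).map o := by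
    intro w hw
    constructor
    · rintro ⟨a, ha, rfl⟩
      exact ⟨a, ⟨ha, (h.oT a (h.le' ha)).1 hw⟩, rfl⟩
    · rintro ⟨a, ha, rfl⟩
      exact ⟨a, ha.1, rfl⟩
  have hm' : (A' ⊓ AT).map o ≤ IT := by
    rintro w ⟨a, ha, rfl⟩
    exact (h.oT a (h.leT ha.2)).2 ha.2
  have e2 : Nat.card (LinearMap.ker (la_f2 o A' I IT h.leI)) = Nat.card ↥((A' ⊓ AT).map o) :=
    Nat.card_congr
      { toFun := fun x => ⟨x.1.1, (hm _ x.1.2).1 ((hk2 x.1).1 x.2)⟩
        invFun := fun x => ⟨⟨x.1, hm' x.2⟩, (hk2 _).2 ((hm _ (hm' x.2)).2 x.2)⟩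
        left_inv := fun x => rfl
        right_inv := fun x => rfl }
  have hk3 : ∀ x : ↥(A' ⊓ AT), x ∈ LinearMap.ker (o.submoduleMap (A' ⊓ AT)) ↔ o (x : V) = 0 := by
    intro x
    rw [LinearMap.mem_ker]
    constructor
    · intro h1
      have h2 := congrArg Subtype.val h1
      exact h2
    · intro h1
      exact Subtype.ext h1
  have hK : ∀ x ∈ A' ⊓ LinearMap.ker o, x ∈ AT := by
    intro x hx
    refine (h.oT x (h.le' hx.1)).1 ?_
    have h1 : o x = 0 := hx.2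
    rw [h1]
    exact IT.zero_mem
  have e3 : Nat.card (LinearMap.ker (o.submoduleMap (A' ⊓ AT))) = Nat.card ↥(A' ⊓ LinearMap.ker o) :=
    Nat.card_congr
      { toFun := fun x => ⟨x.1.1, x.1.2.1, (hk3 x.1).1 x.2⟩
        invFun := fun x => ⟨⟨x.1, x.2.1, hK x.1 x.2⟩, (hk3 _).2 x.2.2⟩
        left_inv := fun x => rfl
        right_inv := fun x => rfl }
  have c1 := la_lc _ hs1
  have c2 := la_lc _ hs2
  have c3 := la_lc _ hs3
  rw [e1] at c1
  rw [e2] at c2
  rw [e3] at c3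
  refine ⟨Finite.of_surjective _ hs1, Finite.of_surjective _ hs2, ?_, ?_⟩
  · exact Finite.of_injective (fun x : ↥(A' ⊓ LinearMap.ker o) => (⟨x.1, hK x.1 x.2⟩ : AT))
      fun x y hxy => Subtype.ext (congrArg (fun z : AT => (z : V)) hxy)
  · rw [c1, c2, c3]
    ring

end H48.T3
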