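import Pool.Agent.H48.T3.VDef
import Pool.Agent.H48.T3.FdC

/-!
# [H48 T3 TOV] the primes of `c.F` over `T`, 50-90 lines. File Pool/Agent/H48/T3/TOv.lean

Let `l` be a prime of `K`. There is a prime `P` of `c.F` over `l` (`exists_over`, or `H63.MA`-lemma; going up). The primes over `l` are `P, τ P, τ² P` (`tp_tr`), `τ³ P = P` (`tp_cube`). If `τ P = P` there is exactly one, otherwise the three are different (`τ² P = P` implies `τ P = τ³ P = P`), and then `τ P' ≠ P'` for all three. So the number of
primes over `l` is 3 if `Spc c l` and 1 otherwise. `TF` is the disjoint union over `l ∈ T` (`P` lies over one `l` only: the prime below is `P ∩ 𝓞 K`, see `exists_below` and its uniqueness). Use `cub_fd` (FdC.lean) to get an `FD` for the lemmas `tp_*` of Pool/Agent/H48/KV/FldC.lean.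
-/

set_option autoImplicit false

open scoped NumberField Classical
open IsDedekindDomain H38.ML H63.MA

noncomputable section

namespace H48.T3

open H48.KV

variable {K : IntermediateField ℚ QBar} [NumberField K]

theorem ov_card (c : Cub K) (l : Pl K) :
    ∃ f : Finset (Pl c.F), (∀ P, P ∈ f ↔ Over P l) ∧
      ((Spc c l ∧ f.card = 3 ∧ ∀ P ∈ f, tp c.τ P ≠ P) ∨
        (¬ Spc c l ∧ f.card = 1 ∧ ∀ P ∈ f, tp c.τ P = P)) := by
  obtain ⟨P, hP⟩ := exists_over (L := c.F) l
  have hinj := cb_inj c
  have hcube := cb_pcube c P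
  by_cases h : tp c.τ P = P
  · refine ⟨{P}, fun P' => ?_, Or.inr ⟨?_, Finset.card_singleton _, fun P' hP' => ?_⟩⟩
    · rw [Finset.mem_singleton]
      constructor
      · rintro rfl
        exact hP
      · intro hP'
        rcases cb_tr c P P' l hP hP' with h1 | h1 | h1
        · exact h1
        · rw [h1, h]
        · rw [h1, h, h]
    · rintro ⟨P', hP', h2⟩
      apply h2
      have h3 : P' = P := by
        rcases cb_tr c P P' l hP hP' with h1 | h1 | h1
        · exact h1
        · rw [h1, h]
        · rw [h1, h, h]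
      rw [h3, h]
    · rw [Finset.mem_singleton] at hP'
      rw [hP', h]
  · have h2 : tp c.τ (tp c.τ P) ≠ P := by
      intro h3
      apply h
      rw [h3] at hcube
      exact hcube
    have h3 : tp c.τ (tp c.τ P) ≠ tp c.τ P := fun h4 => h (hinj h4)
    refine ⟨{P, tp c.τ P, tp c.τ (tp c.τ P)}, fun P' => ?_, Or.inl ⟨⟨P, hP, h⟩, ?_, fun P' hP' => ?_⟩⟩
    · rw [Finset.mem_insert, Finset.mem_insert, Finset.mem_singleton]
      constructor
      · rintro (rfl | rfl | rfl)
        · exact hP
        · exact (tp_over c.τ P l).2 hP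
        · exact (tp_over c.τ _ l).2 ((tp_over c.τ P l).2 hP)
      · exact fun hP' => cb_tr c P P' l hP hP'
    · exact Finset.card_eq_three.2 ⟨P, tp c.τ P, tp c.τ (tp c.τ P), Ne.symm h, Ne.symm h2, Ne.symm h3, rfl⟩
    · rw [Finset.mem_insert, Finset.mem_insert, Finset.mem_singleton] at hP'
      rcases hP' with rfl | rfl | rfl
      · exact h
      · exact h3
      · rw [hcube]
        exact Ne.symm h2

theorem tov_card (c : Cub K) (T : Finset (Pl K)) :
    ∃ TF : Finset (Pl c.F), (∀ P, P ∈ TF ↔ OvS c T P) ∧
      TF.card = T.card + 2 * (T.filter fun l => Spc c l).card := by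
  choose f hf1 hf2 using fun l : Pl K => ov_card c l
  refine ⟨T.biUnion f, fun P => ?_, ?_⟩
  · rw [Finset.mem_biUnion]
    unfold OvS
    exact exists_congr fun l => and_congr_right fun _ => hf1 l P
  · rw [Finset.card_biUnion, Finset.card_filter, Finset.mul_sum, Finset.card_eq_sum_ones,
      ← Finset.sum_add_distrib]
    · refine Finset.sum_congr rfl fun l _ => ?_
      rcases hf2 l with ⟨h1, h2, -⟩ | ⟨h1, h2, -⟩
      · simp [h1, h2]
      · simp [h1, h2]
    · intro l _ l' _ hne
      refine Finset.disjoint_left.2 ?_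
      intro P hP hP'
      exact hne (below_unique ((hf1 l P).1 hP) ((hf1 l' P).1 hP'))

end H48.T3
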