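import Pool.Agent.H48.T3.KDf
import Pool.Agent.H48.T3.Apx

/-!
# [H48 T3 TYA] the number of local types depends only on `χ` at `S`, 60-90 lines. File Pool/Agent/H48/T3/TyA.lean

* `lq_refl`: `δ = 1`. `lq_symm`: `δ⁻¹`. `lq_trans`: the product.
* `nty_inv`: for `φ ∈ SL k χ` with `p φ` the approximation lemma `apx` (Apx.lean) gives `φ' ∈ SL k χ'` with `Lq φ φ'`, so `p φ'` (`hp`). Choose one: this defines a map from the `Quot` of `χ` to that of `χ'` (if `Lq φ₁ φ₂` then `Lq φ₁' φ₂'` by symmetry and transitivity), it is injective (the same argument: the classes of the `Quot` are the `Lq` classes: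
  `Quot.sound` and, conversely, `Quot.eqvGen_exact` with the fact that `Lq` is an equivalence relation, or use `Quot.lift` into `Prop`). The same in the other direction (`Teq` is symmetric), so both `Nat.card` are equal (both maps are injective: if one of the types is finite so is the other; `Nat.card_le_card_of_injective` needs finiteness; simpler: the map is bijective:
  given `ψ ∈ SL k χ'` with `p ψ`, `apx` gives `φ ∈ SL k χ` with `Lq ψ φ`, and the image of the class of `φ` is the class of `ψ`; `Nat.card_eq_of_bijective`).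
-/

set_option autoImplicit false

open scoped NumberField Classical
open IsDedekindDomain H38.ML H63.MA

noncomputable section

namespace H48.T3

open H48.KV

variable {K : IntermediateField ℚ QBar} [NumberField K]

variable {G : Type} [Group G]

theorem lq_refl (k : KV G) (S : Finset (Pl K)) (Q : DP K QBar) (φ : Gal(QBar/K) →* G) :
    Lq k S Q φ φ := by
  intro v _
  exact ⟨1, k.V.one_mem, fun σ _ => by rw [one_mul, inv_one, mul_one]⟩

theorem lq_symm {k : KV G} {S : Finset (Pl K)} {Q : DP K QBar} {φ φ' : Gal(QBar/K) →* G}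
    (h : Lq k S Q φ φ') : Lq k S Q φ' φ := by
  intro v hv
  obtain ⟨δ, hδ, h1⟩ := h v hv
  refine ⟨δ⁻¹, k.V.inv_mem hδ, fun σ hσ => ?_⟩
  rw [h1 σ hσ]
  group

theorem lq_trans {k : KV G} {S : Finset (Pl K)} {Q : DP K QBar}
    {φ φ' φ'' : Gal(QBar/K) →* G} (h : Lq k S Q φ φ') (h' : Lq k S Q φ' φ'') :
    Lq k S Q φ φ'' := by
  intro v hv
  obtain ⟨δ, hδ, h1⟩ := h v hv
  obtain ⟨ε, hε, h2⟩ := h' v hv
  refine ⟨δ * ε, k.V.mul_mem hδ hε, fun σ hσ => ?_⟩
  rw [h1 σ hσ, h2 σ hσ]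
  group

/-- the classes of the `Quot` in the definition of `nty` are the classes of `Lq` -/
theorem lq_quot (k : KV G) (S : Finset (Pl K)) (Q : DP K QBar)
    (χ : Gal(QBar/K) →* Multiplicative (ZMod 3)) (p : (Gal(QBar/K) →* G) → Prop)
    (x y : {φ : Gal(QBar/K) →* G // φ ∈ SL k χ ∧ p φ}) :
    Quot.mk (fun φ φ' : {φ : Gal(QBar/K) →* G // φ ∈ SL k χ ∧ p φ} => Lq k S Q φ.1 φ'.1) x =
      Quot.mk _ y ↔ Lq k S Q x.1 y.1 := by
  have he : Equivalence
      (fun φ φ' : {φ : Gal(QBar/K) →* G // φ ∈ SL k χ ∧ p φ} => Lq k S Q φ.1 φ'.1) :=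
    ⟨fun φ => lq_refl k S Q φ.1, fun h => lq_symm h, fun h h' => lq_trans h h'⟩
  constructor
  · intro h
    exact he.eqvGen_iff.1 (Quot.eqvGen_exact h)
  · intro h
    exact Quot.sound h

private theorem nty_step (hi : MOne 2 K) (k : KV G) (hk : ∀ g, k.pi g = 1 → g ∈ k.V)
    (Q : DP K QBar) (S : Finset (Pl K)) (χ χ' : Gal(QBar/K) →* Multiplicative (ZMod 3))
    (hχ : χ ∈ Ch K) (hχ' : χ' ∈ Ch K) (hT : Teq S Q χ χ') (p : (Gal(QBar/K) →* G) → Prop)
    (hp : ∀ φ φ' : Gal(QBar/K) →* G, FT φ → Function.Surjective φ → FT φ' →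
      Function.Surjective φ' → Lq k S Q φ φ' → (p φ ↔ p φ'))
    (x : {φ : Gal(QBar/K) →* G // φ ∈ SL k χ ∧ p φ}) :
    ∃ y : {φ : Gal(QBar/K) →* G // φ ∈ SL k χ' ∧ p φ}, Lq k S Q x.1 y.1 := by
  obtain ⟨φ, ⟨h1, h2, h3⟩, h4⟩ := x
  obtain ⟨φ', g1, g2, g3, g4⟩ := apx hi k hk Q S χ χ' hχ hχ' hT φ h1 h3
  exact ⟨⟨φ', ⟨g1, g2, g3⟩, (hp φ φ' h1 h2 g1 g2 g4).1 h4⟩, g4⟩

theorem nty_inv (hi : MOne 2 K) (k : KV G) (hk : ∀ g, k.pi g = 1 → g ∈ k.V) (Q : DP K QBar)
    (S : Finset (Pl K)) (χ χ' : Gal(QBar/K) →* Multiplicative (ZMod 3)) (hχ : χ ∈ Ch K)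
    (hχ' : χ' ∈ Ch K) (hT : Teq S Q χ χ') (p : (Gal(QBar/K) →* G) → Prop)
    (hp : ∀ φ φ' : Gal(QBar/K) →* G, FT φ → Function.Surjective φ → FT φ' →
      Function.Surjective φ' → Lq k S Q φ φ' → (p φ ↔ p φ')) :
    nty k S Q χ p = nty k S Q χ' p := by
  have hT' : Teq S Q χ' χ := fun v hv σ hσ => (hT v hv σ hσ).symm
  choose f hf using nty_step hi k hk Q S χ χ' hχ hχ' hT p hp
  choose g hg using nty_step hi k hk Q S χ' χ hχ' hχ hT' p hp
  unfold nty
  have hs : ∀ a b : {φ : Gal(QBar/K) →* G // φ ∈ SL k χ ∧ p φ}, Lq k S Q a.1 b.1 →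
      Lq k S Q (f a).1 (f b).1 := fun a b h => lq_trans (lq_symm (hf a)) (lq_trans h (hf b))
  refine Nat.card_eq_of_bijective (Quot.map f hs) ⟨?_, ?_⟩
  · rintro ⟨a⟩ ⟨b⟩ h
    have h' := (lq_quot k S Q χ' p (f a) (f b)).1 h
    exact (lq_quot k S Q χ p a b).2 (lq_trans (hf a) (lq_trans h' (lq_symm (hf b))))
  · rintro ⟨b⟩
    refine ⟨Quot.mk _ (g b), ?_⟩
    exact (lq_quot k S Q χ' p (f (g b)) b).2 (lq_symm (lq_trans (hg b) (hf (g b))))

end H48.T3
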