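import Pool.Agent.H48.T3.Defs
import Pool.Agent.H63.MA.GKus

/-!
# T3: the space `V2 F` and its subspaces (complete)

* `oL c S : V2 c.F →ₗ (Pl c.F → ZMod 2)`: the parities outside `S`, `oL c S (v2 a) = oF c S a`.
* `VA c`: the classes of square norm. `VL c S`: the classes of the `a` with `LTr c S a`.
* `AT c S T`, `IT c S T`: the elements of `VA c`, `Ig c S` with support over `T`.
-/

set_option autoImplicit false

open scoped NumberField Classical
open IsDedekindDomain H38.ML H63.MA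

noncomputable section

namespace H48.T3

open H48.KV

theorem alg_cl {K : IntermediateField ℚ QBar} (F : IntermediateField K QBar) :
    IsAlgClosure F QBar := by
  have : Algebra.IsAlgebraic F QBar := Algebra.IsAlgebraic.tower_top (K := K) F
  exact ⟨inferInstance, inferInstance⟩

theorem neg_one_prim (F : Type) [Field F] [CharZero F] : IsPrimitiveRoot (-1 : F) 2 := by
  have h : ringChar F ≠ 2 := by
    rw [ringChar.eq_zero]
    norm_num
  exact IsPrimitiveRoot.neg_one 0 (by norm_num)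

variable {K : IntermediateField ℚ QBar} [NumberField K]

/-- the parities outside `S`, as a homomorphism -/
def oH (c : Cub K) (S : Finset (Pl K)) : c.Fˣ →* Multiplicative (Pl c.F → ZMod 2) where
  toFun a := Multiplicative.ofAdd (oF c S a)
  map_one' := by
    apply Multiplicative.toAdd.injective
    funext P
    simp [oF, ord_one]
  map_mul' := by
    intro a b
    apply Multiplicative.toAdd.injective
    funext P
    simp only [toAdd_ofAdd, toAdd_mul, Pi.add_apply, oF]
    split_ifs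
    · rw [add_zero]
    · rw [ord_mul]
      push_cast
      rfl

/-- the parities outside `S` -/
def oL (c : Cub K) (S : Finset (Pl K)) : V2 c.F →ₗ[ZMod 2] (Pl c.F → ZMod 2) :=
  AddMonoidHom.toZModLinearMap 2
    (MonoidHom.toAdditiveLeft (QuotientGroup.lift (powMonoidHom 2 : c.Fˣ →* c.Fˣ).range (oH c S) (by
      rintro _ ⟨b, rfl⟩
      apply Multiplicative.toAdd.injective
      funext P
      simp only [oH, powMonoidHom_apply, MonoidHom.coe_mk, OneHom.coe_mk, toAdd_ofAdd, toAdd_one,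
        Pi.zero_apply, oF]
      split_ifs
      · rfl
      · rw [ord_pow]
        push_cast
        rw [show (2 : ZMod 2) = 0 from rfl, zero_mul])))

theorem oL_v2 (c : Cub K) (S : Finset (Pl K)) (a : c.Fˣ) : oL c S (v2 a) = oF c S a := rfl

/-- the classes of square norm -/
def VA (c : Cub K) : Submodule (ZMod 2) (V2 c.F) where
  carrier := {x | ∃ a : c.Fˣ, v2 a = x ∧ IsSquare (Algebra.norm K (a : c.F))}
  add_mem' := by
    rintro _ _ ⟨a, rfl, ha⟩ ⟨b, rfl, hb⟩
    refine ⟨a * b, v2_mul a b, ?_⟩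
    rw [Units.val_mul, map_mul]
    exact ha.mul hb
  zero_mem' := ⟨1, rfl, by simp⟩
  smul_mem' := by
    rintro r _ ⟨a, rfl, ha⟩
    rcases (show r = 0 ∨ r = 1 by revert r; decide) with rfl | rfl
    · exact ⟨1, by rw [zero_smul]; rfl, by simp⟩
    · exact ⟨a, by rw [one_smul], ha⟩

theorem mem_VA (c : Cub K) (a : c.Fˣ) :
    v2 a ∈ VA c ↔ IsSquare (Algebra.norm K (a : c.F)) := by
  constructor
  · rintro ⟨b, hb, hb2⟩
    obtain ⟨d, rfl⟩ := v2_eq.1 hb
    rw [Units.val_mul, Units.val_pow_eq_pow_val, map_mul, map_pow] at hb2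
    obtain ⟨e, he⟩ := hb2
    have hd : Algebra.norm K (d : c.F) ≠ 0 := Algebra.norm_ne_zero_iff.2 d.ne_zero
    refine ⟨e / Algebra.norm K (d : c.F), ?_⟩
    rw [div_mul_div_comm, ← he, eq_div_iff (mul_ne_zero hd hd)]
    ring
  · exact fun h => ⟨a, rfl, h⟩

theorem ltr_mul (c : Cub K) (S : Finset (Pl K)) {a b : c.Fˣ} (ha : LTr c S a) (hb : LTr c S b) :
    LTr c S (a * b) := by
  intro 𝔓 h𝔓 hS σ hσ
  have := alg_cl c.F
  rw [kk_mul_arg Nat.prime_two (neg_one_prim c.F), ha 𝔓 h𝔓 hS σ hσ, hb 𝔓 h𝔓 hS σ hσ, add_zero]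

theorem ltr_sq (c : Cub K) (S : Finset (Pl K)) (a : c.Fˣ) : LTr c S (a ^ 2) := by
  intro 𝔓 h𝔓 hS σ hσ
  have := alg_cl c.F
  rw [sq, kk_mul_arg Nat.prime_two (neg_one_prim c.F)]
  exact CharTwo.add_self_eq_zero _

/-- the classes whose Kummer character is trivial on the decomposition groups over `S` -/
def VL (c : Cub K) (S : Finset (Pl K)) : Submodule (ZMod 2) (V2 c.F) where
  carrier := {x | ∃ a : c.Fˣ, v2 a = x ∧ LTr c S a}
  add_mem' := by
    rintro _ _ ⟨a, rfl, ha⟩ ⟨b, rfl, hb⟩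
    exact ⟨a * b, v2_mul a b, ltr_mul c S ha hb⟩
  zero_mem' := ⟨1, rfl, by simpa using ltr_sq c S 1⟩
  smul_mem' := by
    rintro r _ ⟨a, rfl, ha⟩
    rcases (show r = 0 ∨ r = 1 by revert r; decide) with rfl | rfl
    · exact ⟨1, by rw [zero_smul]; rfl, by simpa using ltr_sq c S 1⟩
    · exact ⟨a, by rw [one_smul], ha⟩

theorem mem_VL (c : Cub K) (S : Finset (Pl K)) (a : c.Fˣ) : v2 a ∈ VL c S ↔ LTr c S a := by
  constructor
  · rintro ⟨b, hb, hb2⟩
    obtain ⟨d, rfl⟩ := v2_eq.1 hb.symm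
    exact ltr_mul c S hb2 (ltr_sq c S d)
  · exact fun h => ⟨a, rfl, h⟩

/-- the elements of `VA` with odd orders only over `T` (and over `S`) -/
def AT (c : Cub K) (S T : Finset (Pl K)) : Submodule (ZMod 2) (V2 c.F) :=
  VA c ⊓ (LinearMap.ker (LinearMap.pi fun P : {P : Pl c.F // ¬ OvS c T P} =>
    (LinearMap.proj P.1).comp (oL c S)))

theorem mem_AT (c : Cub K) (S T : Finset (Pl K)) (x : V2 c.F) :
    x ∈ AT c S T ↔ x ∈ VA c ∧ ∀ P, ¬ OvS c T P → oL c S x P = 0 := by
  unfold AT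
  rw [Submodule.mem_inf, LinearMap.mem_ker, funext_iff]
  exact and_congr_right fun _ => ⟨fun h P hP => h ⟨P, hP⟩, fun h P => h P.1 P.2⟩

/-- the elements of `Ig` with support over `T` -/
def IT (c : Cub K) (S T : Finset (Pl K)) : Submodule (ZMod 2) (Pl c.F → ZMod 2) :=
  Ig c S ⊓ (LinearMap.ker (LinearMap.pi fun P : {P : Pl c.F // ¬ OvS c T P} =>
    LinearMap.proj P.1))

theorem mem_IT (c : Cub K) (S T : Finset (Pl K)) (g : Pl c.F → ZMod 2) :
    g ∈ IT c S T ↔ g ∈ Ig c S ∧ ∀ P, ¬ OvS c T P → g P = 0 := by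
  unfold IT
  rw [Submodule.mem_inf, LinearMap.mem_ker, funext_iff]
  exact and_congr_right fun _ => ⟨fun h P hP => h ⟨P, hP⟩, fun h P => h P.1 P.2⟩

end H48.T3
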